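import Pool.Agent.MP_757d88_an.Par

/-! What the integer check proves. -/

set_option autoImplicit false

namespace Pool.Agent.MP_757d88_an

open Finset

theorem fm_congr {N : ℕ} {A A' : ℕ → ℕ → ℝ} (h : ∀ n < N, ∀ m < N, A n m = A' n m) (w : ℂ) :
    fm N A w = fm N A' w :=
  sum_congr rfl fun n hn => sum_congr rfl fun m hm => by
    rw [h n (mem_range.1 hn) m (mem_range.1 hm)]

theorem fm_mul (N : ℕ) (c : ℝ) (A : ℕ → ℕ → ℝ) (w : ℂ) :
    fm N (fun n m => c * A n m) w = c * fm N A w := by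
  simp only [fm, mul_sum, mul_assoc]

theorem fm_sub (N : ℕ) (A A' : ℕ → ℕ → ℝ) (w : ℂ) :
    fm N (fun n m => A n m - A' n m) w = fm N A w - fm N A' w := by
  simp only [fm, sub_mul, sum_sub_distrib]

theorem fm_sum (N R : ℕ) (A : ℕ → ℕ → ℕ → ℝ) (w : ℂ) :
    fm N (fun n m => ∑ r ∈ range R, A r n m) w = ∑ r ∈ range R, fm N (A r) w := by
  simp only [fm, sum_mul]
  rw [sum_comm (s := range R)]
  exact sum_congr rfl fun n _ => sum_comm

theorem fm_del {N : ℕ} (hN : 0 < N) (c : ℝ) (w : ℂ) :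
    fm N (fun n m => if n + m = 0 then c else 0) w = c := by
  rw [fm, sum_eq_single 0, sum_eq_single 0]
  · simp
  · intro m _ hm
    simp [hm]
  · simp [hN.ne']
  · intro n _ hn
    simp [hn]
  · simp [hN.ne']

theorem PP.sum {B K M : ℕ} {g : ℕ → Polynomial ℤ} {x c : ℕ → ℤ} (N : ℕ)
    (h : ∀ m < N, PP B K (g m) (x m) M) :
    PP B K (∑ m ∈ range N, Polynomial.C (c m) * g m) (sz (fun m => c m * x m) N)
      (sn (fun m => (c m).natAbs * M) N) := by
  induction N with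
  | zero => exact ⟨by simp [sz], by simp⟩
  | succ N ih =>
    rw [sum_range_succ]
    exact (ih fun m hm => h m (by omega)).add ((h N (by omega)).smul _)

theorem abel (a r : ℕ → ℝ) (J : ℕ) (ha : ∀ t, t + 1 < J → a (t + 1) ≤ a t) (h0 : ∀ t, 0 ≤ a t)
    (hs : ∀ t < J, 0 ≤ ∑ s ∈ range (t + 1), r s) : 0 ≤ ∑ t ∈ range J, a t * r t := by
  have k : ∀ n < J, a n * ∑ s ∈ range (n + 1), r s ≤ ∑ t ∈ range (n + 1), a t * r t := by
    intro n
    induction n with
    | zero => simp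
    | succ n ih =>
      intro hn
      have h1 := mul_le_mul_of_nonneg_right (ha n hn) (hs n (by omega))
      rw [sum_range_succ, sum_range_succ _ (n + 1), mul_add]
      linarith [ih (by omega)]
  rcases J with _ | J
  · simp
  · exact (mul_nonneg (h0 J) (hs J (by omega))).trans (k J (by omega))

theorem round_err (x o : ℕ) (γ : ℤ) (D : ℕ) (hD : 0 < D) (h : (x : ℤ) = γ + o) :
    |(γ : ℝ) / D - (((x / D : ℕ) : ℤ) - ((o / D : ℕ) : ℤ) : ℤ)| ≤ 1 := by
  have hD' : (0 : ℝ) < D := by exact_mod_cast hD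
  have e : (γ : ℝ) / D = x / D - o / D := by
    have : (x : ℝ) = γ + o := by exact_mod_cast h
    rw [this]; ring
  have k : ∀ y : ℕ, ((y / D : ℕ) : ℝ) ≤ y / D ∧ (y : ℝ) / D ≤ (y / D : ℕ) + 1 := fun y =>
    ⟨Nat.cast_div_le, by
      rw [div_le_iff₀ hD']
      exact_mod_cast (by rw [mul_comm]; exact Nat.lt_mul_div_succ y hD : y < (y / D + 1) * D).le⟩
  have h1 := k x
  have h2 := k o
  rw [e, Int.cast_sub, Int.cast_natCast, Int.cast_natCast, abs_le]
  constructor <;> linarith [h1.1, h1.2, h2.1, h2.2]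

namespace Par

variable (p : Par)

noncomputable def poly (i r : ℕ) : Polynomial ℤ :=
  tp (p.Y i) * ∑ m ∈ range p.N, Polynomial.C (p.C i r m) * tp (p.S m)

noncomputable def g (i r s : ℕ) : ℝ := ((p.poly i r).coeff s : ℝ) / (p.L : ℝ) ^ s

def gt (i r j n : ℕ) : ℤ := (p.rd i r j n : ℤ) - (p.ro j n : ℤ)

noncomputable def T (w : ℂ) (i r j : ℕ) : ℝ :=
  fm p.N (fun n m => (p.K n m : ℝ) * (p.g i r (j + p.k * n) * p.g i r (j + p.k * m))) w

def Am (t n m : ℕ) : ℤ := ∑ i ∈ range p.J, ∑ j ∈ range p.k,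
  p.w i j t * ∑ r ∈ range p.N, p.gt i r j n * p.gt i r j m

theorem uu_eq (s i r j : ℕ) :
    p.uu s i r j = ∑ n ∈ range p.N, p.gt i r j n * (p.b : ℤ) ^ (s * n) := by
  simp only [uu, uo, sn_eq, gt, sub_mul, sum_sub_distrib]
  push_cast
  rfl

theorem AA_eq (hh' : ∀ i < p.J, ∀ j < p.k, p.hd i j = p.hh i j) (t : ℕ) : p.AA t =
    ∑ n ∈ range p.N, ∑ m ∈ range p.N, p.Am t n m * (p.b : ℤ) ^ (p.N * n + m) := by
  have h : ∀ i j, p.w i j t * p.hh i j = ∑ n ∈ range p.N, ∑ m ∈ range p.N,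
      (p.w i j t * ∑ r ∈ range p.N, p.gt i r j n * p.gt i r j m) * (p.b : ℤ) ^ (p.N * n + m) := by
    intro i j
    simp only [hh, sz_eq, uu_eq, sum_mul_sum]
    simp only [mul_sum, sum_mul, one_mul, pow_add]
    rw [sum_comm]
    refine sum_congr rfl fun n _ => ?_
    rw [sum_comm]
    refine sum_congr rfl fun m _ => sum_congr rfl fun r _ => by ring
  simp only [AA, sz_eq]
  rw [sum_congr rfl fun i hi => sum_congr rfl fun j hj => by
    rw [hh' i (mem_range.1 hi) j (mem_range.1 hj)]]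
  simp only [h, Am, sum_mul]
  rw [sum_congr rfl fun i _ => sum_comm, sum_comm]
  refine sum_congr rfl fun n _ => ?_
  rw [sum_congr rfl fun i _ => sum_comm, sum_comm]

variable {p}

theorem gt_spec (hD : DigStmt) (h : p.ck = true) (hS : 0 < p.Sd) (hL : 0 < p.L) {i r j n : ℕ}
    (hi : i < p.J) (hr : r < p.N) (hj : j < p.k) (hn : n < p.N) :
    |p.gt i r j n| ≤ p.Mg ∧ |p.g i r (j + p.k * n) / p.Sd - p.gt i r j n| ≤ 1 := by
  simp only [ck, ck1, ck2, Bool.and_eq_true, al2_iff, Nat.blt_eq, okg, Nat.ble_eq,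
    decide_eq_true_eq] at h
  obtain ⟨h1, ⟨⟨⟨h2, h3⟩, -⟩, -⟩, -⟩ := h
  obtain ⟨⟨h4, h5⟩, -⟩ := h1 i hi
  obtain ⟨⟨h6, h7⟩, h8⟩ := h5 r hr
  have pp := (PP.list (B := p.B) (K := p.k * p.N) p.n h4).mul
    (PP.sum (c := p.C i r) p.N fun m hm => PP.list p.n (h2 m hm))
  have h9 := hD.1 p.W p.k p.N _ p.off _ _ _ pp h7 (lt_of_le_of_lt (Nat.add_le_add_left h7 _) h3)
    h6 j hj n hn
  constructor
  · have := h8 j hj n hn
    rw [gt, abs_le]
    omega
  · have := round_err _ _ _ (p.dv j n) (Nat.mul_pos hS (pow_pos hL _)) h9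
    rw [g, div_div, mul_comm _ (p.Sd : ℝ), ← Nat.cast_pow, ← Nat.cast_mul]
    exact this

theorem node (hD : DigStmt) (hF : FmStmt) (h : p.ck = true) (hS : 0 < p.Sd)
    (hL : 0 < p.L) (hN : 0 < p.N) {w : ℂ} (hw : ‖w‖ ≤ 1) {t : ℕ} (ht : t < p.J) :
    (p.u t : ℝ) * (p.Sd : ℝ) ^ 2 *
      ∑ r ∈ range p.N, ‖∑ m ∈ range p.N, (p.C t r m : ℂ) * (w * p.d) ^ m‖ ^ 2 +
      (p.Sd : ℝ) ^ 2 * fm p.N (fun n m => (p.F t n m : ℝ)) w ≤
    p.Tt * ∑ i ∈ range p.J, ∑ j ∈ range p.k, p.w i j t * ∑ r ∈ range p.N, p.T w i r j := by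
  have hg := fun i r j n => @gt_spec p hD h hS hL i r j n
  simp only [ck, ck1, ck2, Bool.and_eq_true, al2_iff, Nat.blt_eq, okt, Nat.ble_eq,
    decide_eq_true_eq] at h
  obtain ⟨h0, ⟨⟨-, h1⟩, h2⟩, -⟩ := h
  obtain ⟨⟨h3, -⟩, -⟩ := h2 t ht
  have hb : ∀ n < p.N, ∀ m < p.N, |p.Am t n m| ≤ (p.sw t * (p.N * (p.Mg * p.Mg)) : ℕ) := by
    intro n hn m hm
    simp only [Am, sw, sn_eq, sum_mul]
    push_cast
    refine (abs_sum_le_sum_abs _ _).trans (sum_le_sum fun i hi => ?_)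
    refine (abs_sum_le_sum_abs _ _).trans (sum_le_sum fun j hj => ?_)
    rw [abs_mul]
    refine mul_le_mul_of_nonneg_left ((abs_sum_le_sum_abs _ _).trans ?_) (abs_nonneg _)
    refine (sum_le_card_nsmul _ _ ((p.Mg : ℤ) * p.Mg) fun r hr => ?_).trans (by simp)
    rw [abs_mul]
    exact mul_le_mul (hg i r j n (mem_range.1 hi) (mem_range.1 hr) (mem_range.1 hj) hn).1
      (hg i r j m (mem_range.1 hi) (mem_range.1 hr) (mem_range.1 hj) hm).1 (abs_nonneg _)
      (Nat.cast_nonneg _)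
  have h5 := hD.2 p.b p.N _ p.ob (p.Am t) hb h3 (lt_of_le_of_lt (Nat.add_le_add_left h3 _) h1)
  rw [← AA_eq p fun i hi => (h0 i hi).2] at h5
  obtain ⟨φ, h6⟩ : ∃ φ, φ = fm p.N (fun n m => (p.F t n m : ℝ)) w := ⟨_, rfl⟩
  rw [← h6]
  rw [fm_congr (A' := fun n m => p.Tt * ((∑ i ∈ range p.J, ∑ j ∈ range p.k, p.w i j t *
    ∑ r ∈ range p.N, (p.K n m : ℝ) * (p.gt i r j n * p.gt i r j m)) -
      if n + m = 0 then (p.Er t : ℝ) else 0) - p.u t * ∑ r ∈ range p.N,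
        ((p.C t r n : ℝ) * (p.d : ℝ) ^ n) * (p.C t r m * (p.d : ℝ) ^ m))] at h6
  · simp only [fm_sub, fm_mul, fm_sum, fm_del hN, ← hF.1] at h6
    have hS' : (0 : ℝ) < p.Sd := by exact_mod_cast hS
    have h7 : ∀ i < p.J, ∀ j < p.k, ∀ r < p.N, |p.T w i r j / (p.Sd : ℝ) ^ 2 -
        fm p.N (fun n m => (p.K n m : ℝ) * (p.gt i r j n * p.gt i r j m)) w| ≤
          (p.Ks * (2 * p.Mg + 1) : ℕ) := by
      intro i hi j hj r hr
      rw [T, div_eq_inv_mul, ← fm_mul, ← fm_sub]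
      refine (hF.2.2.1 _ _ _ hw).trans ?_
      simp only [Ks, sn_eq, sum_mul]
      push_cast
      refine sum_le_sum fun n hn => sum_le_sum fun m hm => ?_
      obtain ⟨a1, a2⟩ := hg i r j n hi hr hj (mem_range.1 hn)
      obtain ⟨b1, b2⟩ := hg i r j m hi hr hj (mem_range.1 hm)
      have a1' : |(p.gt i r j n : ℝ)| ≤ p.Mg := by exact_mod_cast a1
      have b1' : |(p.gt i r j m : ℝ)| ≤ p.Mg := by exact_mod_cast b1
      generalize p.g i r (j + p.k * n) = x at a2 ⊢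
      generalize p.g i r (j + p.k * m) = y at b2 ⊢
      generalize (p.gt i r j n : ℝ) = x' at a1' a2 ⊢
      generalize (p.gt i r j m : ℝ) = y' at b1' b2 ⊢
      have e : ((p.Sd : ℝ) ^ 2)⁻¹ * (p.K n m * (x * y)) - p.K n m * (x' * y') = p.K n m *
          ((x / p.Sd - x') * (y / p.Sd - y') + (x / p.Sd - x') * y' + x' * (y / p.Sd - y')) := by
        field_simp
        ring
      rw [e, abs_mul, Nat.cast_natAbs, Int.cast_abs]
      refine mul_le_mul_of_nonneg_left ((abs_add_three _ _ _).trans ?_) (abs_nonneg _)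
      simp only [abs_mul]
      have := mul_le_mul a2 b2 (abs_nonneg _) zero_le_one
      have := mul_le_mul a2 b1' (abs_nonneg _) zero_le_one
      have := mul_le_mul a1' b2 (abs_nonneg _) (Nat.cast_nonneg _)
      linarith
    have h8 : ∑ i ∈ range p.J, ∑ j ∈ range p.k, (p.w i j t : ℝ) * ∑ r ∈ range p.N,
        fm p.N (fun n m => (p.K n m : ℝ) * (p.gt i r j n * p.gt i r j m)) w - p.Er t ≤
        (∑ i ∈ range p.J, ∑ j ∈ range p.k, p.w i j t * ∑ r ∈ range p.N, p.T w i r j) /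
          (p.Sd : ℝ) ^ 2 := by
      rw [Er, sw]
      simp only [sn_eq, sum_mul, sum_div, Nat.cast_sum, ← sum_sub_distrib]
      refine sum_le_sum fun i hi => sum_le_sum fun j hj => ?_
      rw [mul_div_assoc, sum_div, sub_le_iff_le_add, ← sub_le_iff_le_add', ← mul_sub,
        ← sum_sub_distrib, Nat.cast_mul, Nat.cast_natAbs, Int.cast_abs]
      refine (le_abs_self _).trans ?_
      rw [abs_mul]
      refine mul_le_mul_of_nonneg_left ((abs_sum_le_sum_abs _ _).trans ?_) (abs_nonneg _)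
      refine (sum_le_card_nsmul _ _ ((p.Ks * (2 * p.Mg + 1) : ℕ) : ℝ) fun r hr => ?_).trans
        (by simp)
      rw [abs_sub_comm]
      exact h7 i (mem_range.1 hi) j (mem_range.1 hj) r (mem_range.1 hr)
    have h9 : ∀ r, ∑ m ∈ range p.N, (((p.C t r m : ℝ) * (p.d : ℝ) ^ m : ℝ) : ℂ) * w ^ m =
        ∑ m ∈ range p.N, (p.C t r m : ℂ) * (w * p.d) ^ m := fun r =>
      sum_congr rfl fun m _ => by push_cast; ring
    simp only [h9] at h6
    have h10 := mul_le_mul_of_nonneg_left h8 (Nat.cast_nonneg (α := ℝ) p.Tt)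
    rw [← mul_div_assoc, le_div_iff₀ (by positivity)] at h10
    rw [h6]
    linarith
  · intro n hn m hm
    rw [F, h5 n hn m hm, Am, Q, sz_eq]
    have : ((bif Nat.beq (n + m) 0 then (p.Er t : ℤ) else 0 : ℤ) : ℝ) =
        if n + m = 0 then (p.Er t : ℝ) else 0 := by
      rcases n + m with _ | s <;> simp [Nat.beq]
    push_cast [this]
    simp only [mul_sum, pow_add]
    congr 1
    · congr 2
      exact sum_congr rfl fun i _ => sum_congr rfl fun j _ => sum_congr rfl fun r _ => by ring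
    · exact sum_congr rfl fun r _ => by ring

theorem alg (hD : DigStmt) (hP : PsdStmt) (hF : FmStmt) (hW : WgStmt) (h : p.ck = true)
    (h0 : 0 < p.Sd ∧ 0 < p.L ∧ 0 < p.N ∧ 0 < p.Tt ∧ 0 < p.Sw ∧ 0 < p.bb ∧ 0 < p.kd)
    {w : ℂ} (hw : ‖w‖ ≤ 1) {τ κ : ℝ} (t0 : 0 < τ) (t1 : τ ≤ 1) (k0 : 0 ≤ κ)
    (hw2 : ‖w‖ ^ 2 ≤ τ ^ (p.k * p.q)) (hJ : 0 < p.J)
    (hk : κ * p.kd ≤ p.kn) :
    (p.a2 : ℝ) * (p.c : ℝ) ^ 2 * ((p.a : ℝ) / p.bb * ∑ t ∈ range p.J, (τ ^ p.k * κ) ^ p.X t *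
      ∑ r ∈ range p.N, ‖∑ m ∈ range p.N, (p.C t r m : ℂ) * (w * p.d) ^ m‖ ^ 2) ≤
    ∑ i ∈ range p.J, ∑ r ∈ range p.N, τ ^ p.X i *
      ∑ j ∈ range p.k, (τ ^ p.q) ^ j * p.T w i r j := by
  obtain ⟨hS, hL, hN, hT, hSw, hb, hkd⟩ := h0
  have hT' : (0 : ℝ) < p.Tt * p.Sw := by positivity
  refine le_of_mul_le_mul_left ?_ hT'
  have e1 : ∀ t, (p.Tt : ℝ) * p.Sw * (p.a2 * (p.c : ℝ) ^ 2 * (p.a / p.bb * κ ^ p.X t)) ≤
      p.u t * (p.Sd : ℝ) ^ 2 := by
    intro t
    have hd : 0 < p.bb * (p.Sd * p.Sd) * p.kd ^ p.X t := by positivity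
    have h1 := (Nat.lt_mul_div_succ (p.Tt * p.a2 * (p.c * p.c) * p.Sw * p.a * p.kn ^ p.X t) hd).le
    rw [← u] at h1
    have h2 : (p.Tt : ℝ) * p.a2 * (p.c * p.c) * p.Sw * p.a * (p.kn : ℝ) ^ p.X t ≤
        p.bb * (p.Sd * p.Sd) * (p.kd : ℝ) ^ p.X t * p.u t := by exact_mod_cast h1
    have h3 : (κ * p.kd) ^ p.X t ≤ (p.kn : ℝ) ^ p.X t := pow_le_pow_left₀ (by positivity) hk _
    refine le_of_mul_le_mul_left ?_ (show (0 : ℝ) < p.bb * (p.kd : ℝ) ^ p.X t by positivity)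
    calc _ = (p.Tt : ℝ) * p.a2 * (p.c * p.c) * p.Sw * p.a * (κ * p.kd) ^ p.X t := by
          rw [mul_pow]; field_simp
      _ ≤ (p.Tt : ℝ) * p.a2 * (p.c * p.c) * p.Sw * p.a * (p.kn : ℝ) ^ p.X t := by gcongr
      _ ≤ _ := by linarith
  have e2 : 0 ≤ ∑ t ∈ range p.J, τ ^ (p.k * p.X t) *
      ((p.Sd : ℝ) ^ 2 * fm p.N (fun n m => (p.F t n m : ℝ)) w) := by
    simp only [ck, ck2, Bool.and_eq_true, al2_iff, okt, Nat.ble_eq, Bool.or_eq_true,
      decide_eq_true_eq] at h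
    obtain ⟨-, ⟨-, h⟩, hX, hC⟩ := h
    have q0 : 0 ≤ fm p.N (fun n m => (p.Q p.J n m : ℝ)) w := by
      simp only [Q, sz_eq, Int.cast_sum, Int.cast_mul, fm_sum, ← hF.1]
      positivity
    have q1 : fm p.N (fun n m => (p.Up n m : ℝ)) w =
        ‖w‖ ^ 2 * fm p.N (fun n m => (p.Q p.J n m : ℝ)) w := by
      simp only [Up, Q, sz_eq, Int.cast_sum, Int.cast_mul, fm_sum, ← hF.1, mul_sum]
      refine sum_congr rfl fun r hr => ?_
      have h1 := hC r (mem_range.1 hr)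
      rw [← mul_pow, ← norm_mul, mul_sum]
      obtain ⟨N, hN'⟩ := Nat.exists_eq_succ_of_ne_zero hN.ne'
      rw [hN'] at h1 ⊢
      rw [sum_range_succ', sum_range_succ]
      simp only [Nat.succ_sub_one] at h1
      simp [C', h1, Nat.beq, pow_succ, mul_comm, mul_assoc]
    have q2 := abel (fun t => τ ^ (p.k * p.X t)) (fun t => fm p.N (fun n m => (p.F t n m : ℝ)) w +
      (if t = 0 then fm p.N (fun n m => (p.Up n m : ℝ)) w else 0) -
      (if t = p.J - 1 then fm p.N (fun n m => (p.Q p.J n m : ℝ)) w else 0)) p.J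
      (fun t ht => pow_le_pow_of_le_one t0.le t1 (Nat.mul_le_mul_left _ (by
        have := (h t (by omega)).2
        omega))) (fun t => (pow_pos t0 _).le) fun t ht => by
        have h1 := hP _ _ (h t ht).1.2 w
        rw [fm_congr (A' := fun n m => ((∑ s ∈ range (t + 1), (p.F s n m : ℝ)) -
          (-1) * p.Up n m) - (if t = p.J - 1 then 1 else 0) * p.Q p.J n m)] at h1
        · simp only [fm_sub, fm_mul, fm_sum] at h1
          simp only [sum_sub_distrib, sum_add_distrib, sum_ite_eq', mem_range]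
          split_ifs at h1 ⊢ <;> first | omega | linarith
        · intro n _ m _
          rw [G, sz_eq]
          by_cases h2 : t = p.J - 1
          · rw [(Nat.beq_eq ..).mpr (show t + 1 = p.J by omega), if_pos h2]
            simp
          · rw [(Bool.eq_false_iff (b := Nat.beq (t + 1) p.J)).2 fun c => h2 (by
              have := Nat.eq_of_beq_eq_true c
              omega), if_neg h2]
            simp
    simp only [mul_sub, mul_add, sum_sub_distrib, sum_add_distrib, mul_ite, mul_zero, sum_ite_eq',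
      mem_range, hJ, if_true, show p.J - 1 < p.J by omega, q1] at q2
    have q3 : τ ^ (p.k * p.X 0) * ‖w‖ ^ 2 ≤ τ ^ (p.k * p.X (p.J - 1)) :=
      (mul_le_mul_of_nonneg_left hw2 (pow_pos t0 _).le).trans (by
        rw [← pow_add, ← mul_add]
        exact pow_le_pow_of_le_one t0.le t1 (Nat.mul_le_mul_left _ hX))
    have q4 := mul_le_mul_of_nonneg_right q3 q0
    simp only [mul_left_comm _ ((p.Sd : ℝ) ^ 2), ← mul_sum]
    exact mul_nonneg (sq_nonneg _) (by linarith)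
  calc _ = ∑ t ∈ range p.J, τ ^ (p.k * p.X t) * ((p.Tt : ℝ) * p.Sw * (p.a2 * (p.c : ℝ) ^ 2 *
          (p.a / p.bb * κ ^ p.X t)) * ∑ r ∈ range p.N,
            ‖∑ m ∈ range p.N, (p.C t r m : ℂ) * (w * p.d) ^ m‖ ^ 2) := by
        rw [mul_sum, mul_sum, mul_sum]
        exact sum_congr rfl fun t _ => by rw [mul_pow, pow_mul]; ring
    _ ≤ ∑ t ∈ range p.J, τ ^ (p.k * p.X t) * (p.Tt * ∑ i ∈ range p.J, ∑ j ∈ range p.k,
          p.w i j t * ∑ r ∈ range p.N, p.T w i r j) := by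
        refine (le_add_of_nonneg_right e2).trans ?_
        rw [← sum_add_distrib]
        refine sum_le_sum fun t ht => ?_
        rw [← mul_add]
        exact mul_le_mul_of_nonneg_left ((add_le_add_left (mul_le_mul_of_nonneg_right (e1 t)
          (sum_nonneg fun _ _ => sq_nonneg _)) _).trans (node hD hF h hS hL hN hw (mem_range.1 ht)))
          (pow_pos t0 _).le
    _ = p.Tt * ∑ i ∈ range p.J, ∑ j ∈ range p.k, (∑ t ∈ range p.J,
          p.w i j t * τ ^ (p.k * p.X t)) * ∑ r ∈ range p.N, p.T w i r j := by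
        simp only [sum_mul]
        rw [sum_congr rfl fun i _ => sum_comm, sum_comm, mul_sum]
        refine sum_congr rfl fun t _ => ?_
        rw [mul_left_comm, mul_sum]
        congr 1
        refine sum_congr rfl fun i _ => ?_
        rw [mul_sum]
        exact sum_congr rfl fun j _ => by ring
    _ ≤ p.Tt * ∑ i ∈ range p.J, ∑ j ∈ range p.k, (p.Sw * τ ^ p.ps' i j) *
          ∑ r ∈ range p.N, p.T w i r j :=
        mul_le_mul_of_nonneg_left (sum_le_sum fun i _ => sum_le_sum fun j _ =>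
          mul_le_mul_of_nonneg_right (hW _ _ _ _ _ _ _ _ _ t0 t1)
            (sum_nonneg fun _ _ => hF.2.1 _ _ _ _)) (Nat.cast_nonneg _)
    _ = _ := by
        rw [mul_assoc, mul_sum (a := (p.Sw : ℝ))]
        congr 1
        refine sum_congr rfl fun i _ => ?_
        simp only [mul_sum, ps', pow_add, pow_mul]
        rw [sum_comm]
        exact sum_congr rfl fun r _ => sum_congr rfl fun j _ => by ring

end Par

end Pool.Agent.MP_757d88_an
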