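import Mathlib

/-! Comparing two sums of powers on the unit interval by convexity. -/

set_option autoImplicit false

namespace Pool.Agent.MP_757d88_an

/-- value of a list of (exponent, weight) pairs -/
noncomputable def val (t : ℝ) : List (ℕ × ℕ) → ℝ
  | [] => 0
  | x :: l => x.2 * t ^ x.1 + val t l

/-- weights floor (a y ^ 2 / D) at the exponents p, p + q, ... -/
def wl (q L2 a : ℕ) : ℕ → ℕ → List ℤ → List (ℕ × ℕ)
  | _, _, [] => []
  | p, D, y :: l => (p, a * (y.natAbs * y.natAbs) / D) :: wl q L2 a (p + q) (D * L2) l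

/-- total weight and first moment of the first pairs with exponent below hi, and the rest -/
def sp (hi : ℕ) : List (ℕ × ℕ) → ℕ × ℕ × List (ℕ × ℕ)
  | [] => (0, 0, [])
  | x :: l =>
    bif Nat.blt x.1 hi then
      match sp hi l with
      | (a, b, r) => (x.2 + a, x.2 * x.1 + b, r)
    else (0, 0, x :: l)

def spp (hi : ℕ) : List (List (ℕ × ℕ)) → ℕ × ℕ × List (List (ℕ × ℕ))
  | [] => (0, 0, [])
  | l :: L =>
    match sp hi l, spp hi L with
    | (a, b, r), (a', b', R) => (a + a', b + b', r :: R)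

theorem val_nonneg {t : ℝ} (ht : 0 ≤ t) (l : List (ℕ × ℕ)) : 0 ≤ val t l := by
  induction l with
  | nil => exact le_rfl
  | cons x l ih => rw [val]; positivity

theorem val_wl {t : ℝ} (ht : 0 ≤ t) (q L2 a : ℕ) (l : List ℤ) (p D : ℕ) :
    val t (wl q L2 a p D l) ≤ a * t ^ p * ∑ m ∈ Finset.range l.length,
      ((l.getD m 0 : ℤ) : ℝ) ^ 2 / (D * (L2 : ℝ) ^ m) * (t ^ q) ^ m := by
  induction l generalizing p D with
  | nil => simp [wl, val]
  | cons y l ih =>
    rw [wl, val, List.length_cons, Finset.sum_range_succ', mul_add, add_comm]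
    refine add_le_add ((ih _ _).trans (le_of_eq ?_)) ?_
    · rw [Finset.mul_sum, Finset.mul_sum]
      refine Finset.sum_congr rfl fun m _ => ?_
      simp only [List.getD_cons_succ]
      push_cast
      ring
    · have h : ((a * (y.natAbs * y.natAbs) / D : ℕ) : ℝ) ≤ a * ((y : ℝ) ^ 2 / D) := by
        refine Nat.cast_div_le.trans (le_of_eq ?_)
        rw [Nat.cast_mul, Nat.cast_mul, Nat.cast_natAbs, Int.cast_abs, abs_mul_abs_self]
        ring
      simp only [List.getD_cons_zero, pow_zero, mul_one]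
      calc _ ≤ a * ((y : ℝ) ^ 2 / D) * t ^ p := mul_le_mul_of_nonneg_right h (pow_nonneg ht _)
        _ = _ := by ring

theorem tangent {t : ℝ} (ht : 0 < t) (X p : ℕ) :
    t ^ X * (1 + Real.log t * ((p : ℝ) - X)) ≤ t ^ p := by
  have e : t ^ p = t ^ X * Real.exp (Real.log t * ((p : ℝ) - X)) := by
    rw [← Real.rpow_def_of_pos ht, ← Real.rpow_natCast, ← Real.rpow_natCast, ← Real.rpow_add ht]
    congr 1
    ring
  rw [e, add_comm]
  exact mul_le_mul_of_nonneg_left (Real.add_one_le_exp _) (pow_pos ht _).le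

theorem val_sp {t : ℝ} (ht : 0 < t) (X hi : ℕ) (l : List (ℕ × ℕ)) :
    t ^ X * ((sp hi l).1 + Real.log t * (((sp hi l).2.1 : ℝ) - X * (sp hi l).1)) +
      val t (sp hi l).2.2 ≤ val t l := by
  induction l with
  | nil => simp [sp, val]
  | cons x l ih =>
    rw [sp]
    cases Nat.blt x.1 hi
    · simp
    · rcases h : sp hi l with ⟨a, b, r⟩
      rw [h] at ih
      have := mul_le_mul_of_nonneg_left (tangent ht X x.1) (Nat.cast_nonneg (α := ℝ) x.2)
      simp only [cond_true, val] at ih ⊢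
      push_cast
      linarith

theorem val_spp {t : ℝ} (ht : 0 < t) (X hi : ℕ) (L : List (List (ℕ × ℕ))) :
    t ^ X * ((spp hi L).1 + Real.log t * (((spp hi L).2.1 : ℝ) - X * (spp hi L).1)) +
      ((spp hi L).2.2.map (val t)).sum ≤ (L.map (val t)).sum := by
  induction L with
  | nil => simp [spp]
  | cons l L ih =>
    have h1 := val_sp ht X hi l
    rw [spp]
    rcases h : sp hi l with ⟨a, b, r⟩
    rcases h' : spp hi L with ⟨a', b', R⟩
    rw [h] at h1
    rw [h'] at ih
    simp only [List.map_cons, List.sum_cons] at h1 ih ⊢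
    push_cast
    linarith

/-- the entries are exponent, weight and upper end of the bin -/
def binCk (k a b kn kd : ℕ) :
    List (ℕ × ℕ × ℕ × List ℤ) → List (List (ℕ × ℕ)) → Bool
  | [], _ => true
  | g :: G, l =>
    match spp g.2.2.1 l with
    | (s, m, r) => Nat.ble m (k * g.1 * s) && Nat.ble (a * g.2.1 * kn ^ g.1) (s * (b * kd ^ g.1)) &&
      binCk k a b kn kd G r

theorem bin_le {t c : ℝ} (ht : 0 < t) (ht1 : t ≤ 1) {k a b kn kd : ℕ} (hc : 0 ≤ c)
    (hk : c * kd ≤ kn) (hd : 0 < kd) (G : List (ℕ × ℕ × ℕ × List ℤ)) (l : List (List (ℕ × ℕ)))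
    (h : binCk k a b kn kd G l = true) :
    a * (G.map fun g => (g.2.1 : ℝ) * (t ^ k * c) ^ g.1).sum ≤ b * (l.map (val t)).sum := by
  induction G generalizing l with
  | nil =>
    simpa using mul_nonneg (Nat.cast_nonneg _) (List.sum_nonneg fun x hx => by
      obtain ⟨y, -, rfl⟩ := List.mem_map.1 hx
      exact val_nonneg ht.le y)
  | cons g G ih =>
    rw [binCk] at h
    have h1 := val_spp ht (k * g.1) g.2.2.1 l
    rcases e : spp g.2.2.1 l with ⟨s, m, r⟩
    rw [e] at h h1
    simp only [Bool.and_eq_true, Nat.ble_eq] at h h1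
    obtain ⟨⟨c1, c2⟩, c3⟩ := h
    have h2 := ih r c3
    have c1' : (m : ℝ) - (k * g.1 : ℕ) * s ≤ 0 := sub_nonpos.2 (by exact_mod_cast c1)
    have h3 : t ^ (k * g.1) * s + (r.map (val t)).sum ≤ (l.map (val t)).sum := by
      have := mul_nonneg_of_nonpos_of_nonpos (Real.log_nonpos ht.le ht1) c1'
      have := mul_nonneg (pow_pos ht (k * g.1)).le this
      linarith
    have h4 : (a : ℝ) * g.2.1 * c ^ g.1 ≤ s * b := by
      have c2' : (a : ℝ) * g.2.1 * kn ^ g.1 ≤ s * (b * kd ^ g.1) := by exact_mod_cast c2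
      have h5 : (c * kd) ^ g.1 ≤ (kn : ℝ) ^ g.1 := pow_le_pow_left₀ (by positivity) hk _
      refine le_of_mul_le_mul_right ?_ (show (0 : ℝ) < kd ^ g.1 by positivity)
      calc _ = a * g.2.1 * (c * kd) ^ g.1 := by rw [mul_pow]; ring
        _ ≤ a * g.2.1 * (kn : ℝ) ^ g.1 := by gcongr
        _ ≤ _ := by linarith
    have h6 := mul_le_mul_of_nonneg_left h4 (pow_pos ht (k * g.1)).le
    have h7 := mul_le_mul_of_nonneg_left h3 (Nat.cast_nonneg (α := ℝ) b)
    rw [List.map_cons, List.sum_cons, mul_pow, ← pow_mul]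
    linarith

end Pool.Agent.MP_757d88_an
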