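import Pool.Agent.MP_757d88_an.Defs

/-! The geometry of the block. -/

set_option autoImplicit false

noncomputable section

namespace Pool.Agent.MP_757d88_an

open Complex Metric Set

namespace Blk

theorem exlog {f : ℂ → ℂ} (hf : DifferentiableOn ℂ f (ball 0 1))
    (h0 : ∀ z ∈ ball (0 : ℂ) 1, f z ≠ 0) {c : ℂ} (hc : exp c = f 0) :
    ∃ l : ℂ → ℂ, l 0 = c ∧ ∀ z ∈ ball (0 : ℂ) 1,
      HasDerivAt l (deriv f z / f z) z ∧ exp (l z) = f z := by
  obtain ⟨l, l0, hl⟩ := ((hf.deriv isOpen_ball).div hf h0).isExactOn_ball.with_val_at 0 c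
  have hd : ∀ z ∈ ball (0 : ℂ) 1, HasDerivAt (fun z => exp (l z) / f z) 0 z := fun z hz => by
    refine ((hl z hz).cexp.fun_div (hf.differentiableAt (isOpen_ball.mem_nhds hz)).hasDerivAt
      (h0 z hz)).congr_deriv ?_
    have := h0 z hz
    simp only [Pi.div_apply]
    field_simp
    ring
  refine ⟨l, l0, fun z hz => ⟨hl z hz, ?_⟩⟩
  have h1 : (0 : ℂ) ∈ ball (0 : ℂ) 1 := mem_ball_self one_pos
  have := isOpen_ball.is_const_of_deriv_eq_zero (convex_ball (0 : ℂ) 1).isPreconnected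
    (fun z hz => (hd z hz).differentiableAt.differentiableWithinAt)
    (fun z hz => (hd z hz).deriv) hz h1
  simp only [l0, hc, div_self (h0 0 h1)] at this
  exact (div_eq_one_iff_eq (h0 z hz)).1 this

theorem tree0 (b : ℝ) : Tree (fun z => 1 + 2 * b * z + z ^ 2) (1 - b) (1 + b) where
  diff := by fun_prop
  zero := by simp
  omit' z hz t h1 h2 h := by
    have hn : z.re ^ 2 + z.im ^ 2 < 1 := by
      have := mem_ball_zero_iff.1 hz
      have h3 : ‖z‖ ^ 2 < 1 := pow_lt_one₀ (norm_nonneg _) this two_ne_zero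
      rw [Complex.sq_norm, normSq_apply] at h3
      linarith
    have e1 := congrArg re h
    have e2 := congrArg im h
    simp [sq] at e1 e2
    have e3 : z.im * (z.re - (t - b)) = 0 := by linarith
    rcases mul_eq_zero.1 e3 with e | e
    · rw [e] at e1 hn
      have hc : (t - b) ^ 2 ≤ 1 := by nlinarith
      have e4 : (z.re - (t - b)) ^ 2 + (1 - (t - b) ^ 2) = 0 := by linarith
      have e5 : z.re = t - b := by nlinarith [sq_nonneg (z.re - (t - b))]
      nlinarith
    · have e5 : t = z.re + b := by linarith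
      rw [e5] at e1
      nlinarith
  inj z hz w hw h := by
    have h1 : ‖z * w‖ < 1 := by
      rw [norm_mul]
      exact mul_lt_one_of_nonneg_of_lt_one_left (norm_nonneg _) (mem_ball_zero_iff.1 hz)
        (mem_ball_zero_iff.1 hw).le
    have h2 : (z - w) * (1 - z * w) = 0 := by linear_combination -h
    rcases mul_eq_zero.1 h2 with e | e
    · exact sub_eq_zero.1 e
    · rw [← sub_eq_zero.1 e] at h1
      simp at h1
  bd := ⟨1 + 2 * |b| + 1, fun z hz => by
    have h := (mem_ball_zero_iff.1 hz).le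
    refine norm_add₃_le.trans (add_le_add (add_le_add norm_one.le ?_) ?_)
    · rw [norm_mul, norm_mul, norm_real, Real.norm_eq_abs, Complex.norm_two]
      exact mul_le_of_le_one_right (by positivity) h
    · rw [norm_pow]
      exact pow_le_one₀ (norm_nonneg _) h⟩
  ne z hz h := by
    have d : HasDerivAt (fun z : ℂ => 1 + 2 * b * z + z ^ 2) (2 * b * 1 + (2 : ℕ) * z ^ (2 - 1)) z :=
      (((hasDerivAt_id' z).const_mul _).const_add 1).fun_add (hasDerivAt_pow 2 z)
    rw [d.deriv] at h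
    have h2 : z ^ 2 = 1 := by
      simp only [Nat.cast_ofNat, Nat.add_one_sub_one, pow_one] at h
      linear_combination -h
    have h3 : ‖z‖ ^ 2 < 1 := pow_lt_one₀ (norm_nonneg _) (mem_ball_zero_iff.1 hz) two_ne_zero
    rw [← norm_pow, h2] at h3
    simp at h3

/-- the principal root -/
structure Root (N r : ℂ → ℂ) (h : ℝ) : Prop where
  ne : ∀ z ∈ ball (0 : ℂ) 1, N z ≠ 0
  pos : ∀ z ∈ ball (0 : ℂ) 1, 0 < (r z).re
  diff : DifferentiableOn ℂ (fun z => N z * r z) (ball 0 1)
  zero : N 0 * r 0 = 1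
  sq : ∀ z ∈ ball (0 : ℂ) 1, (N z * r z) ^ 2 = N z ^ 2 - (2 * h * z) ^ 2
  bd : ∃ C : ℝ, ∀ z ∈ ball (0 : ℂ) 1, ‖N z * r z‖ ≤ C
  der : ∀ z ∈ ball (0 : ℂ) 1, N z * r z * (N z * r z - z * deriv (fun z => N z * r z) z) =
    N z * (N z - z * deriv N z)

theorem root {N : ℂ → ℂ} {al be h : ℝ} (hN : Tree N al be) (h0 : 0 ≤ h) (h1 : h ≤ al)
    (h2 : h ≤ be) : ∃ r, Root N r h := by
  have ne : ∀ z ∈ ball (0 : ℂ) 1, N z ≠ 0 := fun z hz => by
    simpa using hN.omit' z hz 0 (by linarith) (by linarith)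
  have sl : ∀ z ∈ ball (0 : ℂ) 1, 1 - (2 * h * z / N z) ^ 2 ∈ slitPlane := fun z hz => by
    by_contra hc
    obtain ⟨u, hu⟩ : ∃ u, u = 2 * h * z / N z := ⟨_, rfl⟩
    rw [← hu, mem_slitPlane_iff, not_or, not_lt, not_not] at hc
    obtain ⟨c1, c2⟩ := hc
    simp [_root_.sq] at c1 c2
    have c3 : u.re * u.im = 0 := by linarith
    have c4 : 1 ≤ u.re ^ 2 := by nlinarith [mul_self_nonneg u.im]
    have c5 : u.re ≠ 0 := fun e => by rw [e] at c4; norm_num at c4
    have c6 : u = (u.re : ℂ) := Complex.ext rfl (by simpa using (mul_eq_zero.1 c3).resolve_left c5)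
    have c7 : |h / u.re| ≤ h := by
      rw [abs_div, abs_of_nonneg h0]
      exact div_le_self h0 ((one_le_sq_iff_one_le_abs _).1 c4)
    refine hN.omit' z hz (h / u.re) (by linarith [(abs_le.1 c7).1]) (by linarith [(abs_le.1 c7).2]) ?_
    have c8 : (u.re : ℂ) ≠ 0 := ofReal_ne_zero.2 c5
    rw [c6, eq_div_iff (ne z hz)] at hu
    push_cast
    field_simp
    linear_combination hu
  have df : DifferentiableOn ℂ (fun z => N z * sqrt (1 - (2 * h * z / N z) ^ 2)) (ball 0 1) :=
    hN.diff.mul (differentiableOn_sqrt.comp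
      (((DifferentiableOn.fun_div (by fun_prop) hN.diff ne).pow 2).const_sub 1) sl)
  have sq : ∀ z ∈ ball (0 : ℂ) 1, (N z * sqrt (1 - (2 * h * z / N z) ^ 2)) ^ 2 =
      N z ^ 2 - (2 * h * z) ^ 2 := fun z hz => by
    have := ne z hz
    rw [mul_pow, Complex.sqrt, cpow_ofNat_inv_pow]
    field_simp
  refine ⟨fun z => sqrt (1 - (2 * h * z / N z) ^ 2), ne, fun z hz => ?_, df, by simp [hN.zero], sq,
    ?_, fun z hz => ?_⟩
  · rw [Complex.sqrt, cpow_inv_two_re, Real.sqrt_pos]
    rcases mem_slitPlane_iff.1 (sl z hz) with e | e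
    · positivity
    · linarith [(abs_lt.1 (abs_re_lt_norm.2 e)).1]
  · obtain ⟨C, hC⟩ := hN.bd
    refine ⟨C + 2 * h, fun z hz => ?_⟩
    have c1 := hC z hz
    have c0 := norm_nonneg (N z)
    have c2 : ‖2 * h * z‖ ≤ 2 * h := by
      rw [norm_mul, norm_mul, norm_real, Real.norm_of_nonneg h0, Complex.norm_two]
      exact mul_le_of_le_one_right (by positivity) (mem_ball_zero_iff.1 hz).le
    refine (abs_le_of_sq_le_sq' ?_ (by linarith)).2
    rw [← norm_pow, sq z hz]
    refine (norm_sub_le _ _).trans ?_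
    rw [norm_pow, norm_pow]
    nlinarith [norm_nonneg (2 * h * z)]
  · have m := isOpen_ball.mem_nhds hz
    have d1 := (df.differentiableAt m).hasDerivAt.fun_pow 2
    have d2 := ((hN.diff.differentiableAt m).hasDerivAt.fun_pow 2).fun_sub
      (((hasDerivAt_id' z).const_mul (2 * h : ℂ)).fun_pow 2)
    have e := d1.unique (d2.congr_of_eventuallyEq (Filter.mem_of_superset m sq))
    simp only [Nat.cast_ofNat, Nat.add_one_sub_one, pow_one] at e
    linear_combination sq z hz - z / 2 * e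

theorem step {N r : ℂ → ℂ} {al be h x al' be' : ℝ} (hN : Tree N al be) (hr : Root N r h)
    (a0 : 0 ≤ al) (b0 : 0 ≤ be) (h1 : (al' + x) ^ 2 + h ^ 2 ≤ al ^ 2)
    (h2 : (be' - x) ^ 2 + h ^ 2 ≤ be ^ 2) : Tree (fun z => 2 * x * z + N z * r z) al' be' where
  diff := DifferentiableOn.fun_add (by fun_prop) hr.diff
  zero := by simp [hr.zero]
  omit' z hz t t1 t2 e := by
    have key : ∀ σ : ℝ, σ ^ 2 = h ^ 2 + (t - x) ^ 2 → N z ≠ 2 * σ * z := fun σ hs e2 => by
      have n0 := hr.ne z hz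
      have z0 : z ≠ 0 := fun e3 => n0 (by rw [e2, e3, mul_zero])
      have s0 : σ ≠ 0 := fun e3 => n0 (by rw [e2, e3]; simp)
      have e3 : σ * r z = (t - x : ℝ) := by
        apply mul_left_cancel₀ (mul_ne_zero two_ne_zero z0)
        push_cast
        linear_combination e - r z * e2
      have e4 : σ * (r z).re = t - x := by simpa using congrArg re e3
      have p := hr.pos z hz
      rcases lt_or_gt_of_ne s0 with s1 | s1
      · have : t - x < 0 := e4 ▸ mul_neg_of_neg_of_pos s1 p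
        exact hN.omit' z hz σ (abs_le_of_sq_le_sq' (by nlinarith) a0).1 (by linarith) e2
      · have : 0 < t - x := e4 ▸ mul_pos s1 p
        exact hN.omit' z hz σ (by linarith) (abs_le_of_sq_le_sq' (by nlinarith) b0).2 e2
    have s2 : √(h ^ 2 + (t - x) ^ 2) ^ 2 = h ^ 2 + (t - x) ^ 2 := Real.sq_sqrt (by positivity)
    have s3 : ((√(h ^ 2 + (t - x) ^ 2) : ℝ) : ℂ) ^ 2 = h ^ 2 + (t - x) ^ 2 := by exact_mod_cast s2
    have s4 : N z ^ 2 = (2 * (√(h ^ 2 + (t - x) ^ 2) : ℝ) * z) ^ 2 := by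
      have e1 : N z * r z = 2 * (t - x) * z := by linear_combination e
      have e2 := hr.sq z hz
      rw [e1] at e2
      linear_combination -e2 - 4 * z ^ 2 * s3
    rcases sq_eq_sq_iff_eq_or_eq_neg.1 s4 with e1 | e1
    · exact key _ s2 e1
    · exact key (-√(h ^ 2 + (t - x) ^ 2)) (by rw [neg_sq, s2]) (by rw [e1]; push_cast; ring)
  inj z hz w hw e := by
    have e1 : N z * r z * w = N w * r w * z := by linear_combination e
    have e2 : (N z * w) ^ 2 = (N w * z) ^ 2 := by
      linear_combination (N z * r z * w + N w * r w * z) * e1 - w ^ 2 * hr.sq z hz +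
        z ^ 2 * hr.sq w hw
    rcases sq_eq_sq_iff_eq_or_eq_neg.1 e2 with e3 | e3
    · exact hN.inj z hz w hw e3
    · have e4 : N z * w * (r z + r w) = 0 := by linear_combination e1 + r w * e3
      have e5 : r z + r w ≠ 0 := fun e5 => by
        have := congrArg re e5
        rw [add_re, zero_re] at this
        linarith [hr.pos z hz, hr.pos w hw]
      have e6 := (mul_eq_zero.1 e4).resolve_right e5
      exact hN.inj z hz w hw (by linear_combination 2 * e6 - e3)
  bd := by
    obtain ⟨C, hC⟩ := hr.bd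
    refine ⟨2 * |x| + C, fun z hz => (norm_add_le _ _).trans (add_le_add ?_ (hC z hz))⟩
    rw [norm_mul, norm_mul, norm_real, Real.norm_eq_abs, Complex.norm_two]
    exact mul_le_of_le_one_right (by positivity) (mem_ball_zero_iff.1 hz).le
  ne z hz e := by
    have d := ((hasDerivAt_id' z).const_mul (2 * x : ℂ)).fun_add
      (hr.diff.differentiableAt (isOpen_ball.mem_nhds hz)).hasDerivAt
    rw [d.deriv] at e
    refine mul_ne_zero (hr.ne z hz) (hN.ne z hz) ?_
    linear_combination N z * r z * e - hr.der z hz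

theorem last {N r : ℂ → ℂ} {al be e : ℝ} (hN : Tree N al be) (hr : Root N r e) (he : 0 < e) :
    ∃ (l m : ℂ → ℂ) (E : ℝ), Good l E ∧ l 0 = (Real.log e : ℝ) ∧
      (∀ z ∈ ball (0 : ℂ) 1, DL l z * (N z * r z) = N z - z * deriv N z) ∧
      DifferentiableOn ℂ m (ball 0 1) ∧ m 0 = 0 ∧ ∀ z ∈ ball (0 : ℂ) 1, exp (m z) = DL l z := by
  have r1 : ∀ z ∈ ball (0 : ℂ) 1, 1 + r z ≠ 0 := fun z hz e5 => by
    have := congrArg re e5
    rw [add_re, zero_re, one_re] at this
    linarith [hr.pos z hz]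
  have M0 : ∀ z ∈ ball (0 : ℂ) 1, N z + N z * r z ≠ 0 := fun z hz => by
    rw [← mul_one_add]
    exact mul_ne_zero (hr.ne z hz) (r1 z hz)
  have e0 : (e : ℂ) ≠ 0 := ofReal_ne_zero.2 he.ne'
  have e2 : (2 * e : ℂ) ≠ 0 := mul_ne_zero two_ne_zero e0
  have dM : DifferentiableOn ℂ (fun z => N z + N z * r z) (ball 0 1) := hN.diff.fun_add hr.diff
  obtain ⟨l, l0, hl⟩ := exlog (f := fun z => 2 * e / (N z + N z * r z)) (c := (Real.log e : ℝ))
    (DifferentiableOn.fun_div (by fun_prop) dM M0) (fun z hz => div_ne_zero e2 (M0 z hz)) (by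
      rw [← ofReal_exp, Real.exp_log he, hr.zero, hN.zero]
      ring)
  have dl : DifferentiableOn ℂ l (ball 0 1) := fun z hz =>
    (hl z hz).1.differentiableAt.differentiableWithinAt
  have hD : ∀ z ∈ ball (0 : ℂ) 1, DL l z * (N z * r z) = N z - z * deriv N z := fun z hz => by
    have m := isOpen_ball.mem_nhds hz
    have m0 := M0 z hz
    have d := (hasDerivAt_const z (2 * e : ℂ)).fun_div ((hN.diff.differentiableAt m).hasDerivAt.fun_add
      (hr.diff.differentiableAt m).hasDerivAt) m0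
    rw [DL, (hl z hz).1.deriv, d.deriv]
    have h1 := hr.der z hz
    generalize deriv (fun z => N z * r z) z = R' at h1 ⊢
    generalize N z * r z = R at h1 m0 ⊢
    field_simp
    linear_combination (2 * e) * h1
  have D0 : ∀ z ∈ ball (0 : ℂ) 1, DL l z ≠ 0 := fun z hz h =>
    hN.ne z hz (by rw [← hD z hz, h, zero_mul])
  obtain ⟨m, m0, hm⟩ := exlog (f := DL l) (c := 0)
    ((differentiableOn_id.fun_mul (dl.deriv isOpen_ball)).const_add 1) D0 (by simp [DL])
  obtain ⟨C, hC⟩ := hN.bd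
  obtain ⟨C', hC'⟩ := hr.bd
  refine ⟨l, m, (C + C') / (2 * e), ⟨dl, fun z hz w hw h => ?_, fun z hz => ?_, fun z hz => ?_⟩, l0,
    hD, fun z hz => (hm z hz).1.differentiableAt.differentiableWithinAt, m0, fun z hz => (hm z hz).2⟩
  · simp only [(hl z hz).2, (hl w hw).2] at h
    have mz := M0 z hz
    have mw := M0 w hw
    have sz := hr.sq z hz
    have sw := hr.sq w hw
    generalize N z * r z = A at h mz sz
    generalize N w * r w = B at h mw sw
    have h1 : z * (N w + B) = w * (N z + A) := by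
      field_simp at h
      linear_combination h
    refine hN.inj z hz w hw (mul_left_cancel₀ (mul_ne_zero two_ne_zero (mul_ne_zero mz mw)) ?_)
    linear_combination (4 * e ^ 2 * z * w - (N z + A) * (N w + B)) * h1 - w * (N w + B) * sz +
      z * (N z + A) * sw
  · have h1 : (z * exp (l z)) ^ 2 * (1 + r z) = 1 - r z := by
      have n0 := hr.ne z hz
      have n1 := r1 z hz
      have sz := hr.sq z hz
      rw [(hl z hz).2, ← mul_one_add]
      field_simp
      linear_combination sz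
    have h2 : ‖1 - r z‖ < ‖1 + r z‖ := by
      refine lt_of_pow_lt_pow_left₀ 2 (norm_nonneg _) ?_
      simp only [Complex.sq_norm, normSq_apply, sub_re, sub_im, add_re, add_im, one_re, one_im]
      nlinarith [hr.pos z hz]
    rw [← h1, norm_mul, norm_pow, mul_lt_iff_lt_one_left (norm_pos_iff.2 (r1 z hz))] at h2
    exact (sq_lt_one_iff₀ (norm_nonneg _)).1 h2
  · rw [Complex.exp_neg, (hl z hz).2, inv_div, norm_div, norm_mul, norm_real, Complex.norm_two,
      Real.norm_of_nonneg he.le]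
    exact div_le_div_of_nonneg_right
      ((norm_add_le _ _).trans (add_le_add (hC z hz) (hC' z hz))) (by positivity)

end Blk

theorem blk : BlkStmt := by
  refine ⟨Blk.tree0, fun N al be h x al' be' hN h0 h1 h2 h3 h4 => ?_,
    fun N al be e hN h0 h1 h2 => ?_⟩
  · obtain ⟨r, hr⟩ := Blk.root hN h0 h1 h2
    exact ⟨_, hr.diff, hr.zero, hr.sq, Blk.step hN hr (h0.trans h1) (h0.trans h2) h3 h4⟩
  · obtain ⟨r, hr⟩ := Blk.root hN h0.le h1 h2
    obtain ⟨l, m, E, h⟩ := Blk.last hN hr h0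
    exact ⟨_, l, m, E, hr.diff, hr.zero, hr.sq, h⟩

end Pool.Agent.MP_757d88_an
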