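import Mathlib

/-! Truncated identities between integer power series, checked by evaluation at a large base. -/

set_option autoImplicit false

namespace Pool.Agent.MP_757d88_an

open Polynomial

/-- a list as a polynomial -/
noncomputable def tp : List ℤ → ℤ[X]
  | [] => 0
  | a :: l => C a + X * tp l

def hn (B : ℤ) : List ℤ → ℤ
  | [] => 0
  | a :: l => a + B * hn B l

def pr (B : ℤ) : List ℤ → List ℤ
  | a :: b :: l => (a + B * b) :: pr B l
  | [a] => [a]
  | [] => []

def pk : ℕ → ℤ → List ℤ → ℤ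
  | 0, B, l => hn B l
  | n + 1, B, l => pk n (B * B) (pr B l)

def wt : ℕ → List ℤ → List ℤ
  | _, [] => []
  | j, a :: l => (Int.ofNat j * a) :: wt (j + 1) l

def okL (M : ℕ) : List ℤ → Bool
  | [] => true
  | a :: l => Nat.ble a.natAbs M && okL M l

theorem coeff_tp (l : List ℤ) (j : ℕ) : (tp l).coeff j = l.getD j 0 := by
  induction l generalizing j with
  | nil => simp [tp]
  | cons a l ih => rcases j with _ | j <;> simp [tp, ih, coeff_C, -eq_intCast]

theorem eval_tp (B : ℤ) (l : List ℤ) : (tp l).eval B = hn B l := by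
  induction l with
  | nil => simp [tp, hn]
  | cons a l ih => simp [tp, hn, ih]

theorem hn_pr (B : ℤ) : ∀ l : List ℤ, hn (B * B) (pr B l) = hn B l
  | [] => rfl
  | [a] => by simp [pr, hn]
  | a :: b :: l => by
    simp only [pr, hn, hn_pr B l]
    ring

theorem pk_eq (n : ℕ) (B : ℤ) (l : List ℤ) : pk n B l = hn B l := by
  induction n generalizing B l with
  | zero => rfl
  | succ n ih => rw [pk, ih, hn_pr]

theorem getD_wt (l : List ℤ) (j m : ℕ) : (wt j l).getD m 0 = ((j + m : ℕ) : ℤ) * l.getD m 0 := by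
  induction l generalizing j m with
  | nil => simp [wt]
  | cons a l ih =>
    rcases m with _ | m
    · simp [wt]
    · simp only [wt, List.getD_cons_succ, ih]
      congr 2
      omega

theorem okL_le {M : ℕ} {l : List ℤ} (h : okL M l = true) (j : ℕ) : |l.getD j 0| ≤ M := by
  induction l generalizing j with
  | nil => simp
  | cons a l ih =>
    simp only [okL, Bool.and_eq_true, Nat.ble_eq] at h
    rcases j with _ | j
    · simp only [List.getD_cons_zero]
      rw [Int.abs_eq_natAbs]
      exact_mod_cast h.1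
    · simpa using ih h.2 j

/-- the value of g at B is x and its first K coefficients are bounded by M -/
def PP (B K : ℕ) (g : ℤ[X]) (x : ℤ) (M : ℕ) : Prop :=
  g.eval (B : ℤ) = x ∧ ∀ j < K, |g.coeff j| ≤ M

variable {B K : ℕ} {g g' : ℤ[X]} {x x' : ℤ} {M M' : ℕ}

theorem PP.list (n : ℕ) {l : List ℤ} (h : okL M l = true) : PP B K (tp l) (pk n B l) M :=
  ⟨by rw [pk_eq, eval_tp], fun j _ => by rw [coeff_tp]; exact okL_le h j⟩

theorem PP.wt (n : ℕ) {l : List ℤ} (h : okL M l = true) :
    PP B K (tp (wt 0 l)) (pk n B (wt 0 l)) (K * M) :=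
  ⟨by rw [pk_eq, eval_tp], fun j hj => by
    rw [coeff_tp, getD_wt, abs_mul, zero_add, Nat.abs_cast, Nat.cast_mul]
    exact mul_le_mul (by exact_mod_cast hj.le) (okL_le h j) (abs_nonneg _) (by positivity)⟩

theorem PP.add (h : PP B K g x M) (h' : PP B K g' x' M') : PP B K (g + g') (x + x') (M + M') :=
  ⟨by rw [eval_add, h.1, h'.1], fun j hj => by
    rw [coeff_add, Nat.cast_add]
    exact (abs_add_le _ _).trans (add_le_add (h.2 j hj) (h'.2 j hj))⟩

theorem PP.sub (h : PP B K g x M) (h' : PP B K g' x' M') : PP B K (g - g') (x - x') (M + M') :=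
  ⟨by rw [eval_sub, h.1, h'.1], fun j hj => by
    rw [coeff_sub, Nat.cast_add]
    exact (abs_sub _ _).trans (add_le_add (h.2 j hj) (h'.2 j hj))⟩

theorem PP.smul (c : ℤ) (h : PP B K g x M) : PP B K (C c * g) (c * x) (c.natAbs * M) :=
  ⟨by rw [eval_mul, eval_C, h.1], fun j hj => by
    rw [coeff_C_mul, abs_mul, Nat.cast_mul, Int.natCast_natAbs]
    exact mul_le_mul_of_nonneg_left (h.2 j hj) (abs_nonneg _)⟩

theorem PP.mon (c : ℤ) (j : ℕ) : PP B K (C c * X ^ j) (c * (B : ℤ) ^ j) c.natAbs :=
  ⟨by simp, fun i _ => by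
    rw [coeff_C_mul_X_pow, Int.natCast_natAbs]
    split_ifs <;> simp⟩

theorem PP.mul (h : PP B K g x M) (h' : PP B K g' x' M') :
    PP B K (g * g') (x * x') (K * (M * M')) :=
  ⟨by rw [eval_mul, h.1, h'.1], fun j hj => by
    rw [coeff_mul]
    refine (Finset.abs_sum_le_sum_abs _ _).trans ?_
    refine (Finset.sum_le_card_nsmul _ _ ((M : ℤ) * M') fun p hp => ?_).trans ?_
    · have := Finset.HasAntidiagonal.mem_antidiagonal.1 hp
      rw [abs_mul]
      exact mul_le_mul (h.2 _ (by omega)) (h'.2 _ (by omega)) (abs_nonneg _) (by positivity)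
    · rw [Finset.Nat.card_antidiagonal, nsmul_eq_mul]
      push_cast
      exact mul_le_mul_of_nonneg_right (by exact_mod_cast hj) (by positivity)⟩

theorem digits (B : ℤ) (K : ℕ) (g : ℤ[X]) (h1 : B ^ K ∣ g.eval B)
    (h2 : ∀ j < K, |g.coeff j| < B) : ∀ j < K, g.coeff j = 0 := by
  induction K generalizing g with
  | zero => simp
  | succ K ih =>
    have e : g.eval B = B * g.divX.eval B + g.coeff 0 := by
      conv_lhs => rw [← X_mul_divX_add g]
      simp
    have h0 : g.coeff 0 = 0 := by
      refine Int.eq_zero_of_abs_lt_dvd ?_ (h2 0 (by omega))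
      have : B ∣ g.eval B := (dvd_pow_self B (by omega)).trans h1
      rw [e] at this
      exact (dvd_add_right (dvd_mul_right _ _)).1 this
    have hB : B ≠ 0 := ((abs_nonneg _).trans_lt (h2 0 (by omega))).ne'
    rw [e, h0, add_zero, pow_succ', mul_dvd_mul_iff_left hB] at h1
    have := ih _ h1 fun j hj => by rw [coeff_divX]; exact h2 _ (by omega)
    intro j hj
    rcases j with _ | j
    · exact h0
    · rw [← coeff_divX]; exact this j (by omega)

/-- the check -/
def zc (B K : ℕ) (x : ℤ) (M : ℕ) : Bool := Nat.beq (x.natAbs % B ^ K) 0 && Nat.blt M B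

theorem PP.zero (h : PP B K g x M) (hc : zc B K x M = true) : ∀ j < K, g.coeff j = 0 := by
  simp only [zc, Bool.and_eq_true, Nat.beq_eq, Nat.blt_eq] at hc
  refine digits B K g ?_ fun j hj => (h.2 j hj).trans_lt (by exact_mod_cast hc.2)
  rw [h.1, ← Int.dvd_natAbs]
  exact_mod_cast Nat.dvd_of_mod_eq_zero hc.1

/-- integer polynomials as complex power series -/
noncomputable def ph : ℤ[X] →+* PowerSeries ℂ :=
  Polynomial.coeToPowerSeries.ringHom.comp (mapRingHom (Int.castRingHom ℂ))

theorem coeff_ph (g : ℤ[X]) (j : ℕ) : PowerSeries.coeff j (ph g) = (g.coeff j : ℂ) := by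
  simp [ph]

theorem ph_C (c : ℤ) : ph (C c) = PowerSeries.C (c : ℂ) := by simp [ph]

theorem ph_X : ph X = PowerSeries.X := by simp [ph]

/-- the operator z d/dz -/
noncomputable def th (f : PowerSeries ℂ) : PowerSeries ℂ :=
  PowerSeries.mk fun n => n * PowerSeries.coeff n f

theorem coeff_th (f : PowerSeries ℂ) (j : ℕ) :
    PowerSeries.coeff j (th f) = j * PowerSeries.coeff j f := PowerSeries.coeff_mk _ _

theorem ph_wt (l : List ℤ) : ph (tp (wt 0 l)) = th (ph (tp l)) := by
  ext j
  simp [coeff_th, coeff_ph, coeff_tp, getD_wt, -List.getD_eq_getElem?_getD]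

/-- agreement of the first K coefficients -/
def Eqv (K : ℕ) (f f' : PowerSeries ℂ) : Prop := PowerSeries.X ^ K ∣ f - f'

theorem eqv_iff {f f' : PowerSeries ℂ} :
    Eqv K f f' ↔ ∀ j < K, PowerSeries.coeff j f = PowerSeries.coeff j f' := by
  simp [Eqv, PowerSeries.X_pow_dvd_iff, sub_eq_zero]

theorem PP.dvd (h : PP B K g x M) (hc : zc B K x M = true) : PowerSeries.X ^ K ∣ ph g :=
  PowerSeries.X_pow_dvd_iff.2 fun j hj => by rw [coeff_ph, h.zero hc j hj, Int.cast_zero]

theorem Eqv.th {f f' : PowerSeries ℂ} (h : Eqv K f f') : Eqv K (th f) (th f') :=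
  eqv_iff.2 fun j hj => by rw [coeff_th, coeff_th, eqv_iff.1 h j hj]

theorem cancel {f u : PowerSeries ℂ} (hu : PowerSeries.constantCoeff u ≠ 0)
    (h : PowerSeries.X ^ K ∣ f * u) : PowerSeries.X ^ K ∣ f :=
  (IsUnit.dvd_mul_right (PowerSeries.isUnit_iff_constantCoeff.2 hu.isUnit)).1 h

theorem sqrt_eqv {R R' N N' T : PowerSeries ℂ} (h : R * R = N * N - T) (hN : Eqv K N N')
    (h0 : PowerSeries.constantCoeff R = 1) (h0' : PowerSeries.constantCoeff R' = 1)
    (hc : PowerSeries.X ^ K ∣ R' * R' - N' * N' + T) : Eqv K R R' := by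
  refine cancel (u := R + R') (by rw [map_add, h0, h0']; norm_num) ?_
  have : (R - R') * (R + R') = (N - N') * (N + N') - (R' * R' - N' * N' + T) := by
    linear_combination h
  rw [this]
  exact (Dvd.dvd.mul_right hN _).sub hc

theorem div_eqv {d d' R R' N N' : PowerSeries ℂ} (h : d * R = N) (hN : Eqv K N N')
    (hR : Eqv K R R') (h0 : PowerSeries.constantCoeff R = 1)
    (hc : PowerSeries.X ^ K ∣ d' * R' - N') : Eqv K d d' := by
  refine cancel (u := R) (by rw [h0]; norm_num) ?_
  have : (d - d') * R = (N - N') - (R - R') * d' - (d' * R' - N') := by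
    linear_combination h
  rw [this]
  exact (Dvd.dvd.sub hN (Dvd.dvd.mul_right hR _)).sub hc

theorem ode_eqv {y y' s s' : PowerSeries ℂ} {c : ℂ} (hc0 : c ≠ 0)
    (h : PowerSeries.C c * th y = s * y) (hs : Eqv K s s')
    (hs0 : PowerSeries.constantCoeff s = 0)
    (h0 : PowerSeries.constantCoeff y = PowerSeries.constantCoeff y')
    (hc : PowerSeries.X ^ K ∣ s' * y' - PowerSeries.C c * th y') : Eqv K y y' := by
  have e : th (y - y') = th y - th y' := by
    ext j
    simp [coeff_th, mul_sub]
  have h1 : Eqv K (PowerSeries.C c * th (y - y')) (s * (y - y')) := by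
    have : PowerSeries.C c * th (y - y') - s * (y - y') =
        (s - s') * y' + (s' * y' - PowerSeries.C c * th y') := by
      rw [e]
      linear_combination h
    rw [Eqv, this]
    exact (Dvd.dvd.mul_right hs _).add hc
  refine PowerSeries.X_pow_dvd_iff.2 fun j => ?_
  induction j using Nat.strong_induction_on with
  | _ j ih =>
    intro hj
    rcases j with _ | j
    · simp [h0]
    · have h2 := eqv_iff.1 h1 _ hj
      rw [PowerSeries.coeff_C_mul, coeff_th, PowerSeries.coeff_mul, Finset.sum_eq_zero] at h2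
      · have h3 : ((j + 1 : ℕ) : ℂ) ≠ 0 := by exact_mod_cast j.succ_ne_zero
        simpa only [mul_eq_zero, hc0, h3, false_or] using h2
      · rintro ⟨a, b⟩ hp
        have := Finset.HasAntidiagonal.mem_antidiagonal.1 hp
        rcases a with _ | a
        · simp [hs0]
        · rw [ih b (by simp at this; omega) (by simp at this; omega), mul_zero]

end Pool.Agent.MP_757d88_an
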