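import Pool.Agent.MP_757d88_an.Tay
import Pool.Agent.MP_757d88_an.Kron

/-! The Taylor series of the block functions agree with integer lists. -/

set_option autoImplicit false

namespace Pool.Agent.MP_757d88_an

open Complex Metric Set Filter Topology

/-- rescaled Taylor series -/
noncomputable def RT (L : ℕ) (f : ℂ → ℂ) : PowerSeries ℂ := PowerSeries.rescale (L : ℂ) (Tay f)

variable {L n B K M : ℕ} {f g : ℂ → ℂ}

theorem coeff_RT (f : ℂ → ℂ) (j : ℕ) : PowerSeries.coeff j (RT L f) = (L : ℂ) ^ j * cf f j := by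
  rw [RT, PowerSeries.coeff_rescale, coeff_Tay]

theorem RT_zero (f : ℂ → ℂ) : PowerSeries.constantCoeff (RT L f) = f 0 := by
  rw [← PowerSeries.coeff_zero_eq_constantCoeff_apply, coeff_RT, cf_zero, pow_zero, one_mul]

theorem RT_congr (h : ∀ z ∈ ball (0 : ℂ) 1, f z = g z) : RT L f = RT L g := by
  rw [RT, RT, Tay_congr (eventually_of_mem (ball_mem_nhds 0 one_pos) h)]

theorem RT_add (hf : AnalyticAt ℂ f 0) (hg : AnalyticAt ℂ g 0) :
    RT L (fun z => f z + g z) = RT L f + RT L g := by rw [RT, Tay_add hf hg, map_add, RT, RT]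

theorem RT_sub (hf : AnalyticAt ℂ f 0) (hg : AnalyticAt ℂ g 0) :
    RT L (fun z => f z - g z) = RT L f - RT L g := by rw [RT, Tay_sub hf hg, map_sub, RT, RT]

theorem RT_mul (hf : AnalyticAt ℂ f 0) (hg : AnalyticAt ℂ g 0) :
    RT L (fun z => f z * g z) = RT L f * RT L g := by rw [RT, Tay_mul hf hg, map_mul, RT, RT]

theorem RT_const (c : ℂ) : RT L (fun _ => c) = PowerSeries.C c := by
  ext j
  rw [RT, Tay_const, PowerSeries.coeff_rescale, PowerSeries.coeff_C]
  split_ifs with h <;> simp [h]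

theorem RT_id : RT L (fun z => z) = PowerSeries.C (L : ℂ) * PowerSeries.X := by
  rw [RT, Tay_id, PowerSeries.rescale_X]

theorem RT_lin (c : ℂ) : RT L (fun z => c * z) = PowerSeries.C (c * L) * PowerSeries.X := by
  rw [RT_mul (f := fun _ => c) (g := fun z => z) analyticAt_const analyticAt_id, RT_const, RT_id,
    map_mul, mul_assoc]

theorem RT_th (hf : AnalyticAt ℂ f 0) : RT L (fun z => z * deriv f z) = th (RT L f) := by
  ext j
  rw [coeff_th, coeff_RT, coeff_RT, cf_zderiv hf]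
  ring

theorem an_zd (hf : AnalyticAt ℂ f 0) : AnalyticAt ℂ (fun z => z * deriv f z) 0 :=
  analyticAt_id.mul hf.deriv

theorem ph_zero {l : List ℤ} {c : ℤ} (h : l.getD 0 0 = c) :
    PowerSeries.constantCoeff (ph (tp l)) = c := by
  rw [← PowerSeries.coeff_zero_eq_constantCoeff_apply, coeff_ph, coeff_tp, h]

/-- f agrees with c z + l -/
def Rep (L K : ℕ) (f : ℂ → ℂ) (c : ℤ) (l : List ℤ) : Prop :=
  Eqv K (RT L f) (PowerSeries.C (c : ℂ) * PowerSeries.X + ph (tp l))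

theorem Rep.of {l : List ℤ} (h : Eqv K (RT L f) (ph (tp l))) : Rep L K f 0 l := by
  simpa [Rep] using h

theorem Rep.to {l : List ℤ} (h : Rep L K f 0 l) : Eqv K (RT L f) (ph (tp l)) := by
  simpa [Rep] using h

def sqCk (n B K M : ℕ) (c H : ℤ) (l r : List ℤ) : Bool :=
  okL M l && okL M r && decide (r.getD 0 0 = 1) &&
    zc B K (pk n B r * pk n B r - (c * (B : ℤ) ^ 1 + pk n B l) * (c * (B : ℤ) ^ 1 + pk n B l) +
      H * (B : ℤ) ^ 2) (K * (M * M) + K * ((c.natAbs + M) * (c.natAbs + M)) + H.natAbs)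

theorem sq_rep {N R : ℂ → ℂ} {h : ℝ} {c H : ℤ} {l r : List ℤ}
    (hN : DifferentiableOn ℂ N (ball 0 1)) (hR : DifferentiableOn ℂ R (ball 0 1)) (h0 : R 0 = 1)
    (e : ∀ z ∈ ball (0 : ℂ) 1, R z ^ 2 = N z ^ 2 - (2 * h * z) ^ 2)
    (hH : (H : ℝ) = (2 * h * L) ^ 2) (hl : Rep L K N c l) (hc : sqCk n B K M c H l r = true) :
    Rep L K R 0 r := by
  simp only [sqCk, Bool.and_eq_true, decide_eq_true_eq] at hc
  obtain ⟨⟨⟨c1, c2⟩, c3⟩, c4⟩ := hc
  have aN := anal one_pos hN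
  have aR := anal one_pos hR
  have p := (PP.mon (B := B) (K := K) c 1).add (PP.list n c1)
  have d := ((((PP.list n c2).mul (PP.list n c2)).sub (p.mul p)).add (PP.mon H 2)).dvd c4
  simp only [map_add, map_sub, map_mul, map_pow, ph_C, ph_X, pow_one] at d
  have aq : AnalyticAt ℂ (fun z : ℂ => 2 * h * z) 0 := by fun_prop
  refine Rep.of (sqrt_eqv ?_ hl (by rw [RT_zero, h0]) (by rw [ph_zero c3]; simp) d)
  have hH' : (H : ℂ) = (2 * h * L) * (2 * h * L) := by
    rw [← sq]; exact_mod_cast hH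
  rw [← RT_mul aR aR, RT_congr (g := fun z => N z * N z - (2 * h * z) * (2 * h * z))
    fun z hz => by linear_combination e z hz, RT_sub (aN.fun_mul aN) (aq.fun_mul aq), RT_mul aN aN,
    RT_mul aq aq, RT_lin, hH', map_mul _ (2 * (h : ℂ) * L)]
  ring

theorem Rep.shift {R : ℂ → ℂ} {x : ℝ} {c : ℤ} {r : List ℤ} (hR : DifferentiableOn ℂ R (ball 0 1))
    (hc : (c : ℝ) = 2 * x * L) (h : Rep L K R 0 r) : Rep L K (fun z => 2 * x * z + R z) c r := by
  have hc' : (c : ℂ) = 2 * x * L := by exact_mod_cast hc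
  have aq : AnalyticAt ℂ (fun z : ℂ => 2 * x * z) 0 := by fun_prop
  rw [Rep, RT_add aq (anal one_pos hR), RT_lin, hc', Eqv, add_sub_add_left_eq_sub]
  exact h.to

theorem start (hB : BlkStmt) (b : ℝ) {c : ℤ} (hc : (c : ℝ) = 2 * b * L) :
    ∃ N, Tree N (1 - b) (1 + b) ∧ Rep L K N c [1, 0, (L : ℤ) * L] := by
  refine ⟨_, hB.1 b, ?_⟩
  have hc' : (c : ℂ) = 2 * b * L := by exact_mod_cast hc
  have : RT L (fun z : ℂ => 1 + 2 * b * z + z ^ 2) =
      PowerSeries.C (c : ℂ) * PowerSeries.X + ph (tp [1, 0, (L : ℤ) * L]) := by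
    rw [RT_congr (g := fun z => (1 + 2 * b * z) + z * z) fun z _ => by ring,
      RT_add (by fun_prop) (by fun_prop), RT_add (by fun_prop) (by fun_prop),
      RT_mul (f := fun z => z) (g := fun z => z) analyticAt_id analyticAt_id, RT_const, RT_lin,
      RT_id, hc']
    simp only [tp, map_add, map_mul, ph_C, ph_X, map_zero, map_one, Int.cast_natCast]
    ring
  rw [Rep, this, Eqv, sub_self]
  exact dvd_zero _

theorem step (hB : BlkStmt) {al be : ℝ} {c : ℤ} {l : List ℤ}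
    (hN : ∃ N, Tree N al be ∧ Rep L K N c l) (h x al' be' : ℝ) {c' H : ℤ} {r : List ℤ}
    (hc : sqCk n B K M c H l r = true)
    (h1 : 0 ≤ h ∧ h ≤ al ∧ h ≤ be ∧ (al' + x) ^ 2 + h ^ 2 ≤ al ^ 2 ∧
      (be' - x) ^ 2 + h ^ 2 ≤ be ^ 2 ∧ (H : ℝ) = (2 * h * L) ^ 2 ∧ (c' : ℝ) = 2 * x * L) :
    ∃ N, Tree N al' be' ∧ Rep L K N c' r := by
  obtain ⟨N, hT, hN⟩ := hN
  obtain ⟨a1, a2, a3, a4, a5, a6, a7⟩ := h1
  obtain ⟨R, hR, h0, e, hT'⟩ := hB.2.1 N al be h x al' be' hT a1 a2 a3 a4 a5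
  exact ⟨_, hT', (sq_rep hT.diff hR h0 e a6 hN hc).shift hR a7⟩

def dvCk (n B K M : ℕ) (l r d P : List ℤ) : Bool :=
  okL M l && okL M r && okL M d && okL M P &&
    zc B K (pk n B d * pk n B r - (pk n B l - pk n B (wt 0 l))) (K * (M * M) + (M + K * M)) &&
    zc B K (pk n B P * pk n B d - pk n B (wt 0 d)) (K * (M * M) + K * M)

/-- the block with the series of its logarithmic derivative -/
def Last (L K : ℕ) (e : ℝ) (d P : List ℤ) : Prop :=
  ∃ (l m : ℂ → ℂ) (E : ℝ), Good l E ∧ l 0 = (Real.log e : ℝ) ∧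
    DifferentiableOn ℂ m (ball 0 1) ∧ m 0 = 0 ∧ (∀ z ∈ ball (0 : ℂ) 1, exp (m z) = DL l z) ∧
    Rep L K (fun z => exp (m z)) 0 d ∧ Rep L K (fun z => z * deriv m z) 0 P

theorem last (hB : BlkStmt) {al be : ℝ} {c : ℤ} {l : List ℤ}
    (hN : ∃ N, Tree N al be ∧ Rep L K N c l) (e : ℝ) {H : ℤ} {r d P : List ℤ}
    (hc : sqCk n B K M c H l r = true) (hd : dvCk n B K M l r d P = true)
    (h1 : 0 < e ∧ e ≤ al ∧ e ≤ be ∧ (H : ℝ) = (2 * e * L) ^ 2) : Last L K e d P := by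
  obtain ⟨N, hT, hN⟩ := hN
  obtain ⟨a1, a2, a3, a4⟩ := h1
  obtain ⟨R, φ, m, E, hR, h0, e1, hG, l0, e2, hm, m0, e3⟩ := hB.2.2 N al be e hT a1 a2 a3
  have hr := (sq_rep hT.diff hR h0 e1 a4 hN hc).to
  simp only [dvCk, Bool.and_eq_true] at hd
  obtain ⟨⟨⟨⟨⟨c1, c2⟩, c3⟩, c4⟩, c5⟩, c6⟩ := hd
  have d1 := (((PP.list n c3).mul (PP.list n c2)).sub ((PP.list n c1).sub (PP.wt n c1))).dvd c5
  have d2 := (((PP.list n c4).mul (PP.list n c3)).sub (PP.wt n c3)).dvd c6
  simp only [map_sub, map_mul, ph_wt] at d1 d2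
  have aN := anal one_pos hT.diff
  have aR := anal one_pos hR
  have am := anal one_pos hm
  have ad : AnalyticAt ℂ (fun z => exp (m z)) 0 := am.cexp
  have k1 : Eqv K (RT L fun z => exp (m z)) (ph (tp d)) := by
    refine div_eqv (N := RT L N - th (RT L N)) ?_ ?_ hr (by rw [RT_zero, h0]) d1
    · rw [← RT_mul ad aR, ← RT_th aN, ← RT_sub aN (an_zd aN)]
      exact RT_congr fun z hz => by rw [e3 z hz, e2 z hz]
    · refine eqv_iff.2 fun j hj => ?_
      rw [map_sub, map_sub, coeff_th, coeff_th, eqv_iff.1 hN j hj, map_add,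
        PowerSeries.coeff_C_mul, PowerSeries.coeff_X]
      split_ifs with h
      · simp [h]
      · simp
  refine ⟨φ, m, E, hG, l0, hm, m0, e3, Rep.of k1, Rep.of (div_eqv ?_ k1.th k1 ?_ d2)⟩
  · rw [← RT_mul (an_zd am) ad, ← RT_th ad]
    refine RT_congr fun z hz => ?_
    rw [deriv_cexp (hm.differentiableAt (isOpen_ball.mem_nhds hz))]
    ring
  · simp [RT_zero, m0]

def odeCk (n B K M q c : ℕ) (d P : List ℤ) (i : ℕ) (y : List ℤ) : Bool :=
  okL M d && okL M P && okL M y && decide (y.getD 0 0 = c) &&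
    zc B K (((q : ℤ) * pk n B P + ((2 * i : ℕ) : ℤ) * (pk n B d - 1 * (B : ℤ) ^ 0)) * pk n B y -
      ((2 * q : ℕ) : ℤ) * pk n B (wt 0 y))
      (K * ((q * M + 2 * i * (M + 1)) * M) + 2 * q * (K * M))

/-- the functions whose squared moduli enter the transfer operator -/
noncomputable def yf (l m : ℂ → ℂ) (q c i : ℕ) (z : ℂ) : ℂ :=
  c * exp (m z / 2 + (i / q : ℝ) * (l z - l 0))

theorem yf_diff {l m : ℂ → ℂ} (hl : DifferentiableOn ℂ l (ball 0 1))
    (hm : DifferentiableOn ℂ m (ball 0 1)) (q c i : ℕ) :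
    DifferentiableOn ℂ (yf l m q c i) (ball 0 1) :=
  (((hm.div_const _).add ((hl.sub_const _).const_mul _)).cexp).const_mul _

theorem ode_rep {l m : ℂ → ℂ} {q c i : ℕ} {d P y : List ℤ} (hq : q ≠ 0)
    (hl : DifferentiableOn ℂ l (ball 0 1)) (hm : DifferentiableOn ℂ m (ball 0 1)) (m0 : m 0 = 0)
    (e : ∀ z ∈ ball (0 : ℂ) 1, exp (m z) = DL l z) (hd : Rep L K (fun z => exp (m z)) 0 d)
    (hP : Rep L K (fun z => z * deriv m z) 0 P) (hc : odeCk n B K M q c d P i y = true) :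
    ∀ j < K, (L : ℂ) ^ j * cf (yf l m q c i) j = y.getD j 0 := by
  simp only [odeCk, Bool.and_eq_true, decide_eq_true_eq] at hc
  obtain ⟨⟨⟨⟨c1, c2⟩, c3⟩, c4⟩, c5⟩ := hc
  have d1 := ((((((PP.list n c2).smul q).add (((PP.list n c1).sub (PP.mon 1 0)).smul
    ((2 * i : ℕ) : ℤ))).mul (PP.list n c3))).sub ((PP.wt n c3).smul ((2 * q : ℕ) : ℤ))).dvd c5
  simp only [map_sub, map_mul, map_add, ph_wt, ph_C, pow_zero, mul_one, map_one] at d1
  have am := anal one_pos hm
  have ad : AnalyticAt ℂ (fun z => exp (m z)) 0 := am.cexp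
  have ay := anal one_pos (yf_diff hl hm q c i)
  have hq' : (q : ℂ) ≠ 0 := by exact_mod_cast hq
  have k : Eqv K (RT L (yf l m q c i)) (ph (tp y)) := by
    refine ode_eqv (s := PowerSeries.C ((q : ℤ) : ℂ) * RT L (fun z => z * deriv m z) +
      PowerSeries.C (((2 * i : ℕ) : ℤ) : ℂ) * (RT L (fun z => exp (m z)) - 1)) ?_ ?_ ?_ ?_ ?_ d1
    · push_cast
      exact mul_ne_zero two_ne_zero hq'
    · rw [← RT_th ay, ← map_one PowerSeries.C, ← RT_const (L := L), ← RT_const (L := L),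
        ← RT_const (L := L), ← RT_const (L := L), ← RT_sub ad analyticAt_const,
        ← RT_mul analyticAt_const (an_zd ay), ← RT_mul analyticAt_const (an_zd am),
        ← RT_mul analyticAt_const (ad.fun_sub analyticAt_const),
        ← RT_add (analyticAt_const.fun_mul (an_zd am))
          (analyticAt_const.fun_mul (ad.fun_sub analyticAt_const)),
        ← RT_mul ((analyticAt_const.fun_mul (an_zd am)).fun_add
          (analyticAt_const.fun_mul (ad.fun_sub analyticAt_const))) ay]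
      refine RT_congr fun z hz => ?_
      have h1 := (hm.differentiableAt (isOpen_ball.mem_nhds hz)).hasDerivAt
      have h2 := (hl.differentiableAt (isOpen_ball.mem_nhds hz)).hasDerivAt
      have h3 : HasDerivAt (yf l m q c i) _ z := (((h1.div_const 2).add
        ((h2.sub_const (l 0)).const_mul ((i / q : ℝ) : ℂ))).cexp).const_mul (c : ℂ)
      rw [h3.deriv, e z hz, DL, yf, Pi.add_apply]
      generalize exp (m z / 2 + _) = w
      push_cast
      field_simp
      ring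
    · have : ∀ a b u u' w w' : PowerSeries ℂ, a * u + b * (w - 1) - (a * u' + b * (w' - 1)) =
          a * (u - u') + b * (w - w') := fun _ _ _ _ _ _ => by ring
      rw [Eqv, this]
      exact (Dvd.dvd.mul_left hP.to _).add (Dvd.dvd.mul_left hd.to _)
    · simp [RT_zero, m0]
    · simp [RT_zero, ph_zero c4, yf, m0]
  intro j hj
  rw [← coeff_RT, eqv_iff.1 k j hj, coeff_ph, coeff_tp]

end Pool.Agent.MP_757d88_an
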