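import Mathlib

/-! Growth of the coefficients of univalent functions in the exterior disc: definitions and the
statements of the steps. -/

set_option autoImplicit false

noncomputable section

namespace Pool.Agent.MP_757d88_an

open Complex Metric Set ComplexConjugate

/-- average over the circle of radius r about the origin -/
abbrev av {E : Type} [NormedAddCommGroup E] [NormedSpace ℝ E] (F : ℂ → E) (r : ℝ) : E :=
  Real.circleAverage F 0 r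

/-- Taylor coefficient at the origin -/
def cf (f : ℂ → ℂ) (n : ℕ) : ℂ := iteratedDeriv n f 0 / (n.factorial : ℂ)

/-- Taylor series at the origin -/
def Tay (f : ℂ → ℂ) : PowerSeries ℂ := PowerSeries.mk (cf f)

/-- the logarithmic derivative of w exp (L w) -/
def DL (L : ℂ → ℂ) (w : ℂ) : ℂ := 1 + w * deriv L w

/-- w exp (L w) is an injective map of the disc into itself, bounded below by |w| / E -/
structure Good (L : ℂ → ℂ) (E : ℝ) : Prop where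
  diff : DifferentiableOn ℂ L (ball 0 1)
  inj : InjOn (fun w => w * exp (L w)) (ball 0 1)
  lt : ∀ w ∈ ball (0 : ℂ) 1, ‖w * exp (L w)‖ < 1
  bd : ∀ w ∈ ball (0 : ℂ) 1, ‖exp (-L w)‖ ≤ E

/-- the class of normalised univalent functions in the exterior disc -/
def IsSig (f : ℂ → ℂ) (b : ℕ → ℂ) : Prop :=
  DifferentiableOn ℂ f {z | 1 < ‖z‖} ∧ InjOn f {z | 1 < ‖z‖} ∧
    ∀ z : ℂ, 1 < ‖z‖ → HasSum (fun m => b m / z ^ m) (f z - z)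

/-- a block with a test function for the transfer operator -/
def Eig (k : ℕ) (lam : ℝ) : Prop :=
  ∃ (l : ℂ → ℂ) (E V : ℝ) (nu : ℝ → ℝ), Good l E ∧ Continuous nu ∧
    (∀ s, 0 < s → s < 1 → 0 < nu s ∧ nu s ≤ V) ∧
    ∀ s, 0 < s → s < 1 → lam * nu (s ^ k) ≤ av (fun z => ‖DL l z‖ * nu ‖z * exp (l z)‖) s

/-- long level lines -/
def Long (k : ℕ) (mu : ℝ) : Prop :=
  ∃ c E : ℝ, 0 < c ∧ 1 ≤ E ∧ ∀ n : ℕ, ∃ L, Good L E ∧
    c * mu ^ n ≤ av (fun w => ‖DL L w‖) (Real.exp (-1 / (k : ℝ) ^ n))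

/-- the snowflake recursion -/
def SnowStmt : Prop :=
  ∀ (k : ℕ) (lam mu : ℝ), 2 ≤ k → 0 < mu → mu < lam → Eig k lam → Long k mu

/-- a small polynomial that picks up the length of a level line -/
def EtaStmt : Prop :=
  ∀ (P : ℂ → ℂ) (E ρ : ℝ) (M : ℕ), DifferentiableOn ℂ P (ball 0 1) → 1 ≤ E →
    (∀ j, ‖cf P j‖ ≤ (j + 1) * E) → 0 < ρ → ρ < 1 → 4 * ((M + 2) * ρ ^ (M + 1)) ≤ (1 - ρ) ^ 2 →
    ∃ η : ℂ → ℂ, Differentiable ℂ η ∧ η 0 = 0 ∧ (∀ w ∈ ball (0 : ℂ) 1, ‖η w‖ ≤ 2) ∧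
      av (fun w => ‖P w‖) ρ - 2 * E ≤ ‖cf (fun w => P w * η w) (M + 1)‖

/-- the perturbation -/
def PertStmt : Prop :=
  ∀ (L η : ℂ → ℂ) (E : ℝ) (M : ℕ), Good L E → Differentiable ℂ η → η 0 = 0 →
    (∀ w ∈ ball (0 : ℂ) 1, ‖η w‖ ≤ 2) → ∃ f b, IsSig f b ∧
      ‖cf (fun w => exp (-L w) * DL L w * η w) (M + 1)‖ ≤ 100 * E * (M + 2) * ‖b M‖

/-- from lengths to coefficients -/
def FinStmt : Prop :=
  EtaStmt → PertStmt → ∀ (k : ℕ) (mu g g' : ℝ), 2 ≤ k → 0 < g → g < g' → (k : ℝ) ^ g' ≤ mu →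
    Long k mu → ∃ N : ℕ, ∀ n, N ≤ n → ∃ f b, IsSig f b ∧ (n : ℝ) ^ (g - 1) ≤ ‖b n‖

/-- N / (2 z) is injective and omits the segment from -al to be -/
structure Tree (N : ℂ → ℂ) (al be : ℝ) : Prop where
  diff : DifferentiableOn ℂ N (ball 0 1)
  zero : N 0 = 1
  omit' : ∀ z ∈ ball (0 : ℂ) 1, ∀ t : ℝ, -al ≤ t → t ≤ be → N z ≠ 2 * t * z
  inj : ∀ z ∈ ball (0 : ℂ) 1, ∀ w ∈ ball (0 : ℂ) 1, N z * w = N w * z → z = w
  bd : ∃ C : ℝ, ∀ z ∈ ball (0 : ℂ) 1, ‖N z‖ ≤ C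
  ne : ∀ z ∈ ball (0 : ℂ) 1, N z - z * deriv N z ≠ 0

/-- the geometry of the block -/
def BlkStmt : Prop :=
  (∀ b : ℝ, Tree (fun z => 1 + 2 * b * z + z ^ 2) (1 - b) (1 + b)) ∧
  (∀ (N : ℂ → ℂ) (al be h x al' be' : ℝ), Tree N al be → 0 ≤ h → h ≤ al → h ≤ be →
    (al' + x) ^ 2 + h ^ 2 ≤ al ^ 2 → (be' - x) ^ 2 + h ^ 2 ≤ be ^ 2 →
    ∃ R : ℂ → ℂ, DifferentiableOn ℂ R (ball 0 1) ∧ R 0 = 1 ∧
      (∀ z ∈ ball (0 : ℂ) 1, R z ^ 2 = N z ^ 2 - (2 * h * z) ^ 2) ∧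
      Tree (fun z => 2 * x * z + R z) al' be') ∧
  ∀ (N : ℂ → ℂ) (al be e : ℝ), Tree N al be → 0 < e → e ≤ al → e ≤ be →
    ∃ (R l m : ℂ → ℂ) (E : ℝ), DifferentiableOn ℂ R (ball 0 1) ∧ R 0 = 1 ∧
      (∀ z ∈ ball (0 : ℂ) 1, R z ^ 2 = N z ^ 2 - (2 * e * z) ^ 2) ∧
      Good l E ∧ l 0 = (Real.log e : ℝ) ∧
      (∀ z ∈ ball (0 : ℂ) 1, DL l z * R z = N z - z * deriv N z) ∧
      DifferentiableOn ℂ m (ball 0 1) ∧ m 0 = 0 ∧ ∀ z ∈ ball (0 : ℂ) 1, exp (m z) = DL l z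

end Pool.Agent.MP_757d88_an
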