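import Pool.Agent.MP_757d88_an.Defs
import Pool.Agent.MP_757d88_an.Kron

/-! Aligned snowflakes: definitions and the statements of the steps. -/

set_option autoImplicit false

namespace Pool.Agent.MP_757d88_an

open Complex Metric ComplexConjugate Finset

/-- a block with a test function and a density for the rotation -/
def Eig2 (k : ℕ) (lam : ℝ) : Prop :=
  ∃ (l : ℂ → ℂ) (E V : ℝ) (nu rho : ℂ → ℝ), Good l E ∧ Continuous nu ∧ Continuous rho ∧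
    (∀ u, 0 ≤ rho u) ∧ av rho 1 ≤ 1 ∧ (∀ z, 0 < ‖z‖ → ‖z‖ < 1 → 0 < nu z ∧ nu z ≤ V) ∧
    ∀ z, 0 < ‖z‖ → ‖z‖ < 1 → lam * nu (z ^ k) ≤
      av (fun u => rho u * (‖DL l (u * z)‖ * nu (u * z * exp (l (u * z))))) 1

def Snow2Stmt : Prop :=
  ∀ (k : ℕ) (lam mu : ℝ), 2 ≤ k → 0 < mu → mu < lam → Eig2 k lam → Long k mu

/-- sums in a form the kernel evaluates quickly -/
def sz (f : ℕ → ℤ) : ℕ → ℤ
  | 0 => 0
  | n + 1 => sz f n + f n

def sn (f : ℕ → ℕ) : ℕ → ℕ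
  | 0 => 0
  | n + 1 => sn f n + f n

def al2 (f : ℕ → Bool) : ℕ → Bool
  | 0 => true
  | n + 1 => f n && al2 f n

theorem sz_eq (f : ℕ → ℤ) (n : ℕ) : sz f n = ∑ i ∈ range n, f i := by
  induction n with
  | zero => rfl
  | succ n ih => rw [sz, ih, sum_range_succ]

theorem sn_eq (f : ℕ → ℕ) (n : ℕ) : sn f n = ∑ i ∈ range n, f i := by
  induction n with
  | zero => rfl
  | succ n ih => rw [sn, ih, sum_range_succ]

theorem al2_iff {f : ℕ → Bool} {n : ℕ} : al2 f n = true ↔ ∀ i < n, f i = true := by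
  induction n with
  | zero => simp [al2]
  | succ n ih => rw [al2, Bool.and_eq_true, ih, Nat.forall_lt_succ_right, and_comm]

/-- the Hermitian form of a real matrix at the vector of powers of w -/
noncomputable def fm (N : ℕ) (A : ℕ → ℕ → ℝ) (w : ℂ) : ℝ :=
  ∑ n ∈ range N, ∑ m ∈ range N, A n m * (w ^ n * conj (w ^ m)).re

/-- the window kernel -/
def kr (al : ℕ → ℤ) (N n m : ℕ) : ℤ :=
  sz (fun s => (if n ≤ s then al (s - n) else 0) * (if m ≤ s then al (s - m) else 0)) N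

def FmStmt : Prop :=
  (∀ (N : ℕ) (g : ℕ → ℝ) (w : ℂ),
    ‖∑ n ∈ range N, (g n : ℂ) * w ^ n‖ ^ 2 = fm N (fun n m => g n * g m) w) ∧
  (∀ (N : ℕ) (al : ℕ → ℤ) (g : ℕ → ℝ) (w : ℂ),
    0 ≤ fm N (fun n m => (kr al N n m : ℝ) * (g n * g m)) w) ∧
  (∀ (N : ℕ) (A : ℕ → ℕ → ℝ) (w : ℂ), ‖w‖ ≤ 1 →
    |fm N A w| ≤ ∑ n ∈ range N, ∑ m ∈ range N, |A n m|) ∧
  ∀ (N k : ℕ) (al : ℕ → ℤ), 1 ≤ k →
    av (fun u => ‖∑ i ∈ range N, (al i : ℂ) * u ^ (k * i)‖ ^ 2) 1 = ∑ i ∈ range N, (al i : ℝ) ^ 2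

/-- Bessel inequality in the rotation -/
def WinStmt : Prop :=
  ∀ (G : ℂ → ℂ) (g : ℕ → ℝ) (al : ℕ → ℤ) (k N : ℕ) (z : ℂ), 1 ≤ k →
    DifferentiableOn ℂ G (ball 0 1) → (∀ p < k * N, cf G p = (g p : ℝ)) → ‖z‖ < 1 →
    ∑ j ∈ range k, (‖z‖ ^ 2) ^ j *
      fm N (fun n m => (kr al N n m : ℝ) * (g (j + k * n) * g (j + k * m))) (z ^ k) ≤
    av (fun u => ‖∑ i ∈ range N, (al i : ℂ) * u ^ (k * i)‖ ^ 2 * ‖G (u * z)‖ ^ 2) 1

/-- fraction free Schur complements of the symmetrised matrix -/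
def sc (F : ℕ → ℕ → ℤ) : ℕ → ℕ → ℕ → ℤ
  | 0, n, m => F n m + F m n
  | l + 1, n, m => sc F l l l * sc F l n m - sc F l l n * sc F l l m

def psd (F : ℕ → ℕ → ℤ) (N : ℕ) : Bool := al2 (fun n => decide (0 < sc F n n n)) N

def PsdStmt : Prop :=
  ∀ (F : ℕ → ℕ → ℤ) (N : ℕ), psd F N = true → ∀ w : ℂ, 0 ≤ fm N (fun n m => (F n m : ℝ)) w

/-- interpolation weights at three equally spaced nodes, or rounding up to one node -/
def wg (k S J : ℕ) (X : ℕ → ℕ) (a b c P t : ℕ) : ℤ :=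
  bif Nat.beq a c then (bif Nat.beq t c && Nat.ble P (k * X c) then (S : ℤ) else 0)
  else bif (Nat.beq t a || Nat.beq t b || Nat.beq t c) && Nat.blt a J && Nat.blt (X a) (X b) &&
      Nat.beq (X a + X c) (2 * X b) && Nat.ble (k * X b) P && Nat.ble P (k * X c) && Nat.blt 0 k then
    ((S : ℤ) * (bif Nat.beq t a then ((P - k * X b : ℕ) : ℤ) * ((P : ℤ) - (k * X c : ℕ))
      else bif Nat.beq t b then 2 * (((P - k * X a : ℕ) : ℤ) * ((k * X c - P : ℕ) : ℤ))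
      else ((P - k * X a : ℕ) : ℤ) * ((P - k * X b : ℕ) : ℤ))) /
      ((2 * ((k * X b - k * X a) * (k * X b - k * X a)) : ℕ) : ℤ)
  else 0

def WgStmt : Prop :=
  ∀ (k S J : ℕ) (X : ℕ → ℕ) (a b c P : ℕ) (τ : ℝ), 0 < τ → τ ≤ 1 →
    ∑ t ∈ range J, (wg k S J X a b c P t : ℝ) * τ ^ (k * X t) ≤ S * τ ^ P

/-- 1 + B + ... + B ^ (K - 1) -/
def geo (B K : ℕ) : ℕ := (B ^ K - 1) / (B - 1)

/-- the digit of index j + k n in base 2 ^ W -/
def dg (W k x j n : ℕ) : ℕ :=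
  Nat.shiftRight (Nat.shiftRight x (W * k * n) % 2 ^ (W * k)) (W * j) % 2 ^ W

/-- entries of a packed matrix -/
def um (b N off : ℕ) (x : ℤ) (n m : ℕ) : ℤ :=
  (((x + (off * geo b (N * N) : ℕ)).toNat / b ^ (N * n + m) % b : ℕ) : ℤ) - off

def DigStmt : Prop :=
  (∀ (W k N M off y : ℕ) (g : Polynomial ℤ) (x : ℤ), PP (2 ^ W) (k * N) g x M → M ≤ off →
    off + M < 2 ^ W → 0 ≤ x + (off * geo (2 ^ W) (k * N) + (2 ^ W) ^ (k * N) * y : ℕ) →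
    ∀ j < k, ∀ n < N,
      (dg W k (x + (off * geo (2 ^ W) (k * N) + (2 ^ W) ^ (k * N) * y : ℕ)).toNat j n : ℤ) =
        g.coeff (j + k * n) + off) ∧
  ∀ (b N M off : ℕ) (A : ℕ → ℕ → ℤ), (∀ n < N, ∀ m < N, |A n m| ≤ M) → M ≤ off → off + M < b →
    ∀ n < N, ∀ m < N,
      um b N off (∑ n ∈ range N, ∑ m ∈ range N, A n m * (b : ℤ) ^ (N * n + m)) n m = A n m

end Pool.Agent.MP_757d88_an
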