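import Pool.Agent.MP_757d88_an.Defs2

/-! Reading digits of packed integers. -/

set_option autoImplicit false

namespace Pool.Agent.MP_757d88_an

open Finset

theorem dig_low {B : ℤ} {d : ℕ → ℤ} {K : ℕ} (h : ∀ i < K, 0 ≤ d i ∧ d i < B) :
    0 ≤ ∑ i ∈ range K, d i * B ^ i ∧ ∑ i ∈ range K, d i * B ^ i < B ^ K := by
  induction K with
  | zero => simp
  | succ K ih =>
    obtain ⟨h1, h2⟩ := ih fun i hi => h i (by omega)
    obtain ⟨h3, h4⟩ := h K (by omega)
    have h5 : 0 < B ^ K := h1.trans_lt h2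
    rw [sum_range_succ, pow_succ]
    constructor
    · positivity
    · nlinarith

theorem dig_int {B : ℤ} {d : ℕ → ℤ} {K : ℕ} (h : ∀ i < K, 0 ≤ d i ∧ d i < B) (z : ℤ) :
    ∀ p < K, (∑ i ∈ range K, d i * B ^ i + B ^ K * z) / B ^ p % B = d p := by
  induction K generalizing z with
  | zero => simp
  | succ K ih =>
    intro p hp
    have e : ∑ i ∈ range (K + 1), d i * B ^ i + B ^ (K + 1) * z =
        ∑ i ∈ range K, d i * B ^ i + B ^ K * (d K + B * z) := by
      rw [sum_range_succ]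
      ring
    rw [e]
    rcases (Nat.lt_succ_iff.mp hp).eq_or_lt with rfl | hp'
    · obtain ⟨h1, h2⟩ := dig_low fun i (hi : i < p) => h i (by omega)
      obtain ⟨h3, h4⟩ := h p (by omega)
      rw [Int.add_mul_ediv_left _ _ (h1.trans_lt h2).ne', Int.ediv_eq_zero_of_lt h1 h2, zero_add,
        Int.add_mul_emod_self_left, Int.emod_eq_of_lt h3 h4]
    · exact ih (fun i hi => h i (by omega)) _ p hp'

theorem dig_geo {B K off M : ℕ} (h : off + M < B) :
    ((off * geo B K : ℕ) : ℤ) = ∑ i ∈ range K, (off : ℤ) * (B : ℤ) ^ i := by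
  rcases Nat.eq_zero_or_pos off with rfl | h0
  · simp
  · rw [geo, ← Nat.geomSum_eq (by omega) K]
    push_cast
    rw [mul_sum]

theorem dig_core {B K M off : ℕ} {c : ℕ → ℤ} {T : ℤ} (z : ℤ) (hc : ∀ i < K, |c i| ≤ M)
    (h1 : M ≤ off) (h2 : off + M < B) (hT : 0 ≤ T)
    (e : T = ∑ i ∈ range K, c i * (B : ℤ) ^ i + (off * geo B K : ℕ) + (B : ℤ) ^ K * z) :
    ∀ p < K, ((T.toNat / B ^ p % B : ℕ) : ℤ) = c p + off := by
  intro p hp
  push_cast
  rw [Int.toNat_of_nonneg hT, e, dig_geo h2, ← sum_add_distrib]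
  simp only [← add_mul]
  refine dig_int (d := fun i => c i + off) (fun i hi => ?_) z p hp
  have := abs_le.mp (hc i hi)
  omega

theorem dig_sum (f : ℕ → ℤ) (N K : ℕ) :
    ∑ n ∈ range K, ∑ m ∈ range N, f (N * n + m) = ∑ p ∈ range (N * K), f p := by
  induction K with
  | zero => simp
  | succ K ih => rw [sum_range_succ, ih, Nat.mul_succ, sum_range_add]

theorem dig_dg (W k x : ℕ) {j : ℕ} (n : ℕ) (hj : j < k) :
    dg W k x j n = x / (2 ^ W) ^ (j + k * n) % 2 ^ W := by
  obtain ⟨l, rfl⟩ := Nat.exists_eq_add_of_lt hj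
  rw [dg, Nat.shiftRight_eq, Nat.shiftRight_eq, Nat.shiftRight_eq_div_pow,
    Nat.shiftRight_eq_div_pow,
    show 2 ^ (W * (j + l + 1)) = 2 ^ (W * j) * (2 ^ W * 2 ^ (W * l)) by ring,
    Nat.mod_mul_right_div_self, Nat.mod_mul_right_mod, Nat.div_div_eq_div_mul]
  congr 2
  ring

theorem dig : DigStmt := by
  constructor
  · intro W k N M off y g x hP h1 h2 h0 j hj n hn
    have hp : j + k * n < k * N := by
      calc j + k * n < k * (n + 1) := by rw [Nat.mul_succ]; omega
        _ ≤ k * N := Nat.mul_le_mul_left _ hn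
    rw [dig_dg _ _ _ _ hj]
    refine dig_core (c := g.coeff) ((∑ i ∈ range (g.natDegree + 1),
      g.coeff (k * N + i) * ((2 ^ W : ℕ) : ℤ) ^ i) + y) hP.2 h1 h2 h0 ?_ _ hp
    rw [← hP.1, Polynomial.eval_eq_sum_range' (n := k * N + (g.natDegree + 1)) (by omega),
      sum_range_add, mul_add, mul_sum]
    simp only [pow_add, Nat.cast_add, Nat.cast_mul, Nat.cast_pow]
    rw [add_right_comm, ← add_assoc, add_assoc, add_comm (_ * (y : ℤ))]
    congr 2
    exact sum_congr rfl fun i _ => by ring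
  · intro b N M off A hA h1 h2 n hn m hm
    have hp : N * n + m < N * N := by
      calc N * n + m < N * (n + 1) := by rw [Nat.mul_succ]; omega
        _ ≤ N * N := Nat.mul_le_mul_left _ hn
    have hN : 0 < N := by omega
    have e : ∑ n ∈ range N, ∑ m ∈ range N, A n m * (b : ℤ) ^ (N * n + m) =
        ∑ p ∈ range (N * N), A (p / N) (p % N) * (b : ℤ) ^ p := by
      rw [← dig_sum]
      refine sum_congr rfl fun n _ => sum_congr rfl fun m hm => ?_
      rw [Nat.mul_add_div hN, Nat.mul_add_mod, Nat.div_eq_of_lt (mem_range.mp hm),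
        Nat.mod_eq_of_lt (mem_range.mp hm), add_zero]
    have hc : ∀ p < N * N, |A (p / N) (p % N)| ≤ M := fun p hp =>
      hA _ (Nat.div_lt_of_lt_mul hp) _ (Nat.mod_lt _ hN)
    have h0 : 0 ≤ ∑ p ∈ range (N * N), A (p / N) (p % N) * (b : ℤ) ^ p +
        (off * geo b (N * N) : ℕ) := by
      rw [dig_geo h2, ← sum_add_distrib]
      refine sum_nonneg fun p hp => ?_
      have := abs_le.mp (hc p (mem_range.mp hp))
      rw [← add_mul]
      exact mul_nonneg (by omega) (by positivity)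
    rw [um, e, dig_core (c := fun p => A (p / N) (p % N)) 0 hc h1 h2 h0 (by simp) _ hp,
      Nat.mul_add_div hN, Nat.mul_add_mod, Nat.div_eq_of_lt hm, Nat.mod_eq_of_lt hm]
    simp

end Pool.Agent.MP_757d88_an
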