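import Pool.Agent.MP_757d88_an.EigOf
import Pool.Agent.MP_757d88_an.Alg

/-! From the integer checks to the test function inequality for aligned snowflakes. -/

set_option autoImplicit false

namespace Pool.Agent.MP_757d88_an

open Complex Metric Finset

variable {L n B K M : ℕ}

theorem Eqv.mul {f f' g g' : PowerSeries ℂ} (h : Eqv K f f') (h' : Eqv K g g') :
    Eqv K (f * g) (f' * g') := by
  have : f * g - f' * g' = (f - f') * g + f' * (g - g') := by ring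
  rw [Eqv, this]
  exact (Dvd.dvd.mul_right h _).add (Dvd.dvd.mul_left h' _)

theorem Eqv.rfl' (f : PowerSeries ℂ) : Eqv K f f := by simp [Eqv]

def eCk (n B K M : ℕ) (d E : List ℤ) : Bool :=
  okL M d && okL M E && decide (E.getD 0 0 = 1) &&
    zc B K ((pk n B d - 1 * (B : ℤ) ^ 0) * pk n B E - pk n B (wt 0 E)) (K * ((M + 1) * M) + K * M)

def mCk (n B K M L : ℕ) (E a b : List ℤ) : Bool :=
  okL M E && okL M a && okL M b &&
    zc B K (pk n B a * ((L : ℤ) * (B : ℤ) ^ 1 * pk n B E) - pk n B b) (K * (M * (K * (L * M))) + M)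

/-- the normalised block -/
noncomputable def psi (l : ℂ → ℂ) (z : ℂ) : ℂ := z * exp (l z - l 0)

theorem psi_diff {l : ℂ → ℂ} (hl : DifferentiableOn ℂ l (ball 0 1)) :
    DifferentiableOn ℂ (psi l) (ball 0 1) := differentiableOn_id.mul (hl.sub_const _).cexp

theorem psi_rep {l m : ℂ → ℂ} {d E : List ℤ} {S : ℕ → List ℤ} {N : ℕ}
    (hl : DifferentiableOn ℂ l (ball 0 1)) (hm : DifferentiableOn ℂ m (ball 0 1)) (m0 : m 0 = 0)
    (e : ∀ z ∈ ball (0 : ℂ) 1, exp (m z) = DL l z) (hd : Rep L K (fun z => exp (m z)) 0 d)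
    (hE : eCk n B K M d E = true) (h0 : S 0 = [1])
    (hS : ∀ j, j + 1 < N → mCk n B K M L E (S j) (S (j + 1)) = true) :
    ∀ j < N, Eqv K (RT L fun z => psi l z ^ j) (ph (tp (S j))) := by
  simp only [eCk, Bool.and_eq_true, decide_eq_true_eq] at hE
  obtain ⟨⟨⟨c1, c2⟩, c3⟩, c4⟩ := hE
  have d1 := ((((PP.list n c1).sub (PP.mon 1 0)).mul (PP.list n c2)).sub (PP.wt n c2)).dvd c4
  simp only [map_sub, map_mul, ph_wt, pow_zero, mul_one, map_one] at d1
  have ad : AnalyticAt ℂ (fun z => exp (m z)) 0 := (anal one_pos hm).cexp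
  have aE : AnalyticAt ℂ (fun z => exp (l z - l 0)) 0 := anal one_pos (hl.sub_const _).cexp
  have k : Eqv K (RT L fun z => exp (l z - l 0)) (ph (tp E)) := by
    refine ode_eqv (c := 1) (s := RT L (fun z => exp (m z)) - 1) (s' := ph (tp d) - 1) one_ne_zero
      ?_ ?_ ?_ ?_ (by simpa using d1)
    · rw [map_one, one_mul, ← RT_th aE, ← map_one PowerSeries.C, ← RT_const (L := L),
        ← RT_sub ad analyticAt_const, ← RT_mul (ad.fun_sub analyticAt_const) aE]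
      refine RT_congr fun z hz => ?_
      have h2 := (hl.differentiableAt (isOpen_ball.mem_nhds hz)).hasDerivAt
      rw [(h2.sub_const (l 0)).cexp.deriv, e z hz, DL]
      ring
    · rw [Eqv, sub_sub_sub_cancel_right]
      exact hd.to
    · simp [RT_zero, m0]
    · simp [RT_zero, ph_zero c3]
  have ap := anal one_pos (psi_diff hl)
  intro j
  induction j with
  | zero =>
    intro _
    simp only [pow_zero, RT_const, h0, tp, map_one, mul_zero, add_zero]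
    exact Eqv.rfl' _
  | succ j ih =>
    intro hj
    have h1 := hS j hj
    simp only [mCk, Bool.and_eq_true] at h1
    obtain ⟨⟨⟨a1, a2⟩, a3⟩, a4⟩ := h1
    have d2 := (((PP.list n a2).mul ((PP.mon L 1).mul (PP.list n a1))).sub (PP.list n a3)).dvd a4
    simp only [map_sub, map_mul, ph_C, ph_X, pow_one, Int.cast_natCast] at d2
    have h2 := (ih (by omega)).mul ((Eqv.rfl' (PowerSeries.C (L : ℂ) * PowerSeries.X)).mul k)
    rw [RT_congr (g := fun z => psi l z ^ j * (z * exp (l z - l 0))) fun z _ => pow_succ _ _,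
      RT_mul (g := fun z => z * exp (l z - l 0)) (ap.fun_pow j) (analyticAt_id.fun_mul aE),
      RT_mul (f := fun z => z) analyticAt_id aE, RT_id]
    have := Dvd.dvd.add h2 d2
    rwa [sub_add_sub_cancel] at this

theorem RT_sum {f : ℕ → ℂ → ℂ} {g : ℕ → PowerSeries ℂ} (c : ℕ → ℂ) (N : ℕ)
    (hf : ∀ m, AnalyticAt ℂ (f m) 0) (h : ∀ m < N, Eqv K (RT L (f m)) (g m)) :
    Eqv K (RT L fun z => ∑ m ∈ range N, c m * f m z) (∑ m ∈ range N, PowerSeries.C (c m) * g m) := by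
  induction N with
  | zero => simpa [RT_const] using Eqv.rfl' _
  | succ N ih =>
    simp only [sum_range_succ]
    rw [RT_add (Finset.analyticAt_fun_sum _ fun m _ => analyticAt_const.fun_mul (hf m))
      (analyticAt_const.fun_mul (hf N)), RT_mul analyticAt_const (hf N), RT_const, Eqv,
      add_sub_add_comm]
    exact Dvd.dvd.add (ih fun m hm => h m (by omega)) ((Eqv.rfl' _).mul (h N (by omega)))

theorem eig2_of (hD : DigStmt) (hP : PsdStmt) (hF : FmStmt) (hW : WgStmt) (hV : WinStmt) (p : Par)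
    {d P E : List ℤ} (hL : Last p.L (p.k * p.N) (1 / p.d) d P) (h : p.ck = true)
    (h0 : 0 < p.Sd ∧ 0 < p.L ∧ 0 < p.N ∧ 0 < p.Tt ∧ 0 < p.Sw ∧ 0 < p.bb ∧ 0 < p.kd)
    (h1 : p.q ≠ 0 ∧ p.c ≠ 0 ∧ 0 < p.d ∧ 1 ≤ p.k ∧ 0 < p.J ∧ 0 < p.a2 ∧ p.C 0 0 0 ≠ 0 ∧
      (∀ m < p.N, p.C 0 0 (m + 1) = 0) ∧ p.kd ^ p.q * p.d ^ 2 ≤ 1 ^ 2 * p.kn ^ p.q ∧ p.S 0 = [1])
    (hE : eCk n B (p.k * p.N) M d E = true)
    (hS : ∀ j, j + 1 < p.N → mCk n B (p.k * p.N) M p.L E (p.S j) (p.S (j + 1)) = true)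
    (hY : ∀ t < p.J, odeCk n B (p.k * p.N) M p.q p.c d P (p.X t) (p.Y t) = true) :
    Eig2 p.k (p.a / p.bb) := by
  obtain ⟨l, m, E', hE', l0, hm, m0, e1, hd, hP'⟩ := hL
  obtain ⟨hq, hc, hdd, hk1, hJ, ha2, hC0, hC1, hkk, hS0⟩ := h1
  have hq' : (p.q : ℝ) ≠ 0 := by exact_mod_cast hq
  have hq2 : (0 : ℝ) ≤ 2 / p.q := by positivity
  have he : (0 : ℝ) < 1 / p.d := by positivity
  have ha2' : (0 : ℝ) < p.a2 := by exact_mod_cast ha2
  have hc' : (0 : ℝ) < (p.c : ℝ) ^ 2 := by positivity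
  obtain ⟨nu, hnu⟩ : ∃ nu : ℂ → ℝ, nu = fun z => ∑ t ∈ range p.J,
    ((‖z‖ / (1 / p.d)) ^ (2 / p.q : ℝ)) ^ p.X t *
      ∑ r ∈ range p.N, ‖∑ m ∈ range p.N, (p.C t r m : ℂ) * (z * p.d) ^ m‖ ^ 2 := ⟨_, rfl⟩
  have c1 : Continuous nu := by
    rw [hnu]
    refine continuous_finsetSum _ fun t _ => Continuous.mul (Continuous.pow ?_ _) (by fun_prop)
    exact (continuous_norm.div_const _).rpow_const fun _ => Or.inr hq2
  obtain ⟨V, hV'⟩ := (isCompact_closedBall (0 : ℂ) 1).exists_bound_of_continuousOn c1.continuousOn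
  have a2e : (p.a2 : ℝ) = ∑ i ∈ range p.N, (p.A i : ℝ) ^ 2 := by
    simp only [Par.a2, sn_eq, Nat.cast_sum, Nat.cast_mul, Nat.cast_natAbs, Int.cast_abs,
      abs_mul_abs_self, sq]
  refine ⟨l, E', V, nu, fun u => (p.a2 : ℝ)⁻¹ *
    ‖∑ i ∈ range p.N, (p.A i : ℂ) * u ^ (p.k * i)‖ ^ 2, hE', c1, by fun_prop,
    fun u => by positivity, ?_, fun z z0 z1 => ⟨?_, (le_abs_self _).trans (hV' z (by
      simpa using z1.le))⟩, fun z z0 z1 => ?_⟩
  · rw [av_const_mul', hF.2.2.2 _ _ _ hk1, ← a2e, inv_mul_cancel₀ ha2'.ne']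
  · rw [hnu]
    refine sum_pos' (fun t _ => by positivity) ⟨0, mem_range.2 hJ, mul_pos (by positivity) ?_⟩
    refine sum_pos' (fun t _ => by positivity) ⟨0, mem_range.2 h0.2.2.1, ?_⟩
    rw [sum_eq_single 0]
    · simpa using pow_pos (abs_pos.2 (by exact_mod_cast hC0 : (p.C 0 0 0 : ℝ) ≠ 0)) 2
    · intro m hm m0
      obtain ⟨m, rfl⟩ := Nat.exists_eq_succ_of_ne_zero m0
      simp [hC1 m (by have := mem_range.1 hm; omega)]
    · simp [h0.2.2.1.ne']
  have ht : 0 < ‖z‖ ^ (2 / p.q : ℝ) := Real.rpow_pos_of_pos z0 _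
  have hc0 : 0 ≤ (1 / (1 / p.d : ℝ)) ^ (2 / p.q : ℝ) := by positivity
  have hk2 : (1 / (1 / p.d : ℝ)) ^ (2 / p.q : ℝ) * p.kd ≤ p.kn := by
    refine le_of_pow_le_pow_left₀ hq (Nat.cast_nonneg _) ?_
    rw [mul_pow, ← Real.rpow_natCast, ← Real.rpow_mul (by positivity), div_mul_cancel₀ _ hq',
      Real.rpow_two, one_div_one_div, mul_comm]
    rw [one_pow, one_mul] at hkk
    exact_mod_cast hkk
  have hw : ‖z ^ p.k‖ ≤ 1 := by
    rw [norm_pow]
    exact pow_le_one₀ (norm_nonneg _) z1.le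
  have h4 : (‖z‖ ^ (2 / p.q : ℝ)) ^ p.q = ‖z‖ ^ 2 := by
    rw [← Real.rpow_natCast, ← Real.rpow_mul z0.le, div_mul_cancel₀ _ hq', Real.rpow_two]
  have h2 := Par.alg hD hP hF hW h h0 hw ht (Real.rpow_le_one z0.le z1.le hq2) hc0
    (by rw [mul_comm p.k, pow_mul, h4, norm_pow, ← pow_mul, ← pow_mul, mul_comm]) hJ hk2
  have h3 : (‖z ^ p.k‖ / (1 / p.d)) ^ (2 / p.q : ℝ) =
      (‖z‖ ^ (2 / p.q : ℝ)) ^ p.k * (1 / (1 / p.d : ℝ)) ^ (2 / p.q : ℝ) := by
    rw [div_eq_mul_one_div, Real.mul_rpow (by positivity) (by positivity), norm_pow,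
      Real.rpow_pow_comm z0.le]
  have hps := psi_rep hE'.diff hm m0 e1 hd hE hS0 hS
  have ap := anal one_pos (psi_diff hE'.diff)
  obtain ⟨G, hG⟩ : ∃ G : ℕ → ℕ → ℂ → ℂ, G = fun i r x => yf l m p.q p.c (p.X i) x *
    ∑ j ∈ range p.N, (p.C i r j : ℂ) * psi l x ^ j := ⟨_, rfl⟩
  have dG : ∀ i r, DifferentiableOn ℂ (G i r) (ball 0 1) := fun i r => by
    rw [hG]
    exact (yf_diff hE'.diff hm _ _ _).mul (DifferentiableOn.fun_sum fun j _ =>
      ((psi_diff hE'.diff).pow j).const_mul _)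
  have cG : ∀ i < p.J, ∀ r, ∀ s < p.k * p.N, cf (G i r) s = (p.g i r s : ℝ) := by
    intro i hi r s hs
    have k1 : Eqv (p.k * p.N) (RT p.L (yf l m p.q p.c (p.X i))) (ph (tp (p.Y i))) :=
      eqv_iff.2 fun j hj => by
        rw [coeff_RT, coeff_ph, coeff_tp, ode_rep hq hE'.diff hm m0 e1 hd hP' (hY i hi) j hj]
    have k2 := k1.mul (RT_sum (fun j => (p.C i r j : ℂ)) p.N (fun j => ap.fun_pow j) hps)
    rw [← RT_mul (anal one_pos (yf_diff hE'.diff hm _ _ _)) (Finset.analyticAt_fun_sum _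
      fun j _ => analyticAt_const.fun_mul (ap.fun_pow j))] at k2
    have k3 := eqv_iff.1 k2 s hs
    simp only [← ph_C, ← map_mul, ← map_sum, coeff_ph, coeff_RT] at k3
    have hL0 : (p.L : ℂ) ^ s ≠ 0 := pow_ne_zero _ (by exact_mod_cast h0.2.1.ne')
    rw [Par.g, Par.poly, hG]
    push_cast
    rw [← k3, mul_div_cancel_left₀ _ hL0]
  have hb1 : ∀ u : ℂ, ‖u‖ = 1 → u * z ∈ ball (0 : ℂ) 1 := fun u hu => by simpa [hu] using z1
  have cc : ∀ i r, ContinuousOn (fun u : ℂ => (‖z‖ ^ (2 / p.q : ℝ)) ^ p.X i *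
      (‖∑ j ∈ range p.N, (p.A j : ℂ) * u ^ (p.k * j)‖ ^ 2 * ‖G i r (u * z)‖ ^ 2)) (sphere 0 1) :=
    fun i r => continuousOn_const.mul (ContinuousOn.mul (by fun_prop) (((dG i r).continuousOn.comp
      (by fun_prop) fun u hu => hb1 u (by simpa using hu)).norm.pow 2))
  rw [av_congr zero_le_one (G := fun u => ((p.a2 : ℝ) * (p.c : ℝ) ^ 2)⁻¹ * ∑ i ∈ range p.J,
    ∑ r ∈ range p.N, (‖z‖ ^ (2 / p.q : ℝ)) ^ p.X i *
      (‖∑ j ∈ range p.N, (p.A j : ℂ) * u ^ (p.k * j)‖ ^ 2 * ‖G i r (u * z)‖ ^ 2)), av_const_mul',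
    le_inv_mul_iff₀ (by positivity), hnu]
  · simp only [h3]
    refine h2.trans ?_
    rw [av, Real.circleAverage_fun_sum fun i _ => ci_of zero_le_one
      (continuousOn_finsetSum _ fun r _ => cc i r)]
    refine sum_le_sum fun i hi => ?_
    rw [Real.circleAverage_fun_sum fun r _ => ci_of zero_le_one (cc i r)]
    refine sum_le_sum fun r _ => ?_
    rw [← av, av_const_mul', h4]
    exact mul_le_mul_of_nonneg_left (hV _ _ p.A _ _ z hk1 (dG i r) (cG i (mem_range.1 hi) r) z1)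
      (pow_pos ht _).le
  · intro u hu
    have h5 : u * z * exp (l (u * z)) * p.d = psi l (u * z) := by
      rw [psi, exp_sub, l0, ← ofReal_exp, Real.exp_log he]
      push_cast
      rw [div_div_eq_mul_div, div_one, mul_assoc]
    have h6 : ‖u * z‖ = ‖z‖ := by rw [norm_mul, hu, one_mul]
    rw [← e1 _ (hb1 u hu), hnu, hG]
    simp only [h5, mul_sum]
    refine sum_congr rfl fun i _ => sum_congr rfl fun r _ => ?_
    have h7 := yf_sq (m := m) he l0 p.q p.c (p.X i) (u * z)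
    rw [h6] at h7
    rw [← mul_sum, norm_mul (yf _ _ _ _ _ _), mul_pow]
    generalize ‖∑ j ∈ range p.N, (p.A j : ℂ) * u ^ (p.k * j)‖ ^ 2 = x
    generalize ‖∑ j ∈ range p.N, (p.C i r j : ℂ) * psi l (u * z) ^ j‖ ^ 2 = y
    generalize ((‖u * z * exp (l (u * z))‖ / (1 / p.d)) ^ (2 / p.q : ℝ)) ^ p.X i = v at h7 ⊢
    field_simp
    linear_combination (-(x * y)) * h7

end Pool.Agent.MP_757d88_an
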