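import Pool.Agent.MP_757d88_an.Chain
import Pool.Agent.MP_757d88_an.Bins

/-! From the integer checks to the test function inequality. -/

set_option autoImplicit false

namespace Pool.Agent.MP_757d88_an

open Complex Metric Set

theorem yf_sq {l m : ℂ → ℂ} {e : ℝ} (he : 0 < e) (l0 : l 0 = (Real.log e : ℝ)) (q c i : ℕ) (z : ℂ) :
    (‖z‖ ^ (2 / q : ℝ)) ^ i * ‖yf l m q c i z‖ ^ 2 =
      (c : ℝ) ^ 2 * (‖exp (m z)‖ * ((‖z * exp (l z)‖ / e) ^ (2 / q : ℝ)) ^ i) := by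
  have h1 : ‖z * exp (l z)‖ / e = ‖z‖ * Real.exp ((l z).re - Real.log e) := by
    rw [norm_mul, norm_exp, Real.exp_sub, Real.exp_log he, mul_div_assoc]
  have h2 : (m z / 2 + (i / q : ℝ) * (l z - l 0)).re =
      (m z).re / 2 + i / q * ((l z).re - Real.log e) := by
    rw [add_re, re_ofReal_mul, sub_re, l0, ofReal_re, div_ofNat_re]
  rw [h1, Real.mul_rpow (norm_nonneg _) (Real.exp_pos _).le, ← Real.exp_mul, mul_pow,
    ← Real.exp_nat_mul, yf, norm_mul, norm_exp, norm_exp, h2, mul_pow, ← Real.exp_nat_mul,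
    Complex.norm_natCast]
  have h3 : ((2 : ℕ) : ℝ) * ((m z).re / 2 + i / q * ((l z).re - Real.log e)) =
      (m z).re + i * (((l z).re - Real.log e) * (2 / q)) := by
    push_cast
    ring
  rw [h3, Real.exp_add]
  ring

theorem one_pt {l m : ℂ → ℂ} {e s : ℝ} {q c i L K S v : ℕ} {y : List ℤ} (he : 0 < e)
    (l0 : l 0 = (Real.log e : ℝ)) (hq : q ≠ 0) (hc : c ≠ 0) (hL : L ≠ 0) (hs : 0 < s) (hs1 : s < 1)
    (hl : DifferentiableOn ℂ l (ball 0 1)) (hm : DifferentiableOn ℂ m (ball 0 1))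
    (hy : ∀ j < K, (L : ℂ) ^ j * cf (yf l m q c i) j = y.getD j 0) (hK : y.length ≤ K) :
    val (s ^ (2 / q : ℝ)) (wl q (L * L) (S * v) i (c * c) y) ≤
      S * av (fun z => ‖exp (m z)‖ * (v * ((‖z * exp (l z)‖ / e) ^ (2 / q : ℝ)) ^ i)) s := by
  have hq' : (q : ℝ) ≠ 0 := by exact_mod_cast hq
  have hc' : (c : ℝ) ≠ 0 := by exact_mod_cast hc
  have hL' : (L : ℝ) ≠ 0 := by exact_mod_cast hL
  have ht : 0 < s ^ (2 / q : ℝ) := Real.rpow_pos_of_pos hs _
  have h1 : (s ^ (2 / q : ℝ)) ^ q = s ^ 2 := by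
    rw [← Real.rpow_natCast, ← Real.rpow_mul hs.le, div_mul_cancel₀ _ hq', Real.rpow_two]
  refine (val_wl ht.le _ _ _ _ _ _).trans ?_
  rw [av_congr hs.le (G := fun z => (v * (s ^ (2 / q : ℝ)) ^ i / c ^ 2) * ‖yf l m q c i z‖ ^ 2),
    av_const_mul', h1]
  · have h2 := bessel hs hs1 (yf_diff hl hm q c i) y.length
    have h3 : ∑ j ∈ Finset.range y.length, ((y.getD j 0 : ℤ) : ℝ) ^ 2 /
        (((c * c : ℕ) : ℝ) * ((L * L : ℕ) : ℝ) ^ j) * (s ^ 2) ^ j = (1 / c ^ 2) *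
        ∑ j ∈ Finset.range y.length, ‖cf (yf l m q c i) j‖ ^ 2 * (s ^ 2) ^ j := by
      rw [Finset.mul_sum]
      refine Finset.sum_congr rfl fun j hj => ?_
      have h4 := congrArg (fun w => ‖w‖ ^ 2) (hy j ((Finset.mem_range.1 hj).trans_le hK))
      simp only [norm_mul, norm_pow, Complex.norm_natCast, Complex.norm_intCast, sq_abs] at h4
      rw [← h4]
      push_cast
      rw [mul_pow (L : ℝ) L]
      field_simp
    rw [h3]
    push_cast
    have h5 := mul_le_mul_of_nonneg_left h2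
      (show (0 : ℝ) ≤ S * (v * (s ^ (2 / q : ℝ)) ^ i / c ^ 2) by positivity)
    calc _ = _ := by ring
      _ ≤ _ := h5
      _ = _ := by ring
  · intro z hz
    have := yf_sq (m := m) he l0 q c i z
    rw [hz] at this
    field_simp
    linear_combination (-v : ℝ) * this

theorem eig_of {L K n B M q c S k a b kn kd : ℕ} {e : ℝ} {d P : List ℤ} (hL : Last L K e d P)
    (G : List (ℕ × ℕ × ℕ × List ℤ)) (he : 0 < e)
    (h0 : q ≠ 0 ∧ c ≠ 0 ∧ L ≠ 0 ∧ 0 < S ∧ 0 < b ∧ 0 < kd ∧ G ≠ [])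
    (hk : (kd : ℝ) ^ q ≤ e ^ 2 * (kn : ℝ) ^ q)
    (hG : ∀ g ∈ G, odeCk n B K M q c d P g.1 g.2.2.2 = true ∧ g.2.2.2.length ≤ K ∧ 0 < g.2.1)
    (hf : binCk k (a * S) b kn kd G
      (G.map fun g => wl q (L * L) (S * g.2.1) g.1 (c * c) g.2.2.2) = true) :
    Eig k (a / b) := by
  obtain ⟨l, m, E, hE, l0, hm, m0, e1, hd, hP⟩ := hL
  obtain ⟨hq, hc, hL, hS, hb, hkd, hne⟩ := h0
  have hq' : (q : ℝ) ≠ 0 := by exact_mod_cast hq
  have hq2 : (0 : ℝ) ≤ 2 / q := by positivity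
  have c1 : ∀ g : ℕ × ℕ × ℕ × List ℤ,
      Continuous fun s : ℝ => (g.2.1 : ℝ) * ((s / e) ^ (2 / q : ℝ)) ^ g.1 := fun g =>
    continuous_const.mul (((continuous_id.div_const e).rpow_const fun _ => Or.inr hq2).pow _)
  have c2 : ∀ G : List (ℕ × ℕ × ℕ × List ℤ), Continuous fun s : ℝ =>
      (G.map fun g => (g.2.1 : ℝ) * ((s / e) ^ (2 / q : ℝ)) ^ g.1).sum := fun G =>
    continuous_list_sum _ fun g _ => c1 g
  obtain ⟨V, hV⟩ := (isCompact_Icc (a := (0 : ℝ)) (b := 1)).exists_bound_of_continuousOn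
    (c2 G).continuousOn
  refine ⟨l, E, V, _, hE, c2 G, fun s hs hs1 => ⟨?_, (le_abs_self _).trans (hV s ⟨hs.le, hs1.le⟩)⟩,
    fun s hs hs1 => ?_⟩
  · refine List.sum_pos _ (fun x hx => ?_) (by simpa using hne)
    obtain ⟨g, hg, rfl⟩ := List.mem_map.1 hx
    have := (hG g hg).2.2
    positivity
  have hb1 : ∀ z : ℂ, ‖z‖ = s → z ∈ ball (0 : ℂ) 1 := fun z hz => by simpa [hz] using hs1
  rw [av_congr hs.le (G := fun z => ‖exp (m z)‖ * (G.map fun g => (g.2.1 : ℝ) *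
    ((‖z * exp (l z)‖ / e) ^ (2 / q : ℝ)) ^ g.1).sum) fun z hz => by rw [e1 z (hb1 z hz)]]
  have ht : 0 < s ^ (2 / q : ℝ) := Real.rpow_pos_of_pos hs _
  have hc0 : 0 ≤ (1 / e) ^ (2 / q : ℝ) := by positivity
  have hkk : (1 / e) ^ (2 / q : ℝ) * kd ≤ kn := by
    refine le_of_pow_le_pow_left₀ hq (Nat.cast_nonneg _) ?_
    rw [mul_pow, ← Real.rpow_natCast, ← Real.rpow_mul (by positivity), div_mul_cancel₀ _ hq',
      Real.rpow_two, one_div, inv_pow, inv_mul_le_iff₀ (by positivity)]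
    exact hk
  have h1 := bin_le ht (Real.rpow_le_one hs.le hs1.le hq2) hc0 hkk hkd G _ hf
  have h2 : (s ^ k / e) ^ (2 / q : ℝ) = (s ^ (2 / q : ℝ)) ^ k * (1 / e) ^ (2 / q : ℝ) := by
    rw [div_eq_mul_one_div, Real.mul_rpow (by positivity) (by positivity),
      Real.rpow_pow_comm hs.le]
  have cm : ContinuousOn (fun z => ‖exp (m z)‖) (sphere 0 s) := (sph hs1 hm).cexp.norm
  have cl : ContinuousOn (fun z => ‖z * exp (l z)‖) (sphere 0 s) :=
    (continuousOn_id.mul (sph hs1 hE.diff).cexp).norm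
  have h3 : ∀ G' : List (ℕ × ℕ × ℕ × List ℤ), (∀ g ∈ G', g ∈ G) →
      ((G'.map fun g => wl q (L * L) (S * g.2.1) g.1 (c * c) g.2.2.2).map
        (val (s ^ (2 / q : ℝ)))).sum ≤ S * av (fun z => ‖exp (m z)‖ * (G'.map fun g =>
          (g.2.1 : ℝ) * ((‖z * exp (l z)‖ / e) ^ (2 / q : ℝ)) ^ g.1).sum) s := by
    intro G' hG'
    induction G' with
    | nil => simp [av, Real.circleAverage_const]
    | cons g G' ih =>
      have h4 := hG g (hG' g List.mem_cons_self)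
      have h5 := one_pt (S := S) (v := g.2.1) he l0 hq hc hL hs hs1 hE.diff hm
        (ode_rep hq hE.diff hm m0 e1 hd hP h4.1) h4.2.1
      have h6 := ih fun x hx => hG' x (List.mem_cons_of_mem _ hx)
      simp only [List.map_cons, List.sum_cons, mul_add]
      rw [av, Real.circleAverage_fun_add, mul_add]
      · exact add_le_add h5 h6
      · exact ci_of hs.le (cm.mul ((c1 g).comp_continuousOn cl))
      · exact ci_of hs.le (cm.mul ((c2 G').comp_continuousOn cl))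
  have h4 := mul_le_mul_of_nonneg_left (h3 G fun _ h => h) (Nat.cast_nonneg (α := ℝ) b)
  simp only [h2]
  rw [div_mul_eq_mul_div, div_le_iff₀ (by exact_mod_cast hb)]
  refine le_of_mul_le_mul_left ?_ (show (0 : ℝ) < S by exact_mod_cast hS)
  push_cast at h1
  linarith

end Pool.Agent.MP_757d88_an
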