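import Pool.Agent.MP_757d88_an.Tay

/-! A small polynomial that picks up the length of a level line. -/

set_option autoImplicit false

noncomputable section

namespace Pool.Agent.MP_757d88_an

open Complex Metric Set ComplexConjugate Function Filter Topology

namespace EtaA

theorem norm_av {F : ℂ → ℂ} (r : ℝ) : ‖av F r‖ ≤ av (fun z => ‖F z‖) r := by
  have hp : (0 : ℝ) ≤ 2 * Real.pi := by positivity
  rw [av, av, Real.circleAverage, Real.circleAverage, norm_smul, norm_inv, Real.norm_of_nonneg hp,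
    smul_eq_mul]
  exact mul_le_mul_of_nonneg_left (intervalIntegral.norm_integral_le_integral_norm hp)
    (inv_nonneg.2 hp)

theorem av_sum (s : Finset ℕ) (F : ℕ → ℂ → ℂ) (h : ∀ i, Continuous (F i)) :
    av (fun z => ∑ i ∈ s, F i z) 1 = ∑ i ∈ s, av (F i) 1 :=
  Real.circleAverage_fun_sum fun i _ => ci_of zero_le_one (h i).continuousOn

theorem av_add_const {F : ℂ → ℝ} (h : Continuous F) (c : ℝ) :
    av (fun z => F z + c) 1 = av F 1 + c := by
  rw [av, Real.circleAverage_fun_add (ci_of zero_le_one h.continuousOn)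
    (ci_of zero_le_one continuousOn_const), Real.circleAverage_const]

theorem Tay_pow (k : ℕ) : Tay (fun z => z ^ k) = PowerSeries.X ^ k := by
  induction k with
  | zero => simpa using Tay_const 1
  | succ k ih =>
    simp only [pow_succ]
    rw [Tay_mul (f := fun z => z ^ k) (g := fun z => z) (by fun_prop) (by fun_prop), ih, Tay_id]

theorem Tay_poly (s : Finset ℕ) (c : ℕ → ℂ) (e : ℕ → ℕ) :
    Tay (fun z => ∑ i ∈ s, c i * z ^ e i) =
      ∑ i ∈ s, PowerSeries.C (c i) * PowerSeries.X ^ e i := by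
  induction s using Finset.induction_on with
  | empty => simpa using Tay_const 0
  | insert a s ha ih =>
    simp only [Finset.sum_insert ha]
    rw [Tay_add (f := fun z => c a * z ^ e a) (g := fun z => ∑ i ∈ s, c i * z ^ e i)
      (by fun_prop) (by fun_prop), ih,
      Tay_mul (f := fun _ => c a) (g := fun z => z ^ e a) (by fun_prop) (by fun_prop),
      Tay_const, Tay_pow]

theorem cf_eta {P : ℂ → ℂ} (hP : AnalyticAt ℂ P 0) (M : ℕ) (c c' : ℕ → ℂ) :
    cf (fun w => P w * (∑ j ∈ Finset.range (M + 1), c j * w ^ (M + 1 - j) +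
      ∑ j ∈ Finset.range M, c' j * w ^ (M + 2 + j))) (M + 1) =
      ∑ j ∈ Finset.range (M + 1), c j * cf P j := by
  rw [← coeff_Tay, Tay_mul hP (by fun_prop), Tay_add (by fun_prop) (by fun_prop), Tay_poly,
    Tay_poly, mul_add, Finset.mul_sum, Finset.mul_sum, map_add, map_sum, map_sum,
    Finset.sum_eq_zero (s := Finset.range M), add_zero]
  · refine Finset.sum_congr rfl fun j hj => ?_
    have := Finset.mem_range.1 hj
    rw [mul_left_comm, PowerSeries.coeff_C_mul, PowerSeries.coeff_mul_X_pow', if_pos (by omega),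
      coeff_Tay, show M + 1 - (M + 1 - j) = j by omega]
  · intro j _
    rw [mul_left_comm, PowerSeries.coeff_C_mul, PowerSeries.coeff_mul_X_pow', if_neg (by omega),
      mul_zero]

theorem tail {P : ℂ → ℂ} {E ρ : ℝ} {M : ℕ} (hP : DifferentiableOn ℂ P (ball 0 1)) (hE : 1 ≤ E)
    (hc : ∀ j, ‖cf P j‖ ≤ (j + 1) * E) (h0 : 0 < ρ) (h1 : ρ < 1)
    (hM : 4 * ((M + 2) * ρ ^ (M + 1)) ≤ (1 - ρ) ^ 2) {z : ℂ} (hz : ‖z‖ = ρ) :
    ‖P z‖ ≤ ‖∑ j ∈ Finset.range (M + 1), cf P j * z ^ j‖ + E / 4 := by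
  have a1 := (hasSum_nat_add_iff' (M + 1)).2 (hasSum_cf hP (z := z) (by simpa [hz] using h1))
  have a2 := (hasSum_choose_mul_geometric_of_norm_lt_one 1
    (show ‖ρ‖ < 1 by rwa [Real.norm_of_nonneg h0.le])).mul_left (E * ((M + 2) * ρ ^ (M + 1)))
  have a3 := a1.norm_le_of_bounded a2 fun n => by
    rw [norm_mul, norm_pow, hz, Nat.choose_one_right, pow_add]
    refine (mul_le_mul_of_nonneg_right (hc _) (by positivity)).trans ?_
    push_cast
    have b1 : (n + (M + 1) + 1 : ℝ) ≤ (M + 2) * (n + 1) := by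
      nlinarith [mul_nonneg (Nat.cast_nonneg (α := ℝ) n) (Nat.cast_nonneg (α := ℝ) M),
        Nat.cast_nonneg (α := ℝ) n]
    refine (mul_le_mul_of_nonneg_right (mul_le_mul_of_nonneg_right b1 (by linarith))
      (by positivity)).trans_eq ?_
    ring
  have a4 : E * ((M + 2) * ρ ^ (M + 1)) * (1 / (1 - ρ) ^ (1 + 1)) ≤ E / 4 := by
    have b1 : 0 < (1 - ρ) ^ (1 + 1) := pow_pos (by linarith) _
    rw [mul_one_div, div_le_iff₀ b1]
    nlinarith
  have a5 := norm_sub_norm_le (P z) (∑ j ∈ Finset.range (M + 1), cf P j * z ^ j)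
  linarith

theorem kernel {ρ : ℝ} {M : ℕ} (h1 : ρ < 1)
    (hM : 4 * ((M + 2) * ρ ^ (M + 1)) ≤ (1 - ρ) ^ 2) {q : ℂ} (hq : ‖q‖ = ρ) :
    -(1 / 2) ≤ 2 * (∑ j ∈ Finset.range (M + 1), q ^ j).re - 1 := by
  have h0 : 0 ≤ ρ := hq ▸ norm_nonneg q
  have a1 : 1 - ρ ≤ ‖1 - q‖ := by simpa [hq] using norm_sub_norm_le 1 q
  have a2 : 0 < ‖1 - q‖ := by linarith
  have a3 : 1 - q ≠ 0 := norm_pos_iff.1 a2
  have e : ∑ j ∈ Finset.range (M + 1), q ^ j = (1 - q)⁻¹ - q ^ (M + 1) / (1 - q) := by
    have := mul_neg_geom_sum q (M + 1)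
    field_simp
    linear_combination this
  have a4 : 1 / 2 ≤ ((1 - q)⁻¹).re := by
    have b1 : 0 < normSq (1 - q) := normSq_pos.2 a3
    have b2 : normSq q ≤ 1 := by rw [← Complex.sq_norm, hq]; nlinarith
    rw [inv_re, le_div_iff₀ b1]
    simp only [normSq_apply, sub_re, sub_im, one_re, one_im] at b2 ⊢
    nlinarith
  have a5 : (q ^ (M + 1) / (1 - q)).re ≤ 1 / 4 := by
    refine (re_le_norm _).trans ?_
    rw [norm_div, norm_pow, hq, div_le_iff₀ a2]
    have b1 : 0 ≤ (M + 1 : ℝ) * ρ ^ (M + 1) := by positivity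
    nlinarith
  rw [e, sub_re]
  linarith

end EtaA

open EtaA in
theorem eta : EtaStmt := by
  intro P E ρ M hP hE hc h0 h1 hM
  obtain ⟨S, hS⟩ : ∃ S : ℂ → ℂ, S = fun x => ∑ j ∈ Finset.range (M + 1), cf P j * (x * ρ) ^ j :=
    ⟨_, rfl⟩
  have cS : Continuous S := by rw [hS]; fun_prop
  obtain ⟨σ, hσ⟩ : ∃ σ : ℂ → ℂ, σ = fun x => conj (S x) / ((‖S x‖ + 1 : ℝ) : ℂ) := ⟨_, rfl⟩
  have p1 : ∀ x, 0 < ‖S x‖ + 1 := fun x => by positivity
  have cσ : Continuous σ := by
    rw [hσ]
    exact Continuous.div (by fun_prop) (by fun_prop) fun x => ofReal_ne_zero.2 (p1 x).ne'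
  have σ1 : ∀ x, ‖σ x‖ ≤ 1 := fun x => by
    rw [hσ, norm_div, RCLike.norm_conj, Complex.norm_real, Real.norm_of_nonneg (p1 x).le,
      div_le_one (p1 x)]
    linarith
  have σ2 : ∀ x, ‖S x‖ ≤ (σ x * S x).re + 1 := fun x => by
    have e : σ x * S x = ((‖S x‖ ^ 2 / (‖S x‖ + 1) : ℝ) : ℂ) := by
      rw [hσ, div_mul_eq_mul_div, Complex.conj_mul']
      push_cast
      rfl
    rw [e, ofReal_re, ← sub_le_iff_le_add, le_div_iff₀ (p1 x)]
    nlinarith
  obtain ⟨η, hη⟩ : ∃ η : ℂ → ℂ, η = fun w => ∑ j ∈ Finset.range (M + 1),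
      (ρ : ℂ) ^ j * av (fun x => σ x * x ^ j) 1 * w ^ (M + 1 - j) +
    ∑ j ∈ Finset.range M, (ρ : ℂ) ^ (j + 1) * av (fun x => σ x * conj x ^ (j + 1)) 1 *
      w ^ (M + 2 + j) := ⟨_, rfl⟩
  have dη : Differentiable ℂ η := by rw [hη]; fun_prop
  refine ⟨η, dη, ?_, fun w hw => ?_, ?_⟩
  · rw [hη]
    beta_reduce
    rw [Finset.sum_eq_zero, Finset.sum_eq_zero, add_zero]
    · intro j _
      rw [zero_pow (by omega), mul_zero]
    · intro j hj
      have := Finset.mem_range.1 hj
      rw [zero_pow (by omega), mul_zero]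
  · refine norm_le_of_forall_mem_frontier_norm_le isBounded_ball
      dη.diffContOnCl (fun w hw => ?_) (subset_closure hw)
    rw [frontier_ball _ one_ne_zero, mem_sphere_zero_iff_norm] at hw
    have hw1 : w * conj w = 1 := by rw [Complex.mul_conj', hw]; simp
    obtain ⟨T, hT⟩ : ∃ T : ℂ → ℂ, T = fun y : ℂ => ∑ j ∈ Finset.range (M + 1), (ρ * y) ^ j :=
      ⟨_, rfl⟩
    have dT : Differentiable ℂ T := by rw [hT]; fun_prop
    have cT := dT.continuous
    have e : η w =
        av (fun x => w ^ (M + 1) * σ x * ((2 * (T (x * conj w)).re - 1 : ℝ) : ℂ)) 1 := by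
      have e1 : ∀ x : ℂ, w ^ (M + 1) * σ x * ((2 * (T (x * conj w)).re - 1 : ℝ) : ℂ) =
          ∑ j ∈ Finset.range (M + 1), (ρ : ℂ) ^ j * w ^ (M + 1 - j) * (σ x * x ^ j) +
          ∑ j ∈ Finset.range M, (ρ : ℂ) ^ (j + 1) * w ^ (M + 2 + j) *
            (σ x * conj x ^ (j + 1)) := fun x => by
        rw [ofReal_sub, ← Complex.add_conj, hT, ofReal_one, add_sub_assoc, mul_add]
        congr 1
        · rw [Finset.mul_sum]
          refine Finset.sum_congr rfl fun j hj => ?_
          have := Finset.mem_range.1 hj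
          rw [show w ^ (M + 1) = w ^ (M + 1 - j) * w ^ j by rw [← pow_add]; congr 1; omega]
          have b1 : w ^ j * conj w ^ j = 1 := by rw [← mul_pow, hw1, one_pow]
          linear_combination ((ρ : ℂ) ^ j * w ^ (M + 1 - j) * σ x * x ^ j) * b1
        · simp only [Finset.sum_range_succ', pow_zero, map_add, map_one, add_sub_cancel_right,
            map_sum, Finset.mul_sum, map_pow, map_mul, conj_ofReal, conj_conj]
          exact Finset.sum_congr rfl fun j _ => by ring
      simp only [e1, hη]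
      symm
      rw [av, Real.circleAverage_fun_add (ci_of zero_le_one (by fun_prop))
        (ci_of zero_le_one (by fun_prop)), ← av, ← av,
        av_sum _ (fun j x => (ρ : ℂ) ^ j * w ^ (M + 1 - j) * (σ x * x ^ j)) (fun _ => by fun_prop),
        av_sum _ (fun j x => (ρ : ℂ) ^ (j + 1) * w ^ (M + 2 + j) * (σ x * conj x ^ (j + 1)))
          (fun _ => by fun_prop)]
      simp only [av_const_mul]
      congr 1 <;> exact Finset.sum_congr rfl fun j _ => by ring
    rw [e]
    refine (norm_av 1).trans ?_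
    refine (av_mono (G := fun x => (fun y => 2 * (T y).re) (x * conj w)) zero_le_one
      (by fun_prop) (by fun_prop) fun x hx => ?_).trans_eq ?_
    · have b1 := kernel h1 hM (q := ρ * (x * conj w)) (by simp [hx, hw, abs_of_pos h0])
      have b2 : |2 * (T (x * conj w)).re - 1| ≤ 2 * (T (x * conj w)).re := by
        rw [hT, abs_le]
        constructor <;> linarith
      rw [norm_mul, norm_mul, norm_pow, hw, one_pow, one_mul, Complex.norm_real, Real.norm_eq_abs]
      exact (mul_le_of_le_one_left (abs_nonneg _) (σ1 x)).trans b2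
    · rw [av_rot (fun y => 2 * (T y).re), RCLike.norm_conj, hw, av_const_mul',
        av_re zero_le_one cT.continuousOn, av_hol zero_le_one one_lt_two dT.differentiableOn, hT]
      simp [Finset.sum_range_succ']
  · simp only [hη]
    rw [cf_eta (anal one_pos hP)]
    have e : ∑ j ∈ Finset.range (M + 1), (ρ : ℂ) ^ j * av (fun x => σ x * x ^ j) 1 * cf P j =
        av (fun x => σ x * S x) 1 := by
      have e1 : ∀ x, σ x * S x =
          ∑ j ∈ Finset.range (M + 1), (ρ : ℂ) ^ j * cf P j * (σ x * x ^ j) := fun x => by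
        rw [hS, Finset.mul_sum]
        exact Finset.sum_congr rfl fun j _ => by ring
      simp only [e1]
      rw [av_sum _ (fun j x => (ρ : ℂ) ^ j * cf P j * (σ x * x ^ j)) fun _ => by fun_prop]
      simp only [av_const_mul]
      exact Finset.sum_congr rfl fun j _ => by ring
    have a1 := av_rot (fun w => ‖P w‖) ρ
    rw [Complex.norm_real, Real.norm_of_nonneg h0.le] at a1
    have hn : ∀ x : ℂ, ‖x‖ = 1 → ‖x * ρ‖ = ρ := fun x hx => by simp [hx, abs_of_pos h0]
    have a2 : av (fun x => ‖P (x * ρ)‖) 1 ≤ av (fun x => (σ x * S x).re + (1 + E / 4)) 1 := by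
      refine av_mono zero_le_one ?_ (by fun_prop) fun x hx => ?_
      · refine ((sph h1 hP).comp (f := fun x : ℂ => x * (ρ : ℂ)) (by fun_prop) fun x hx => ?_).norm
        rw [mem_sphere_zero_iff_norm] at hx ⊢
        exact hn x hx
      · have b1 := tail hP hE hc h0 h1 hM (hn x hx)
        have b2 := σ2 x
        rw [hS] at b2 ⊢
        linarith
    rw [av_add_const (by fun_prop), av_re zero_le_one (by fun_prop), a1] at a2
    rw [e]
    linarith [re_le_norm (av (fun x => σ x * S x) 1)]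

end Pool.Agent.MP_757d88_an
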