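import Pool.Agent.MP_757d88_an.Defs

/-! From long level lines to large coefficients. -/

set_option autoImplicit false

noncomputable section

namespace Pool.Agent.MP_757d88_an

open Complex Metric Set Filter Topology

lemma xfin_cf_le {f : ℂ → ℂ} {C : ℝ} (hf : DifferentiableOn ℂ f (ball 0 1))
    (hC : ∀ z ∈ ball (0 : ℂ) 1, ‖f z‖ ≤ C) (n : ℕ) : ‖cf f n‖ ≤ C := by
  have hfac : (0 : ℝ) < n.factorial := by exact_mod_cast n.factorial_pos
  have h1 : ∀ r : ℝ, 0 < r → r < 1 → ‖cf f n‖ * r ^ n ≤ C := by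
    intro r hr0 hr1
    have hd : DiffContOnCl ℂ f (ball 0 r) := by
      refine DifferentiableOn.diffContOnCl (hf.mono ?_)
      rw [closure_ball _ hr0.ne']
      exact closedBall_subset_ball hr1
    have := Complex.norm_iteratedDeriv_le_of_forall_mem_sphere_norm_le n hr0 hd
      (fun z hz => hC z (closedBall_subset_ball hr1 (sphere_subset_closedBall hz)))
    rw [le_div_iff₀ (pow_pos hr0 n)] at this
    rw [cf, norm_div, Complex.norm_natCast, div_mul_eq_mul_div, div_le_iff₀ hfac]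
    linarith
  have t1 : Tendsto (fun r : ℝ => ‖cf f n‖ * r ^ n) (𝓝[<] 1) (𝓝 (‖cf f n‖ * 1 ^ n)) :=
    ((continuous_const.mul (continuous_pow n)).tendsto 1).mono_left nhdsWithin_le_nhds
  rw [one_pow, mul_one] at t1
  refine le_of_tendsto t1 ?_
  filter_upwards [Ioo_mem_nhdsLT (zero_lt_one' ℝ)] with r hr
  exact h1 r hr.1 hr.2

lemma xfin_zderiv {f : ℂ → ℂ} (hf : AnalyticAt ℂ f 0) (n : ℕ) :
    iteratedDeriv n (fun z => z * deriv f z) 0 = n * iteratedDeriv n f 0 := by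
  rw [iteratedDeriv_fun_mul (f := fun z : ℂ => z) (g := deriv f) contDiffAt_id
    hf.deriv.contDiffAt]
  simp only [iteratedDeriv_fun_id_zero]
  rcases n with _ | n
  · simp
  · rw [Finset.sum_eq_single 1]
    · simp [iteratedDeriv_succ']
    · intro b _ hb
      simp [hb]
    · intro h
      exact absurd (Finset.mem_range.2 (by omega)) h

lemma xfin_diffDL {L : ℂ → ℂ} (hL : DifferentiableOn ℂ L (ball 0 1)) :
    DifferentiableOn ℂ (DL L) (ball 0 1) :=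
  (differentiableOn_id.mul (hL.deriv isOpen_ball)).const_add 1

lemma xfin_cfP {L : ℂ → ℂ} {E : ℝ} (h : Good L E) (j : ℕ) :
    ‖cf (fun w => exp (-L w) * DL L w) j‖ ≤ (j + 1) * E := by
  have hG : DifferentiableOn ℂ (fun w => exp (-L w)) (ball 0 1) := h.diff.neg.cexp
  have h0 : ball (0 : ℂ) 1 ∈ 𝓝 (0 : ℂ) := ball_mem_nhds _ one_pos
  have hGa : AnalyticAt ℂ (fun w => exp (-L w)) 0 := hG.analyticAt h0
  have he : (fun w => exp (-L w) * DL L w) =ᶠ[𝓝 0]
      fun w => exp (-L w) - w * deriv (fun w => exp (-L w)) w := by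
    filter_upwards [h0] with w hw
    have hd := (h.diff.differentiableAt (isOpen_ball.mem_nhds hw)).hasDerivAt.neg.cexp
    have e : deriv (fun w => exp (-L w)) w = exp (-L w) * -deriv L w := hd.deriv
    rw [e, DL]
    ring
  have e1 : cf (fun w => exp (-L w) * DL L w) j = (1 - j) * cf (fun w => exp (-L w)) j := by
    have hz : AnalyticAt ℂ (fun w => w * deriv (fun w => exp (-L w)) w) 0 :=
      analyticAt_id.mul hGa.deriv
    rw [cf, cf, he.iteratedDeriv_eq, iteratedDeriv_fun_sub hGa.contDiffAt hz.contDiffAt,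
      xfin_zderiv hGa]
    ring
  have e2 := xfin_cf_le hG h.bd j
  have e3 : ‖(1 - j : ℂ)‖ ≤ j + 1 := by
    have := norm_sub_le (1 : ℂ) j
    rw [norm_one, Complex.norm_natCast] at this
    linarith
  rw [e1, norm_mul]
  exact mul_le_mul e3 e2 (norm_nonneg _) (by positivity)

lemma xfin_av {L : ℂ → ℂ} {E ρ : ℝ} (h : Good L E) (h0 : 0 < ρ) (h1 : ρ < 1) :
    ρ * av (fun w => ‖DL L w‖) ρ ≤ av (fun w => ‖exp (-L w) * DL L w‖) ρ := by
  have hsub : sphere (0 : ℂ) ρ ⊆ ball 0 1 :=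
    sphere_subset_closedBall.trans (closedBall_subset_ball h1)
  have hD : ContinuousOn (DL L) (sphere 0 ρ) := (xfin_diffDL h.diff).continuousOn.mono hsub
  have hG : ContinuousOn (fun w => exp (-L w)) (sphere 0 ρ) :=
    (h.diff.neg.cexp).continuousOn.mono hsub
  have e : ρ * av (fun w => ‖DL L w‖) ρ = av (fun w => ρ • ‖DL L w‖) ρ := by
    rw [av, av, Real.circleAverage_fun_smul, smul_eq_mul]
  rw [e]
  refine Real.circleAverage_mono ((hD.norm.const_smul ρ).circleIntegrable h0.le)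
    ((hG.mul hD).norm.circleIntegrable h0.le) ?_
  intro w hw
  rw [abs_of_pos h0] at hw
  have hw1 : ‖w‖ = ρ := by simpa using hw
  have h2 := h.lt w (hsub hw)
  rw [norm_mul, hw1] at h2
  have h3 : ‖exp (L w)‖ * ‖exp (-L w)‖ = 1 := by
    rw [← norm_mul, ← exp_add]
    simp
  have h4 : ρ ≤ ‖exp (-L w)‖ := by
    have a1 := norm_nonneg (exp (-L w))
    have a2 : ρ * ‖exp (L w)‖ * ‖exp (-L w)‖ ≤ 1 * ‖exp (-L w)‖ :=
      mul_le_mul_of_nonneg_right h2.le a1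
    rw [mul_assoc, h3] at a2
    linarith
  rw [smul_eq_mul, norm_mul]
  exact mul_le_mul_of_nonneg_right h4 (norm_nonneg _)

lemma xfin_ev {θ : ℝ} (hθ : 0 < θ) : ∀ᶠ x : ℝ in atTop, 48 * x ^ 3 ≤ Real.exp (x ^ θ) := by
  have t1 := ((tendsto_exp_div_rpow_atTop (3 / θ)).comp (tendsto_rpow_atTop hθ)).eventually
    (eventually_ge_atTop 48)
  filter_upwards [t1, eventually_gt_atTop 0] with x hx hx0
  have e : (x ^ θ) ^ (3 / θ) = x ^ 3 := by
    rw [← Real.rpow_mul hx0.le, mul_div_cancel₀ _ hθ.ne']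
    exact_mod_cast Real.rpow_natCast x 3
  simp only [Function.comp] at hx
  rw [e, le_div_iff₀ (pow_pos hx0 3)] at hx
  exact hx

lemma xfin_rho {θ K : ℝ} {M : ℕ} (hθ : 0 < θ) (hM : (1 : ℝ) ≤ M) (hK : 1 ≤ K)
    (hKM : K ≤ (M : ℝ) ^ (1 - θ)) (hev : 48 * (M : ℝ) ^ 3 ≤ Real.exp ((M : ℝ) ^ θ)) :
    4 * ((M + 2) * Real.exp (-1 / K) ^ (M + 1)) ≤ (1 - Real.exp (-1 / K)) ^ 2 := by
  have hM0 : (0 : ℝ) < M := by linarith
  have hK0 : 0 < K := by linarith
  have hKM' : K ≤ M := by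
    have := Real.rpow_le_rpow_of_exponent_le hM (show 1 - θ ≤ 1 by linarith)
    rw [Real.rpow_one] at this
    linarith
  have h1 : Real.exp (-1 / K) ≤ 1 - 1 / (2 * M) := by
    have a1 : 1 / K + 1 ≤ Real.exp (1 / K) := Real.add_one_le_exp _
    have a2 : Real.exp (-1 / K) = (Real.exp (1 / K))⁻¹ := by
      rw [← Real.exp_neg, neg_div]
    have a3 : (Real.exp (1 / K))⁻¹ ≤ (1 / K + 1)⁻¹ := inv_anti₀ (by positivity) a1
    have a4 : (1 / K + 1)⁻¹ = 1 - 1 / (K + 1) := by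
      field_simp
      ring
    have a5 : 1 / (2 * (M : ℝ)) ≤ 1 / (K + 1) :=
      one_div_le_one_div_of_le (by positivity) (by linarith)
    linarith
  have h2 : (1 / (2 * (M : ℝ))) ^ 2 ≤ (1 - Real.exp (-1 / K)) ^ 2 :=
    pow_le_pow_left₀ (by positivity) (by linarith) 2
  have h3 : Real.exp (-1 / K) ^ (M + 1) ≤ (Real.exp ((M : ℝ) ^ θ))⁻¹ := by
    rw [← Real.exp_nat_mul, ← Real.exp_neg]
    refine Real.exp_le_exp.2 ?_
    have a1 : (M : ℝ) ^ θ * (M : ℝ) ^ (1 - θ) = M := by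
      rw [← Real.rpow_add hM0]
      simp
    have a2 : (M : ℝ) ^ θ * K ≤ M := by
      have := mul_le_mul_of_nonneg_left hKM (Real.rpow_nonneg hM0.le θ)
      linarith
    have a3 : (M : ℝ) ^ θ ≤ (M + 1) / K := by
      rw [le_div_iff₀ hK0]
      linarith
    have a4 : ((M + 1 : ℕ) : ℝ) * (-1 / K) = -((M + 1) / K) := by
      push_cast
      ring
    rw [a4]
    linarith
  have h4 : (Real.exp ((M : ℝ) ^ θ))⁻¹ ≤ (48 * (M : ℝ) ^ 3)⁻¹ := inv_anti₀ (by positivity) hev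
  have h5 : ((M : ℝ) + 2) * Real.exp (-1 / K) ^ (M + 1) ≤ (3 * M) * (48 * (M : ℝ) ^ 3)⁻¹ :=
    mul_le_mul (by linarith) (h3.trans h4) (by positivity) (by positivity)
  have h6 : 4 * ((3 * M) * (48 * (M : ℝ) ^ 3)⁻¹) = (1 / (2 * (M : ℝ))) ^ 2 := by
    field_simp
    ring
  linarith

theorem fin : FinStmt := by
  intro hEta hPert k mu g g' hk hg hgg hmu hLong
  obtain ⟨c, E, hc, hE, hL⟩ := hLong
  have hg' : 0 < g' := hg.trans hgg
  have hk1 : (1 : ℝ) < k := by exact_mod_cast (by omega : 1 < k)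
  have hk0 : (0 : ℝ) < k := by linarith
  set θ : ℝ := (g' - g) / (2 * g') with hθdef
  have hθ : 0 < θ := div_pos (by linarith) (by linarith)
  have hθ1 : θ < 1 := by
    rw [hθdef, div_lt_one (by linarith)]
    linarith
  set d : ℝ := (g' - g) / 2 with hd
  have hd0 : 0 < d := by
    rw [hd]
    linarith
  have hexp : (1 - θ) * g' = g + d := by
    rw [hθdef, hd]
    field_simp
    ring
  have hkg : 0 < (k : ℝ) ^ g' := Real.rpow_pos_of_pos hk0 _
  set C₀ : ℝ := Real.exp (-1) * c / (k : ℝ) ^ g' with hC₀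
  have hC0 : 0 < C₀ := by positivity
  have ev1 := tendsto_natCast_atTop_atTop.eventually (xfin_ev hθ)
  have ev2 := ((tendsto_rpow_atTop hd0).comp (tendsto_natCast_atTop_atTop (R := ℝ))).eventually
    (eventually_ge_atTop (302 * E / C₀))
  obtain ⟨N, hN⟩ := eventually_atTop.1 (ev1.and (ev2.and (eventually_ge_atTop 1)))
  refine ⟨N, fun M hM => ?_⟩
  obtain ⟨e1, e2, e3⟩ := hN M hM
  have hM1 : (1 : ℝ) ≤ M := by exact_mod_cast e3
  have hM0 : (0 : ℝ) < M := by linarith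
  have e2' : 302 * E ≤ (M : ℝ) ^ d * C₀ := (div_le_iff₀ hC0).1 e2
  obtain ⟨n, hn1, hn2⟩ := exists_nat_pow_near
    (Real.one_le_rpow hM1 (show 0 ≤ 1 - θ by linarith)) hk1
  obtain ⟨L, hGood, hlen⟩ := hL n
  have hK : (1 : ℝ) ≤ (k : ℝ) ^ n := one_le_pow₀ hk1.le
  set K : ℝ := (k : ℝ) ^ n with hKdef
  have hK0 : 0 < K := by linarith
  have hρ0 : 0 < Real.exp (-1 / K) := Real.exp_pos _
  have hρ1 : Real.exp (-1 / K) < 1 := by
    rw [← Real.exp_zero]
    exact Real.exp_lt_exp.2 (div_neg_of_neg_of_pos (by norm_num) hK0)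
  have hρ2 : Real.exp (-1) ≤ Real.exp (-1 / K) := by
    refine Real.exp_le_exp.2 ?_
    rw [le_div_iff₀ hK0]
    linarith
  have hP : DifferentiableOn ℂ (fun w => exp (-L w) * DL L w) (ball 0 1) :=
    (hGood.diff.neg.cexp).mul (xfin_diffDL hGood.diff)
  obtain ⟨η, hη, hη0, hη2, hηcf⟩ := hEta _ E _ M hP hE (xfin_cfP hGood) hρ0 hρ1
    (xfin_rho hθ hM1 hK hn1 e1)
  obtain ⟨f, b, hf, hb⟩ := hPert L η E M hGood hη hη0 hη2
  refine ⟨f, b, hf, ?_⟩
  have hav := xfin_av hGood hρ0 hρ1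
  have hmun : (M : ℝ) ^ (g + d) / (k : ℝ) ^ g' ≤ mu ^ n := by
    have a1 : ((k : ℝ) ^ g') ^ n ≤ mu ^ n := pow_le_pow_left₀ hkg.le hmu n
    have a2 : ((k : ℝ) ^ g') ^ (n + 1) = ((k : ℝ) ^ (n + 1)) ^ g' := by
      rw [← Real.rpow_natCast, ← Real.rpow_mul hk0.le, mul_comm, Real.rpow_mul hk0.le,
        Real.rpow_natCast]
    have a3 : ((M : ℝ) ^ (1 - θ)) ^ g' ≤ ((k : ℝ) ^ (n + 1)) ^ g' :=
      Real.rpow_le_rpow (Real.rpow_nonneg hM0.le _) hn2.le hg'.le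
    rw [← Real.rpow_mul hM0.le, hexp, ← a2, pow_succ] at a3
    rw [div_le_iff₀ hkg]
    exact a3.trans (mul_le_mul_of_nonneg_right a1 hkg.le)
  have hMg : 1 ≤ (M : ℝ) ^ g := Real.one_le_rpow hM1 hg.le
  have hlow : 302 * E * (M : ℝ) ^ g ≤ av (fun w => ‖exp (-L w) * DL L w‖) (Real.exp (-1 / K)) := by
    have a1 : c * ((M : ℝ) ^ (g + d) / (k : ℝ) ^ g') ≤ av (fun w => ‖DL L w‖) (Real.exp (-1 / K)) :=
      (mul_le_mul_of_nonneg_left hmun hc.le).trans hlen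
    have a0 : 0 ≤ c * ((M : ℝ) ^ (g + d) / (k : ℝ) ^ g') := by positivity
    have a2 : Real.exp (-1) * (c * ((M : ℝ) ^ (g + d) / (k : ℝ) ^ g')) ≤
        Real.exp (-1 / K) * av (fun w => ‖DL L w‖) (Real.exp (-1 / K)) :=
      mul_le_mul hρ2 a1 a0 hρ0.le
    have a3 : Real.exp (-1) * (c * ((M : ℝ) ^ (g + d) / (k : ℝ) ^ g')) =
        (M : ℝ) ^ d * C₀ * (M : ℝ) ^ g := by
      rw [Real.rpow_add hM0, hC₀]
      ring
    have a4 : 302 * E * (M : ℝ) ^ g ≤ (M : ℝ) ^ d * C₀ * (M : ℝ) ^ g :=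
      mul_le_mul_of_nonneg_right e2' (by linarith)
    linarith
  have hE0 : 0 < E := by linarith
  have h300 : 300 * E * (M : ℝ) ^ g ≤ 100 * E * (M + 2) * ‖b M‖ := by
    have a1 : 2 * E * 1 ≤ 2 * E * (M : ℝ) ^ g := mul_le_mul_of_nonneg_left hMg (by linarith)
    have a2 := hηcf.trans hb
    linarith
  have h3 : 100 * E * (M + 2) * ‖b M‖ ≤ 300 * E * (M * ‖b M‖) := by
    have a1 : (M + 2) * ‖b M‖ ≤ (3 * M) * ‖b M‖ :=
      mul_le_mul_of_nonneg_right (by linarith) (norm_nonneg _)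
    have a2 := mul_le_mul_of_nonneg_left a1 (show 0 ≤ 100 * E by linarith)
    linarith
  have h4 : (M : ℝ) ^ g ≤ M * ‖b M‖ :=
    le_of_mul_le_mul_left (h300.trans h3) (by linarith)
  rw [Real.rpow_sub_one hM0.ne', div_le_iff₀ hM0]
  linarith

end Pool.Agent.MP_757d88_an
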