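import Pool.Agent.MP_757d88_an.Tay
import Pool.Agent.MP_757d88_an.Defs2

/-! Elementary properties of the Hermitian forms. -/

set_option autoImplicit false

namespace Pool.Agent.MP_757d88_an

open Complex Metric ComplexConjugate Finset

theorem fm_sq (N : ℕ) (g : ℕ → ℝ) (w : ℂ) :
    ‖∑ n ∈ range N, (g n : ℂ) * w ^ n‖ ^ 2 = fm N (fun n m => g n * g m) w := by
  have h : ∀ s : ℂ, ‖s‖ ^ 2 = (s * conj s).re := fun s => by
    rw [Complex.mul_conj', ← ofReal_pow, ofReal_re]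
  rw [h, map_sum, sum_mul_sum, re_sum, fm]
  refine sum_congr rfl fun n _ => ?_
  rw [re_sum]
  refine sum_congr rfl fun m _ => ?_
  rw [map_mul, conj_ofReal, ← re_ofReal_mul]
  congr 1
  push_cast
  ring

theorem fm_kr (N : ℕ) (al : ℕ → ℤ) (g : ℕ → ℝ) (w : ℂ) :
    fm N (fun n m => (kr al N n m : ℝ) * (g n * g m)) w = ∑ s ∈ range N,
      ‖∑ n ∈ range N, ((((if n ≤ s then al (s - n) else 0 : ℤ) : ℝ) * g n : ℝ) : ℂ) * w ^ n‖ ^ 2 := by
  simp only [fm_sq, fm, kr, sz_eq, Int.cast_sum, Int.cast_mul, sum_mul]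
  rw [eq_comm, sum_comm]
  refine sum_congr rfl fun n _ => ?_
  rw [sum_comm]
  refine sum_congr rfl fun m _ => sum_congr rfl fun s _ => ?_
  ring

theorem fm_abs (N : ℕ) (A : ℕ → ℕ → ℝ) (w : ℂ) (hw : ‖w‖ ≤ 1) :
    |fm N A w| ≤ ∑ n ∈ range N, ∑ m ∈ range N, |A n m| := by
  refine (abs_sum_le_sum_abs _ _).trans (sum_le_sum fun n _ => ?_)
  refine (abs_sum_le_sum_abs _ _).trans (sum_le_sum fun m _ => ?_)
  rw [abs_mul]
  refine mul_le_of_le_one_right (abs_nonneg _) ((abs_re_le_norm _).trans ?_)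
  rw [norm_mul, RCLike.norm_conj, norm_pow, norm_pow]
  exact mul_le_one₀ (pow_le_one₀ (norm_nonneg _) hw) (by positivity)
    (pow_le_one₀ (norm_nonneg _) hw)

theorem av_mono_Fm (a b : ℕ) :
    av (fun u : ℂ => (u ^ a * conj (u ^ b)).re) 1 = if a = b then 1 else 0 := by
  rw [av_re zero_le_one (by fun_prop)]
  have h := av_cf (f := fun u : ℂ => u ^ a) (R := 2) one_pos one_lt_two (by fun_prop) b
  simp only [map_pow]
  rw [h, cf, iteratedDeriv_fun_pow_zero]
  have h1 : (b.factorial : ℂ) ≠ 0 := by exact_mod_cast b.factorial_ne_zero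
  by_cases e : a = b
  · subst e
    simp [h1]
  · simp [e, Ne.symm e]

theorem fm_av (N k : ℕ) (al : ℕ → ℤ) (hk : 1 ≤ k) :
    av (fun u => ‖∑ i ∈ range N, (al i : ℂ) * u ^ (k * i)‖ ^ 2) 1 =
      ∑ i ∈ range N, (al i : ℝ) ^ 2 := by
  have e : ∀ u : ℂ, ‖∑ i ∈ range N, (al i : ℂ) * u ^ (k * i)‖ ^ 2 = ∑ n ∈ range N, ∑ m ∈ range N,
      (al n : ℝ) * (al m : ℝ) * (u ^ (k * n) * conj (u ^ (k * m))).re := fun u => by
    have h := fm_sq N (fun i => (al i : ℝ)) (u ^ k)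
    simpa only [fm, ofReal_intCast, pow_mul] using h
  simp only [e]
  rw [av, Real.circleAverage_fun_sum fun n _ => ci_of zero_le_one (by fun_prop)]
  refine sum_congr rfl fun n hn => ?_
  rw [Real.circleAverage_fun_sum fun m _ => ci_of zero_le_one (by fun_prop), sum_eq_single n]
  · rw [← av, av_const_mul', av_mono_Fm, if_pos rfl, mul_one, sq]
  · intro m _ hm
    rw [← av, av_const_mul', av_mono_Fm, if_neg, mul_zero]
    exact fun h => hm (Nat.eq_of_mul_eq_mul_left hk h).symm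
  · exact fun h => absurd hn h

theorem fmf : FmStmt :=
  ⟨fm_sq, fun N al g w => by rw [fm_kr]; positivity, fm_abs, fm_av⟩

end Pool.Agent.MP_757d88_an
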