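import Pool.Agent.MP_757d88_an.Tay

/-! The inner perturbation of a univalent function. -/

set_option autoImplicit false

noncomputable section

namespace Pool.Agent.MP_757d88_an

open Complex Metric Set ComplexConjugate Function Filter Topology

/-- the perturbed function in the disc model -/
def Gam_Pert (L e : ℂ → ℂ) (om w : ℂ) : ℂ := exp (-L (w * (1 + om * e w))) / (1 + om * e w)

section
variable {L e : ℂ → ℂ} {x : ℝ}

theorem small_Pert (hx : 0 < x) (hx1 : x ≤ 1 / 2) (he : ∀ w ∈ ball (0 : ℂ) 1, ‖e w‖ ≤ x / 4)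
    {om w : ℂ} (ho : ‖om‖ ≤ 2) (hw : ‖w‖ < 1 - x) :
    1 + om * e w ≠ 0 ∧ w * (1 + om * e w) ∈ ball (0 : ℂ) 1 := by
  have h1 : ‖om * e w‖ ≤ x / 2 := by
    rw [norm_mul]
    have := he w (by rw [mem_ball_zero_iff]; linarith)
    nlinarith [norm_nonneg om, norm_nonneg (e w)]
  refine ⟨fun h => ?_, ?_⟩
  · have h2 : om * e w = -1 := by linear_combination h
    rw [h2, norm_neg, norm_one] at h1
    linarith
  · rw [mem_ball_zero_iff, norm_mul]
    have h3 : ‖1 + om * e w‖ ≤ 1 + x / 2 := (norm_add_le _ _).trans (by rw [norm_one]; linarith)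
    nlinarith [norm_nonneg w, norm_nonneg (1 + om * e w)]

theorem diffw_Pert (hx : 0 < x) (hx1 : x ≤ 1 / 2) (he : ∀ w ∈ ball (0 : ℂ) 1, ‖e w‖ ≤ x / 4)
    (hL : DifferentiableOn ℂ L (ball 0 1)) (hd : Differentiable ℂ e) {om : ℂ} (ho : ‖om‖ ≤ 2) :
    DifferentiableOn ℂ (Gam_Pert L e om) (ball 0 (1 - x)) := by
  intro w hw
  obtain ⟨h1, h2⟩ := small_Pert hx hx1 he ho (mem_ball_zero_iff.1 hw)
  have h3 : DifferentiableAt ℂ (fun w => 1 + om * e w) w := ((hd w).const_mul om).const_add 1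
  have h4 : DifferentiableAt ℂ (fun w => L (w * (1 + om * e w))) w :=
    (hL.differentiableAt (isOpen_ball.mem_nhds h2)).comp w (differentiableAt_id.mul h3)
  exact (h4.neg.cexp.div h3 h1).differentiableWithinAt

theorem diffo_Pert (hx : 0 < x) (hx1 : x ≤ 1 / 2) (he : ∀ w ∈ ball (0 : ℂ) 1, ‖e w‖ ≤ x / 4)
    (hL : DifferentiableOn ℂ L (ball 0 1)) {w : ℂ} (hw : ‖w‖ < 1 - x) :
    DifferentiableOn ℂ (fun om => Gam_Pert L e om w) (ball 0 2) := by
  intro om ho
  obtain ⟨h1, h2⟩ := small_Pert hx hx1 he (mem_ball_zero_iff.1 ho).le hw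
  have h3 : DifferentiableAt ℂ (fun om : ℂ => 1 + om * e w) om := by fun_prop
  have h4 : DifferentiableAt ℂ (fun om : ℂ => L (w * (1 + om * e w))) om :=
    (hL.differentiableAt (isOpen_ball.mem_nhds h2)).comp om (h3.const_mul w)
  exact (h4.neg.cexp.div h3 h1).differentiableWithinAt

theorem cfo_Pert (hL : DifferentiableOn ℂ L (ball 0 1)) {w : ℂ} (hw : ‖w‖ < 1) :
    cf (fun om => Gam_Pert L e om w) 1 = -(exp (-L w) * DL L w * e w) := by
  have h3 : HasDerivAt (fun om : ℂ => 1 + om * e w) (e w) 0 := by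
    simpa using ((hasDerivAt_id (0 : ℂ)).mul_const (e w)).const_add 1
  have h0 : HasDerivAt L (deriv L w) (w * (1 + 0 * e w)) := by
    simpa using (hL.differentiableAt (isOpen_ball.mem_nhds (mem_ball_zero_iff.2 hw))).hasDerivAt
  have h4 : HasDerivAt (fun om : ℂ => L (w * (1 + om * e w))) (deriv L w * (w * e w)) 0 :=
    h0.comp (0 : ℂ) (h3.const_mul w)
  have h5 := (h4.neg.cexp.div h3 (by simp)).deriv
  have h6 : cf (fun om => Gam_Pert L e om w) 1 = deriv (fun om => Gam_Pert L e om w) 0 := by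
    simp [cf]
  rw [h6]
  refine Eq.trans h5 ?_
  simp [DL]
  ring

theorem cont_Pert (hx : 0 < x) (hx1 : x ≤ 1 / 2) (he : ∀ w ∈ ball (0 : ℂ) 1, ‖e w‖ ≤ x / 4)
    (hL : DifferentiableOn ℂ L (ball 0 1)) (hd : Differentiable ℂ e) {ρ : ℝ} (hρ : ρ < 1 - x) :
    ContinuousOn (uncurry (Gam_Pert L e)) (sphere 0 1 ×ˢ sphere 0 ρ) := by
  have hc := hd.continuous
  have h1 : ∀ p ∈ sphere (0 : ℂ) 1 ×ˢ sphere (0 : ℂ) ρ,
      1 + p.1 * e p.2 ≠ 0 ∧ p.2 * (1 + p.1 * e p.2) ∈ ball (0 : ℂ) 1 := fun p hp =>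
    small_Pert hx hx1 he (by rw [mem_sphere_zero_iff_norm.1 hp.1]; norm_num)
      (by rw [mem_sphere_zero_iff_norm.1 hp.2]; exact hρ)
  have h2 : ContinuousOn (fun p : ℂ × ℂ => L (p.2 * (1 + p.1 * e p.2))) (sphere 0 1 ×ˢ sphere 0 ρ) :=
    hL.continuousOn.comp (f := fun p : ℂ × ℂ => p.2 * (1 + p.1 * e p.2)) (by fun_prop)
      fun p hp => (h1 p hp).2
  exact h2.neg.cexp.div (by fun_prop) fun p hp => (h1 p hp).1

theorem inj_Pert (hx : 0 < x) (he : ∀ w ∈ ball (0 : ℂ) 1, ‖e w‖ ≤ x / 4)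
    (hd : Differentiable ℂ e) {om : ℂ} (ho : ‖om‖ = 1) :
    InjOn (fun w => w * (1 + om * e w)) (ball 0 (1 - x)) := by
  have hg : Differentiable ℂ fun w => w * e w := differentiable_id.mul hd
  have h1 : ∀ w ∈ ball (0 : ℂ) (1 - x), ‖deriv (fun w => w * e w) w‖ ≤ 1 / 4 := by
    intro w hw
    have h2 := Complex.norm_deriv_le_of_forall_mem_sphere_norm_le (c := w) (C := x / 4) hx
      hg.diffContOnCl fun z hz => by
        have h3 : ‖z‖ < 1 := by
          have h4 := norm_le_norm_add_norm_sub' z w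
          rw [mem_sphere_iff_norm.1 hz] at h4
          linarith [mem_ball_zero_iff.1 hw]
        rw [norm_mul]
        have := he z (mem_ball_zero_iff.2 h3)
        nlinarith [norm_nonneg z, norm_nonneg (e z)]
    refine h2.trans (le_of_eq ?_)
    field_simp
  intro a ha b hb hab
  have h5 := (convex_ball (0 : ℂ) (1 - x)).norm_image_sub_le_of_norm_deriv_le
    (fun w _ => hg w) h1 ha hb
  have h6 : b - a = -om * (b * e b - a * e a) := by
    simp only at hab
    linear_combination -hab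
  have h7 : ‖b - a‖ = ‖b * e b - a * e a‖ := by
    conv_lhs => rw [h6, norm_mul, norm_neg, ho, one_mul]
  have h8 : ‖b - a‖ ≤ 0 := by linarith
  exact (sub_eq_zero.1 (norm_le_zero_iff.1 h8)).symm

theorem pick_Pert (hx : 0 < x) (hx1 : x ≤ 1 / 2) (he : ∀ w ∈ ball (0 : ℂ) 1, ‖e w‖ ≤ x / 4)
    (hL : DifferentiableOn ℂ L (ball 0 1)) (hd : Differentiable ℂ e) (n : ℕ) :
    ∃ om : ℂ, ‖om‖ = 1 ∧
      ‖cf (fun w => exp (-L w) * DL L w * e w) n‖ / 2 ≤ ‖cf (Gam_Pert L e om) n‖ := by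
  by_contra hn
  push Not at hn
  set P : ℂ → ℂ := fun w => exp (-L w) * DL L w * e w with hP
  have hPd : DifferentiableOn ℂ P (ball 0 1) :=
    (hL.neg.cexp.mul ((differentiableOn_id.mul (hL.deriv isOpen_ball)).const_add 1)).mul
      hd.differentiableOn
  have hρ : (1 / 4 : ℝ) < 1 - x := by linarith
  have hc := cont_Pert hx hx1 he hL hd hρ
  have h1 := av_swap (F := fun om w => Gam_Pert L e om w * conj om ^ 1 * conj w ^ n)
    (r := 1) (s := 1 / 4) zero_le_one (by norm_num)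
    (by
      have h := (hc.mul (by fun_prop : Continuous fun p : ℂ × ℂ => conj p.1 ^ 1).continuousOn).mul
        (by fun_prop : Continuous fun p : ℂ × ℂ => conj p.2 ^ n).continuousOn
      exact h.congr fun p _ => rfl)
  have h2 : av (fun w => av (fun om => Gam_Pert L e om w * conj om ^ 1 * conj w ^ n) 1) (1 / 4)
      = -1 * (cf P n * ((1 / 4 : ℝ) : ℂ) ^ (2 * n)) := by
    rw [← av_cf (by norm_num) (by norm_num) hPd n, ← av_const_mul]
    refine av_congr (by norm_num) fun w hw => ?_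
    have h3 := av_cf one_pos one_lt_two (diffo_Pert hx hx1 he hL (w := w) (by rw [hw]; exact hρ)) 1
    rw [cfo_Pert hL (by rw [hw]; norm_num)] at h3
    have h4 : (fun om => Gam_Pert L e om w * conj om ^ 1 * conj w ^ n)
        = fun om => conj w ^ n * (Gam_Pert L e om w * conj om ^ 1) := by
      funext om; ring
    rw [h4, av_const_mul, h3, hP]
    simp
    ring
  have h5 : ‖av (fun om => av (fun w => Gam_Pert L e om w * conj om ^ 1 * conj w ^ n) (1 / 4)) 1‖
      ≤ ‖cf P n‖ / 2 * (1 / 4) ^ (2 * n) := by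
    refine norm_av_le zero_le_one fun om ho => ?_
    have h3 := av_cf (by norm_num) hρ (diffw_Pert hx hx1 he hL hd (om := om) (by rw [ho]; norm_num)) n
    have h4 : (fun w => Gam_Pert L e om w * conj om ^ 1 * conj w ^ n)
        = fun w => conj om ^ 1 * (Gam_Pert L e om w * conj w ^ n) := by
      funext w; ring
    rw [h4, av_const_mul, h3, norm_mul, norm_mul, norm_pow, norm_pow, RCLike.norm_conj, ho,
      Complex.norm_real, Real.norm_of_nonneg (by norm_num), one_pow, one_mul]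
    exact mul_le_mul_of_nonneg_right (hn om ho).le (by positivity)
  rw [h1, h2, norm_mul, norm_mul, norm_pow, norm_neg, norm_one, one_mul, Complex.norm_real,
    Real.norm_of_nonneg (by norm_num)] at h5
  have h6 := le_of_mul_le_mul_right h5 (by positivity)
  have h7 := hn 1 norm_one
  linarith [norm_nonneg (cf (Gam_Pert L e 1) n)]

theorem sig_Pert {E : ℝ} (hx : 0 < x) (hx1 : x ≤ 1 / 2)
    (he : ∀ w ∈ ball (0 : ℂ) 1, ‖e w‖ ≤ x / 4) (hG : Good L E) (hd : Differentiable ℂ e)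
    (h0 : e 0 = 0) {om : ℂ} (ho : ‖om‖ = 1) :
    IsSig (fun z => z * Gam_Pert L e om (((1 - x : ℝ) : ℂ) / z) / exp (-L 0))
      fun m => cf (Gam_Pert L e om) (m + 1) * ((1 - x : ℝ) : ℂ) ^ (m + 1) / exp (-L 0) := by
  have hr : 0 < 1 - x := by linarith
  have hr' : ((1 - x : ℝ) : ℂ) ≠ 0 := ofReal_ne_zero.2 hr.ne'
  have ho2 : ‖om‖ ≤ 2 := by rw [ho]; norm_num
  have hD := diffw_Pert hx hx1 he hG.diff hd ho2
  have hz0 : ∀ z : ℂ, 1 < ‖z‖ → z ≠ 0 := fun z hz => norm_pos_iff.1 (by linarith)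
  have hm : ∀ z : ℂ, 1 < ‖z‖ → ((1 - x : ℝ) : ℂ) / z ∈ ball (0 : ℂ) (1 - x) := fun z hz => by
    rw [mem_ball_zero_iff, norm_div, Complex.norm_real, Real.norm_of_nonneg hr.le]
    exact div_lt_self hr hz
  refine ⟨fun z hz => ?_, fun a ha b hb hab => ?_, fun z hz => ?_⟩
  · have h1 : DifferentiableAt ℂ (fun z : ℂ => ((1 - x : ℝ) : ℂ) / z) z :=
      (differentiableAt_const _).div differentiableAt_id (hz0 z hz)
    have h2 := (hD.differentiableAt (isOpen_ball.mem_nhds (hm z hz))).comp z h1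
    exact ((differentiableAt_id.mul h2).div_const _).differentiableWithinAt
  · have key : ∀ z : ℂ, 1 < ‖z‖ → ∀ w, w = ((1 - x : ℝ) : ℂ) / z →
        z * Gam_Pert L e om w / exp (-L 0) * (w * (1 + om * e w) * exp (L (w * (1 + om * e w))))
          = ((1 - x : ℝ) : ℂ) / exp (-L 0) := by
      intro z hz w hw
      have h1 := (small_Pert hx hx1 he ho2 (mem_ball_zero_iff.1 (hm z hz))).1
      rw [← hw] at h1
      have h2 : z * w = ((1 - x : ℝ) : ℂ) := by rw [hw]; field_simp [hz0 z hz]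
      have h3 := exp_ne_zero (L (w * (1 + om * e w)))
      rw [← h2, Gam_Pert, exp_neg (L (w * _))]
      field_simp
    have h1 := key a ha _ rfl
    have h2 := key b hb _ rfl
    simp only at hab
    rw [hab, ← h2] at h1
    have h3 : b * Gam_Pert L e om (((1 - x : ℝ) : ℂ) / b) / exp (-L 0) ≠ 0 := fun h => by
      rw [h, zero_mul] at h2
      exact div_ne_zero hr' (exp_ne_zero _) h2.symm
    have h4 := hG.inj (small_Pert hx hx1 he ho2 (mem_ball_zero_iff.1 (hm a ha))).2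
      (small_Pert hx hx1 he ho2 (mem_ball_zero_iff.1 (hm b hb))).2 (mul_left_cancel₀ h3 h1)
    have h5 := inj_Pert hx he hd ho (hm a ha) (hm b hb) h4
    rw [div_eq_div_iff (hz0 a ha) (hz0 b hb)] at h5
    exact (mul_left_cancel₀ hr' h5).symm
  · have h1 := (hasSum_nat_add_iff' 1).2 (hasSum_cf hD (hm z hz))
    have h2 := (h1.mul_left z).div_const (exp (-L 0))
    have h3 := exp_ne_zero (-L 0)
    have h4 := hz0 z hz
    have h5 : Gam_Pert L e om 0 = exp (-L 0) := by simp [Gam_Pert, h0]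
    have h6 : z * (Gam_Pert L e om (((1 - x : ℝ) : ℂ) / z) - ∑ i ∈ Finset.range 1,
        cf (Gam_Pert L e om) i * (((1 - x : ℝ) : ℂ) / z) ^ i) / exp (-L 0)
        = z * Gam_Pert L e om (((1 - x : ℝ) : ℂ) / z) / exp (-L 0) - z := by
      rw [Finset.sum_range_one, cf_zero, h5]
      field_simp
    rw [h6] at h2
    refine h2.congr_fun fun m => ?_
    rw [div_pow, pow_succ z]
    field_simp

end

theorem pow_Pert (M : ℕ) : 1 / 3 ≤ (1 - 1 / ((M : ℝ) + 2)) ^ (M + 1) := by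
  have h0 : (0 : ℝ) < M + 1 := by positivity
  have h1 : (1 + 1 / ((M : ℝ) + 1)) ^ (M + 1) ≤ 3 := by
    have h2 : 1 + 1 / ((M : ℝ) + 1) ≤ Real.exp (1 / ((M : ℝ) + 1)) := by
      linarith [Real.add_one_le_exp (1 / ((M : ℝ) + 1))]
    refine (pow_le_pow_left₀ (by positivity) h2 _).trans ?_
    rw [← Real.exp_nat_mul]
    have h3 : ((M + 1 : ℕ) : ℝ) * (1 / ((M : ℝ) + 1)) = 1 := by push_cast; field_simp
    rw [h3]
    linarith [Real.exp_one_lt_d9]
  have h4 : 1 - 1 / ((M : ℝ) + 2) = 1 / (1 + 1 / ((M : ℝ) + 1)) := by field_simp; ring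
  rw [h4, div_pow, one_pow]
  exact one_div_le_one_div_of_le (by positivity) h1

theorem pert : PertStmt := by
  intro L η E M hG hd h0 hb
  have hM : (0 : ℝ) < M + 2 := by positivity
  obtain ⟨x, hx⟩ : ∃ x : ℝ, x = 1 / ((M : ℝ) + 2) := ⟨_, rfl⟩
  have hx0 : 0 < x := by rw [hx]; positivity
  have hx1 : x ≤ 1 / 2 := by
    rw [hx]; exact one_div_le_one_div_of_le two_pos (by linarith [Nat.cast_nonneg (α := ℝ) M])
  set e : ℂ → ℂ := fun w => ((x / 8 : ℝ) : ℂ) * η w with he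
  have he1 : ∀ w ∈ ball (0 : ℂ) 1, ‖e w‖ ≤ x / 4 := fun w hw => by
    rw [he, norm_mul, Complex.norm_real, Real.norm_of_nonneg (by positivity)]
    nlinarith [hb w hw]
  have he2 : Differentiable ℂ e := hd.const_mul _
  have he0 : e 0 = 0 := by simp [he, h0]
  obtain ⟨om, ho, h1⟩ := pick_Pert hx0 hx1 he1 hG.diff he2 (M + 1)
  refine ⟨_, _, sig_Pert hx0 hx1 he1 hG he2 he0 ho, ?_⟩
  have h2 : cf (fun w => exp (-L w) * DL L w * e w) (M + 1)
      = ((x / 8 : ℝ) : ℂ) * cf (fun w => exp (-L w) * DL L w * η w) (M + 1) := by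
    have h3 : (fun w => exp (-L w) * DL L w * e w)
        = fun w => ((x / 8 : ℝ) : ℂ) * (exp (-L w) * DL L w * η w) := by
      funext w; rw [he]; ring
    rw [h3, cf, cf, iteratedDeriv_const_mul_field, mul_div_assoc]
  rw [h2, norm_mul, Complex.norm_real, Real.norm_of_nonneg (by positivity)] at h1
  have h4 := hG.bd 0 (mem_ball_self one_pos)
  have h5 : 0 < ‖exp (-L 0)‖ := norm_pos_iff.2 (exp_ne_zero _)
  have h6 := pow_Pert M
  rw [← hx] at h6
  rw [norm_div, norm_mul, norm_pow, Complex.norm_real, Real.norm_of_nonneg (by linarith)]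
  set A := ‖cf (fun w => exp (-L w) * DL L w * η w) (M + 1)‖
  set c := ‖cf (Gam_Pert L e om) (M + 1)‖
  set g := ‖exp (-L 0)‖
  have hc : 0 ≤ c := norm_nonneg _
  have h7 : c * (1 / 3) / E ≤ c * (1 - x) ^ (M + 1) / g :=
    div_le_div₀ (by positivity) (mul_le_mul_of_nonneg_left h6 hc) h5 h4
  have hE : 0 < E := h5.trans_le h4
  have h8 : A ≤ 16 * (M + 2) * c := by
    have h9 : x * (M + 2) = 1 := by rw [hx]; field_simp
    have h10 := mul_le_mul_of_nonneg_left h1 (show 0 ≤ 16 * ((M : ℝ) + 2) by positivity)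
    have h11 : 16 * ((M : ℝ) + 2) * (x / 8 * A / 2) = x * (M + 2) * A := by ring
    rw [h11, h9, one_mul] at h10
    exact h10
  calc A ≤ 16 * (M + 2) * c := h8
    _ ≤ 100 * E * (M + 2) * (c * (1 / 3) / E) := by
        have : 100 * E * (M + 2) * (c * (1 / 3) / E) = 100 / 3 * (M + 2) * c := by field_simp
        rw [this]
        gcongr
        norm_num
    _ ≤ _ := mul_le_mul_of_nonneg_left h7 (by positivity)

end Pool.Agent.MP_757d88_an
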