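import Pool.Agent.MP_757d88_an.Tay

/-! The snowflake recursion. -/

set_option autoImplicit false

noncomputable section

namespace Pool.Agent.MP_757d88_an

open Complex Metric Set Function

namespace Snow

/-- the root transform -/
def rt (L : ℂ → ℂ) (k : ℕ) (w : ℂ) : ℂ := w * exp (L (w ^ k) / k)

/-- one step of the recursion -/
def st (L l : ℂ → ℂ) (k : ℕ) (u w : ℂ) : ℂ := L (w ^ k) / k + l (u * rt L k w)

/-- the weighted length element -/
def wt (nu : ℝ → ℝ) (L : ℂ → ℂ) (w : ℂ) : ℝ := ‖DL L w‖ * nu ‖w * exp (L w)‖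

variable {L l : ℂ → ℂ} {E F : ℝ} {k : ℕ} {u w : ℂ} {nu : ℝ → ℝ}

theorem pow_mem (hk : 2 ≤ k) (hw : w ∈ ball (0 : ℂ) 1) : w ^ k ∈ ball (0 : ℂ) 1 := by
  rw [mem_ball_zero_iff] at hw ⊢
  rw [norm_pow]
  exact pow_lt_one₀ (norm_nonneg _) hw (by omega)

theorem exp_pow (hk : 2 ≤ k) (z : ℂ) : exp (z / k) ^ k = exp z := by
  rw [← exp_nat_mul, mul_div_cancel₀ _ (Nat.cast_ne_zero.2 (by omega))]

theorem rt_pow (hk : 2 ≤ k) : rt L k w ^ k = w ^ k * exp (L (w ^ k)) := by
  rw [rt, mul_pow, exp_pow hk]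

theorem rt_mem (h : Good L E) (hk : 2 ≤ k) (hu : ‖u‖ = 1) (hw : w ∈ ball (0 : ℂ) 1) :
    u * rt L k w ∈ ball (0 : ℂ) 1 := by
  have := h.lt _ (pow_mem hk hw)
  rw [← rt_pow hk, norm_pow] at this
  rw [mem_ball_zero_iff, norm_mul, hu, one_mul]
  exact lt_of_pow_lt_pow_left₀ k zero_le_one (by rwa [one_pow])

theorem st_eq : u * (w * exp (st L l k u w)) = u * rt L k w * exp (l (u * rt L k w)) := by
  rw [st, exp_add, rt]
  ring

theorem norm_st (hu : ‖u‖ = 1) :
    ‖w * exp (st L l k u w)‖ = ‖u * rt L k w * exp (l (u * rt L k w))‖ := by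
  rw [← st_eq, norm_mul u, hu, one_mul]

theorem der (h : Good L E) (h' : Good l F) (hk : 2 ≤ k) (hu : ‖u‖ = 1) (hw : w ∈ ball (0 : ℂ) 1) :
    ∃ D, HasDerivAt (st L l k u) D w ∧ 1 + w * D = DL L (w ^ k) * DL l (u * rt L k w) := by
  have d1 : HasDerivAt (fun x => L (x ^ k) / k) (deriv L (w ^ k) * (k * w ^ (k - 1)) / k) w :=
    ((h.diff.differentiableAt (isOpen_ball.mem_nhds (pow_mem hk hw))).hasDerivAt.comp w
      (hasDerivAt_pow k w)).div_const (k : ℂ)
  have d2 : HasDerivAt (fun x => u * rt L k x) _ w := ((hasDerivAt_id w).mul d1.cexp).const_mul u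
  have d3 := (h'.diff.differentiableAt (isOpen_ball.mem_nhds (rt_mem h hk hu hw))).hasDerivAt
  refine ⟨_, d1.add (d3.comp w d2), ?_⟩
  obtain ⟨j, rfl⟩ : ∃ j, k = j + 1 := ⟨k - 1, by omega⟩
  have : ((j + 1 : ℕ) : ℂ) ≠ 0 := Nat.cast_ne_zero.2 (by omega)
  simp only [DL, rt, id, Nat.add_sub_cancel]
  generalize exp (L (w ^ (j + 1)) / ((j + 1 : ℕ) : ℂ)) = x
  field_simp
  ring

theorem good (h : Good L (F ^ 2)) (h' : Good l F) (hF : 1 ≤ F) (hk : 2 ≤ k) (hu : ‖u‖ = 1) :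
    Good (st L l k u) (F ^ 2) := by
  have u0 : u ≠ 0 := fun c => by simp [c] at hu
  refine ⟨fun w hw => (der h h' hk hu hw).choose_spec.1.differentiableAt.differentiableWithinAt,
    fun w hw z hz e => ?_, fun w hw => ?_, fun w hw => ?_⟩
  · have e1 : u * (w * exp (st L l k u w)) = u * (z * exp (st L l k u z)) := congrArg (u * ·) e
    rw [st_eq, st_eq] at e1
    have e2 := mul_left_cancel₀ u0 (h'.inj (rt_mem h hk hu hw) (rt_mem h hk hu hz) e1)
    have e3 := congrArg (· ^ k) e2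
    simp only [rt_pow hk] at e3
    have e4 := h.inj (pow_mem hk hw) (pow_mem hk hz) e3
    rw [rt, rt, e4] at e2
    exact mul_right_cancel₀ (exp_ne_zero _) e2
  · rw [norm_st hu]
    exact h'.lt _ (rt_mem h hk hu hw)
  · have b1 := h.bd _ (pow_mem hk hw)
    rw [← exp_pow hk, norm_pow] at b1
    have b2 : ‖exp (-L (w ^ k) / k)‖ ≤ F := by
      by_contra c
      rw [not_le] at c
      exact absurd ((pow_le_pow_right₀ (hF.trans c.le) hk).trans b1)
        (not_le.2 (pow_lt_pow_left₀ c (by linarith) two_ne_zero))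
    rw [st, neg_add, exp_add, norm_mul, ← neg_div, sq]
    exact mul_le_mul b2 (h'.bd _ (rt_mem h hk hu hw)) (norm_nonneg _) (by linarith)

theorem cont_DL (h : Good L E) : ContinuousOn (fun w => ‖DL L w‖) (ball 0 1) :=
  (continuousOn_const.add (continuousOn_id.mul (h.diff.deriv isOpen_ball).continuousOn)).norm

theorem cont_wt (h : Good L E) (hn : Continuous nu) : ContinuousOn (wt nu L) (ball 0 1) :=
  (cont_DL h).mul (hn.comp_continuousOn (continuousOn_id.mul h.diff.continuousOn.cexp).norm)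

theorem sph_sub {r : ℝ} (hr : r < 1) : sphere (0 : ℂ) r ⊆ ball 0 1 :=
  sphere_subset_closedBall.trans (closedBall_subset_ball hr)

theorem cont_pow (hk : 2 ≤ k) {X : Type} [TopologicalSpace X] {f : ℂ → X}
    (hf : ContinuousOn f (ball 0 1)) : ContinuousOn (fun w => f (w ^ k)) (ball 0 1) :=
  hf.comp (f := fun w : ℂ => w ^ k) (by fun_prop) fun _ hw => pow_mem hk hw

theorem cont_two' {r : ℝ} (h : Good L E) (h' : Good l F) (hk : 2 ≤ k) (hn : Continuous nu)
    (r1 : r < 1) : ContinuousOn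
      (fun p : ℂ × ℂ => ‖DL L (p.2 ^ k)‖ * wt nu l (p.1 * rt L k p.2)) (sphere 0 1 ×ˢ sphere 0 r) := by
  have c1 : ContinuousOn (rt L k) (ball 0 1) :=
    continuousOn_id.mul ((cont_pow hk h.diff.continuousOn).div_const _).cexp
  have c2 : ContinuousOn (fun p : ℂ × ℂ => ‖DL L (p.2 ^ k)‖) (sphere 0 1 ×ˢ sphere 0 r) :=
    (cont_pow hk (cont_DL h)).comp continuousOn_snd fun p hp => sph_sub r1 hp.2
  have c3 : ContinuousOn (fun p : ℂ × ℂ => p.1 * rt L k p.2) (sphere 0 1 ×ˢ sphere 0 r) :=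
    continuousOn_fst.mul (c1.comp continuousOn_snd fun p hp => sph_sub r1 hp.2)
  exact c2.mul ((cont_wt h' hn).comp c3
    fun p hp => rt_mem h hk (mem_sphere_zero_iff_norm.1 hp.1) (sph_sub r1 hp.2))

theorem step {lam r c : ℝ} (h : Good L (F ^ 2)) (h' : Good l F) (hF : 1 ≤ F) (hk : 2 ≤ k)
    (hn : Continuous nu) (he : ∀ s, 0 < s → s < 1 → lam * nu (s ^ k) ≤ av (wt nu l) s)
    (r0 : 0 < r) (r1 : r < 1) (hc : c < lam * av (wt nu L) (r ^ k)) :
    ∃ L', Good L' (F ^ 2) ∧ c ≤ av (wt nu L') r := by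
  by_contra hh
  push Not at hh
  have mw : ∀ w : ℂ, ‖w‖ = r → w ∈ ball (0 : ℂ) 1 := fun w hw => by
    rw [mem_ball_zero_iff, hw]; exact r1
  obtain ⟨P, hP⟩ : ∃ P : ℂ → ℂ → ℝ, P = fun u w => ‖DL L (w ^ k)‖ * wt nu l (u * rt L k w) :=
    ⟨_, rfl⟩
  have c2 : ContinuousOn (uncurry P) (sphere 0 1 ×ˢ sphere 0 r) := by
    rw [hP]
    exact cont_two' h h' hk hn r1
  have c3 : ContinuousOn (uncurry fun w u => P u w) (sphere 0 r ×ˢ sphere 0 1) :=
    c2.comp (f := Prod.swap) continuous_swap.continuousOn fun p hp => ⟨hp.2, hp.1⟩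
  have a1 : av (fun u => av (P u) r) 1 ≤ av (fun _ => c) 1 :=
    av_mono zero_le_one (av_contOn r0.le c2) continuousOn_const fun u hu => by
      refine le_of_eq_of_le (av_congr r0.le fun w hw => ?_) (hh _ (good h h' hF hk hu)).le
      obtain ⟨D, d1, d2⟩ := der h h' hk hu (mw w hw)
      rw [hP]
      simp only [wt]
      rw [DL.eq_1 (st L l k u), d1.deriv, d2, norm_mul (DL _ _), norm_st hu, mul_assoc ‖DL L _‖]
  rw [av_swap zero_le_one r0.le c2] at a1
  have c4 : ContinuousOn (wt nu L) (sphere 0 (r ^ k)) :=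
    (cont_wt h hn).mono (sph_sub (pow_lt_one₀ r0.le r1 (by omega)))
  have a2 : av (fun w => lam * wt nu L (w ^ k)) r ≤ av (fun w => av (fun u => P u w) 1) r :=
    av_mono r0.le (continuousOn_const.mul ((cont_pow hk (cont_wt h hn)).mono (sph_sub r1)))
      (av_contOn zero_le_one c3) fun w hw => by
      have b1 := rt_mem h hk norm_one (mw w hw)
      rw [one_mul, mem_ball_zero_iff] at b1
      have b0 : 0 < ‖rt L k w‖ := by
        rw [rt, norm_mul, hw]
        exact mul_pos r0 (norm_pos_iff.2 (exp_ne_zero _))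
      have := mul_le_mul_of_nonneg_left (he _ b0 b1) (norm_nonneg (DL L (w ^ k)))
      rw [hP]
      simp only []
      rw [av_const_mul', av_rot (wt nu l), wt, ← rt_pow hk, norm_pow]
      linarith
  rw [av_const_mul', av_pow (by omega) r0.le c4] at a2
  exact absurd ((a2.trans a1).trans_eq (Real.circleAverage_const _ _ _)) (not_le.2 hc)

end Snow

open Snow in
theorem snow : SnowStmt := by
  rintro k lam mu hk m0 ml ⟨l, E, V, nu, hl, hn, hV, he⟩
  have hF : 1 ≤ max E 1 := le_max_right _ _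
  have hl' : Good l (max E 1) := ⟨hl.diff, hl.inj, hl.lt, fun w hw =>
    (hl.bd w hw).trans (le_max_left _ _)⟩
  have k0 : (0 : ℝ) < k := by positivity
  have r1 : ∀ n : ℕ, Real.exp (-1 / (k : ℝ) ^ n) < 1 := fun n =>
    Real.exp_lt_one_iff.2 (div_neg_of_neg_of_pos (by norm_num) (by positivity))
  obtain ⟨c0, cV⟩ := hV _ (Real.exp_pos _) (r1 0)
  have V0 := c0.trans_le cV
  have main : ∀ n : ℕ, ∃ L, Good L (max E 1 ^ 2) ∧ nu (Real.exp (-1 / (k : ℝ) ^ 0)) * mu ^ n ≤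
      av (wt nu L) (Real.exp (-1 / (k : ℝ) ^ n)) := fun n => by
    induction n with
    | zero =>
      refine ⟨fun _ => 0, ⟨differentiableOn_const _, fun w _ z _ e => by simpa using e,
        fun w hw => by simpa using hw, fun w _ => by
          rw [neg_zero, exp_zero, norm_one]; exact one_le_pow₀ hF⟩, ?_⟩
      rw [av_congr (G := fun _ => nu (Real.exp (-1 / (k : ℝ) ^ 0))) (Real.exp_pos _).le
        fun z hz => by simp only [wt, DL, deriv_const, mul_zero, add_zero, norm_one, one_mul,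
          exp_zero, mul_one, hz], av, Real.circleAverage_const, pow_zero mu, mul_one]
    | succ n ih =>
      obtain ⟨L, h1, h2⟩ := ih
      refine step h1 hl' hF hk hn he (Real.exp_pos _) (r1 _) ?_
      rw [← Real.exp_nat_mul, show (k : ℝ) * (-1 / (k : ℝ) ^ (n + 1)) = -1 / (k : ℝ) ^ n by
        rw [pow_succ]; field_simp, pow_succ mu, ← mul_assoc, mul_comm lam]
      exact (mul_lt_mul_of_pos_left ml (mul_pos c0 (pow_pos m0 n))).trans_le
        (mul_le_mul_of_nonneg_right h2 (m0.trans ml).le)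
  refine ⟨_ / V, max E 1 ^ 2, div_pos c0 V0, one_le_pow₀ hF, fun n => ?_⟩
  obtain ⟨L, h1, h2⟩ := main n
  refine ⟨L, h1, ?_⟩
  rw [div_mul_eq_mul_div, div_le_iff₀' V0, ← av_const_mul']
  refine h2.trans (av_mono (Real.exp_pos _).le ((cont_wt h1 hn).mono (sph_sub (r1 n)))
    (continuousOn_const.mul ((cont_DL h1).mono (sph_sub (r1 n)))) fun z hz => ?_)
  rw [wt, mul_comm]
  refine mul_le_mul_of_nonneg_right (hV _ ?_ (h1.lt z (by rw [mem_ball_zero_iff, hz]; exact r1 n))).2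
    (norm_nonneg _)
  rw [norm_mul, hz]
  exact mul_pos (Real.exp_pos _) (norm_pos_iff.2 (exp_ne_zero _))

end Pool.Agent.MP_757d88_an
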