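import Pool.Agent.MP_757d88_an.EigOf
import Pool.Agent.MP_757d88_an.Snow
import Pool.Agent.MP_757d88_an.Eta
import Pool.Agent.MP_757d88_an.Pert
import Pool.Agent.MP_757d88_an.Fin

/-! Assembly. -/

set_option autoImplicit false

namespace Pool.Agent.MP_757d88_an

theorem hk_of {kd kn q en den : ℕ} (h : kd ^ q * den ^ 2 ≤ en ^ 2 * kn ^ q) (hd : 0 < den) :
    (kd : ℝ) ^ q ≤ ((en : ℝ) / den) ^ 2 * (kn : ℝ) ^ q := by
  rw [div_pow, div_mul_eq_mul_div, le_div_iff₀ (by positivity)]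
  exact_mod_cast h

theorem main_of {k a b c u w : ℕ} {g : ℝ} (h : Eig k (a / b)) (hk : 2 ≤ k) (hg : 0 < g)
    (hg' : g < u / w) (h1 : k ^ u * b ^ w ≤ c ^ w ∧ w ≠ 0 ∧ 0 < b ∧ 0 < c ∧ c < a) :
    ∃ N : ℕ, ∀ n, N ≤ n → ∃ f b, IsSig f b ∧ (n : ℝ) ^ (g - 1) ≤ ‖b n‖ := by
  obtain ⟨h1, hw, hb, hc, ha⟩ := h1
  have hb' : (0 : ℝ) < b := by exact_mod_cast hb
  refine fin eta pert k (c / b) g (u / w) hk hg hg' ?_ (snow k (a / b) _ hk (by positivity)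
    (div_lt_div_of_pos_right (by exact_mod_cast ha) hb') h)
  refine le_of_pow_le_pow_left₀ hw (by positivity) ?_
  rw [← Real.rpow_natCast, ← Real.rpow_mul (Nat.cast_nonneg _),
    div_mul_cancel₀ _ (by exact_mod_cast hw), Real.rpow_natCast, div_pow,
    le_div_iff₀ (by positivity)]
  exact_mod_cast h1

end Pool.Agent.MP_757d88_an
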