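import Pool.Agent.MP_757d88_an.Defs2

/-! Positive Schur complements give a nonnegative form. -/

set_option autoImplicit false

namespace Pool.Agent.MP_757d88_an

open Complex ComplexConjugate Finset

theorem sc_symm_Psd (F : ℕ → ℕ → ℤ) (l n m : ℕ) : sc F l n m = sc F l m n := by
  induction l generalizing n m with
  | zero => simp only [sc, add_comm]
  | succ l ih => simp only [sc]; rw [ih n m, mul_comm (sc F l l n)]

theorem sc_row_Psd (F : ℕ → ℕ → ℤ) (l n m : ℕ) (h : n < l) : sc F l n m = 0 := by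
  induction l generalizing m with
  | zero => omega
  | succ l ih =>
    rcases Nat.lt_succ_iff_lt_or_eq.1 h with h | rfl
    · simp only [sc]
      rw [ih m h, sc_symm_Psd F l l n, ih l h]
      ring
    · simp only [sc]
      ring

/-- the quadratic form of a Schur complement -/
noncomputable def q_Psd (F : ℕ → ℕ → ℤ) (N : ℕ) (x : ℕ → ℝ) (l : ℕ) : ℝ :=
  ∑ n ∈ range N, ∑ m ∈ range N, (sc F l n m : ℝ) * (x n * x m)

theorem q_step_Psd (F : ℕ → ℕ → ℤ) (N : ℕ) (x : ℕ → ℝ) (l : ℕ) :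
    (sc F l l l : ℝ) * q_Psd F N x l =
      (∑ m ∈ range N, (sc F l l m : ℝ) * x m) ^ 2 + q_Psd F N x (l + 1) := by
  rw [sq, sum_mul_sum, q_Psd, q_Psd, mul_sum, ← sum_add_distrib]
  refine sum_congr rfl fun n _ => ?_
  rw [mul_sum, ← sum_add_distrib]
  refine sum_congr rfl fun m _ => ?_
  simp only [sc]
  push_cast
  ring

theorem q_nonneg_Psd (F : ℕ → ℕ → ℤ) (N : ℕ) (h : psd F N = true) (x : ℕ → ℝ) :
    0 ≤ q_Psd F N x 0 := by
  have hp : ∀ l < N, (0 : ℝ) < sc F l l l := fun l hl => by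
    exact_mod_cast of_decide_eq_true (al2_iff.1 h l hl)
  refine Nat.decreasingInduction (motive := fun l _ => 0 ≤ q_Psd F N x l) (fun l hl ih => ?_) ?_
    (Nat.zero_le N)
  · refine (mul_nonneg_iff_of_pos_left (hp l hl)).1 ?_
    rw [q_step_Psd]
    exact add_nonneg (sq_nonneg _) ih
  · refine (sum_eq_zero fun n hn => sum_eq_zero fun m _ => ?_).ge
    rw [sc_row_Psd F N n m (mem_range.1 hn), Int.cast_zero, zero_mul]

theorem real_Psd (F : ℕ → ℕ → ℤ) (N : ℕ) (h : psd F N = true) (x : ℕ → ℝ) :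
    0 ≤ ∑ n ∈ range N, ∑ m ∈ range N, (F n m : ℝ) * (x n * x m) := by
  have h1 := q_nonneg_Psd F N h x
  have h2 : ∑ n ∈ range N, ∑ m ∈ range N, (F m n : ℝ) * (x n * x m) =
      ∑ n ∈ range N, ∑ m ∈ range N, (F n m : ℝ) * (x n * x m) := by
    rw [sum_comm]
    exact sum_congr rfl fun n _ => sum_congr rfl fun m _ => by rw [mul_comm (x m)]
  simp only [q_Psd, sc, Int.cast_add, add_mul, sum_add_distrib] at h1
  linarith

theorem psd_ok : PsdStmt := by
  intro F N h w
  have h1 := real_Psd F N h fun n => (w ^ n).re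
  have h2 := real_Psd F N h fun n => (w ^ n).im
  refine (add_nonneg h1 h2).trans_eq ?_
  rw [fm, ← sum_add_distrib]
  refine sum_congr rfl fun n _ => ?_
  rw [← sum_add_distrib]
  refine sum_congr rfl fun m _ => ?_
  rw [mul_re, conj_re, conj_im]
  ring

end Pool.Agent.MP_757d88_an
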