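import Pool.Agent.MP_757d88_an.Snow
import Pool.Agent.MP_757d88_an.Defs2

/-! The aligned snowflake recursion. -/

set_option autoImplicit false

noncomputable section

namespace Pool.Agent.MP_757d88_an

open Complex Metric Set Function

namespace Snow2

open Snow

/-- one step of the recursion, keeping the rotation -/
def st2 (L l : ℂ → ℂ) (k : ℕ) (u w : ℂ) : ℂ := st L l k u w + log u

/-- the weighted length element -/
def wt2 (nu : ℂ → ℝ) (L : ℂ → ℂ) (w : ℂ) : ℝ := ‖DL L w‖ * nu (w * exp (L w))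

variable {L l : ℂ → ℂ} {E F : ℝ} {k : ℕ} {u w : ℂ} {nu rho : ℂ → ℝ}

theorem st2_eq (u0 : u ≠ 0) : w * exp (st2 L l k u w) = u * (w * exp (st L l k u w)) := by
  rw [st2, exp_add, exp_log u0]
  ring

theorem good2 (h : Good (st L l k u) E) (hu : ‖u‖ = 1) : Good (st2 L l k u) E := by
  have u0 : u ≠ 0 := fun c => by simp [c] at hu
  refine ⟨h.diff.add_const _, fun w hw z hz e => ?_, fun w hw => ?_, fun w hw => ?_⟩
  · have e1 : w * exp (st2 L l k u w) = z * exp (st2 L l k u z) := e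
    rw [st2_eq u0, st2_eq u0] at e1
    exact h.inj hw hz (mul_left_cancel₀ u0 e1)
  · rw [st2_eq u0, norm_mul, hu, one_mul]
    exact h.lt w hw
  · rw [st2, neg_add, exp_add, norm_mul, exp_neg (log u), exp_log u0, norm_inv, hu, inv_one, mul_one]
    exact h.bd w hw

theorem DL_st2 : DL (st2 L l k u) w = DL (st L l k u) w := by
  have : deriv (st2 L l k u) w = deriv (st L l k u) w := deriv_add_const (log u)
  rw [DL, DL, this]

theorem cont_wt2 (h : Good L E) (hn : Continuous nu) : ContinuousOn (wt2 nu L) (ball 0 1) :=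
  (cont_DL h).mul (hn.comp_continuousOn (continuousOn_id.mul h.diff.continuousOn.cexp))

theorem cont_two2 {r : ℝ} (h : Good L E) (h' : Good l F) (hk : 2 ≤ k) (hn : Continuous nu)
    (r1 : r < 1) : ContinuousOn
      (fun p : ℂ × ℂ => ‖DL L (p.2 ^ k)‖ * wt2 nu l (p.1 * rt L k p.2))
      (sphere 0 1 ×ˢ sphere 0 r) := by
  have c1 : ContinuousOn (rt L k) (ball 0 1) :=
    continuousOn_id.mul ((cont_pow hk h.diff.continuousOn).div_const _).cexp
  have c2 : ContinuousOn (fun p : ℂ × ℂ => ‖DL L (p.2 ^ k)‖) (sphere 0 1 ×ˢ sphere 0 r) :=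
    (cont_pow hk (cont_DL h)).comp continuousOn_snd fun p hp => sph_sub r1 hp.2
  have c3 : ContinuousOn (fun p : ℂ × ℂ => p.1 * rt L k p.2) (sphere 0 1 ×ˢ sphere 0 r) :=
    continuousOn_fst.mul (c1.comp continuousOn_snd fun p hp => sph_sub r1 hp.2)
  exact c2.mul ((cont_wt2 h' hn).comp c3
    fun p hp => rt_mem h hk (mem_sphere_zero_iff_norm.1 hp.1) (sph_sub r1 hp.2))

theorem step2 {lam r c : ℝ} (h : Good L (F ^ 2)) (h' : Good l F) (hF : 1 ≤ F) (hk : 2 ≤ k)
    (hn : Continuous nu) (hr : Continuous rho) (hp : ∀ u, 0 ≤ rho u) (ha : av rho 1 ≤ 1)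
    (he : ∀ z, 0 < ‖z‖ → ‖z‖ < 1 → lam * nu (z ^ k) ≤ av (fun u => rho u * wt2 nu l (u * z)) 1)
    (r0 : 0 < r) (r1 : r < 1) (c0 : 0 ≤ c) (hc : c < lam * av (wt2 nu L) (r ^ k)) :
    ∃ L', Good L' (F ^ 2) ∧ c ≤ av (wt2 nu L') r := by
  by_contra hh
  push Not at hh
  have mw : ∀ w : ℂ, ‖w‖ = r → w ∈ ball (0 : ℂ) 1 := fun w hw => by
    rw [mem_ball_zero_iff, hw]; exact r1
  obtain ⟨P, hP⟩ : ∃ P : ℂ → ℂ → ℝ,
      P = fun u w => rho u * (‖DL L (w ^ k)‖ * wt2 nu l (u * rt L k w)) := ⟨_, rfl⟩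
  have c2 : ContinuousOn (uncurry P) (sphere 0 1 ×ˢ sphere 0 r) := by
    rw [hP]
    exact (hr.comp continuous_fst).continuousOn.mul (cont_two2 h h' hk hn r1)
  have c3 : ContinuousOn (uncurry fun w u => P u w) (sphere 0 r ×ˢ sphere 0 1) :=
    c2.comp (f := Prod.swap) continuous_swap.continuousOn fun p hp => ⟨hp.2, hp.1⟩
  have a1 : av (fun u => av (P u) r) 1 ≤ av (fun u => c * rho u) 1 :=
    av_mono zero_le_one (av_contOn r0.le c2) (continuousOn_const.mul hr.continuousOn)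
      fun u hu => by
      have u0 : u ≠ 0 := fun c => by simp [c] at hu
      rw [hP, mul_comm c]
      simp only []
      rw [av_const_mul']
      refine mul_le_mul_of_nonneg_left ?_ (hp u)
      refine le_of_eq_of_le (av_congr r0.le fun w hw => ?_)
        (hh _ (good2 (good h h' hF hk hu) hu)).le
      obtain ⟨D, d1, d2⟩ := der h h' hk hu (mw w hw)
      simp only [wt2]
      rw [DL_st2, DL.eq_1 (st L l k u), d1.deriv, d2, norm_mul (DL _ _), st2_eq u0, st_eq,
        mul_assoc ‖DL L _‖]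
  rw [av_swap zero_le_one r0.le c2, av_const_mul'] at a1
  have c4 : ContinuousOn (wt2 nu L) (sphere 0 (r ^ k)) :=
    (cont_wt2 h hn).mono (sph_sub (pow_lt_one₀ r0.le r1 (by omega)))
  have a2 : av (fun w => lam * wt2 nu L (w ^ k)) r ≤ av (fun w => av (fun u => P u w) 1) r :=
    av_mono r0.le (continuousOn_const.mul ((cont_pow hk (cont_wt2 h hn)).mono (sph_sub r1)))
      (av_contOn zero_le_one c3) fun w hw => by
      have b1 := rt_mem h hk norm_one (mw w hw)
      rw [one_mul, mem_ball_zero_iff] at b1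
      have b0 : 0 < ‖rt L k w‖ := by
        rw [rt, norm_mul, hw]
        exact mul_pos r0 (norm_pos_iff.2 (exp_ne_zero _))
      have := mul_le_mul_of_nonneg_left (he _ b0 b1) (norm_nonneg (DL L (w ^ k)))
      rw [hP]
      simp only [mul_left_comm (rho _)]
      rw [av_const_mul', wt2, ← rt_pow hk]
      linarith
  rw [av_const_mul', av_pow (by omega) r0.le c4] at a2
  have a3 := mul_le_mul_of_nonneg_left ha c0
  linarith

end Snow2

open Snow Snow2 in
theorem snow2 : Snow2Stmt := by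
  rintro k lam mu hk m0 ml ⟨l, E, V, nu, rho, hl, hn, hr, hp, ha, hV, he⟩
  have hF : 1 ≤ max E 1 := le_max_right _ _
  have hl' : Good l (max E 1) := ⟨hl.diff, hl.inj, hl.lt, fun w hw =>
    (hl.bd w hw).trans (le_max_left _ _)⟩
  have k0 : (0 : ℝ) < k := by positivity
  have r1 : ∀ n : ℕ, Real.exp (-1 / (k : ℝ) ^ n) < 1 := fun n =>
    Real.exp_lt_one_iff.2 (div_neg_of_neg_of_pos (by norm_num) (by positivity))
  obtain ⟨x, hx, hm⟩ := (isCompact_sphere (0 : ℂ) (Real.exp (-1 / (k : ℝ) ^ 0))).exists_isMinOn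
    (NormedSpace.sphere_nonempty.2 (Real.exp_pos _).le) hn.continuousOn
  rw [mem_sphere_zero_iff_norm] at hx
  obtain ⟨c0, cV⟩ := hV x (by rw [hx]; exact Real.exp_pos _) (by rw [hx]; exact r1 0)
  have V0 := c0.trans_le cV
  have main : ∀ n : ℕ, ∃ L, Good L (max E 1 ^ 2) ∧ nu x * mu ^ n ≤
      av (wt2 nu L) (Real.exp (-1 / (k : ℝ) ^ n)) := fun n => by
    induction n with
    | zero =>
      have g0 : Good (fun _ => 0) (max E 1 ^ 2) :=
        ⟨differentiableOn_const _, fun w _ z _ e => by simpa using e,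
        fun w hw => by simpa using hw, fun w _ => by
          rw [neg_zero, exp_zero, norm_one]; exact one_le_pow₀ hF⟩
      refine ⟨fun _ => 0, g0, ?_⟩
      rw [pow_zero mu, mul_one]
      refine (Real.circleAverage_const (nu x) (0 : ℂ) _).symm.trans_le
        (av_mono (Real.exp_pos _).le continuousOn_const ((cont_wt2 g0 hn).mono (sph_sub (r1 0)))
          fun z hz => ?_)
      simp only [wt2, DL, deriv_const, mul_zero, add_zero, norm_one, one_mul, exp_zero, mul_one]
      exact hm (mem_sphere_zero_iff_norm.2 hz)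
    | succ n ih =>
      obtain ⟨L, h1, h2⟩ := ih
      refine step2 h1 hl' hF hk hn hr hp ha he (Real.exp_pos _) (r1 _)
        (mul_pos c0 (pow_pos m0 _)).le ?_
      rw [← Real.exp_nat_mul, show (k : ℝ) * (-1 / (k : ℝ) ^ (n + 1)) = -1 / (k : ℝ) ^ n by
        rw [pow_succ]; field_simp, pow_succ mu, ← mul_assoc, mul_comm lam]
      exact (mul_lt_mul_of_pos_left ml (mul_pos c0 (pow_pos m0 n))).trans_le
        (mul_le_mul_of_nonneg_right h2 (m0.trans ml).le)
  refine ⟨_ / V, max E 1 ^ 2, div_pos c0 V0, one_le_pow₀ hF, fun n => ?_⟩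
  obtain ⟨L, h1, h2⟩ := main n
  refine ⟨L, h1, ?_⟩
  rw [div_mul_eq_mul_div, div_le_iff₀' V0, ← av_const_mul']
  refine h2.trans (av_mono (Real.exp_pos _).le ((cont_wt2 h1 hn).mono (sph_sub (r1 n)))
    (continuousOn_const.mul ((cont_DL h1).mono (sph_sub (r1 n)))) fun z hz => ?_)
  rw [wt2, mul_comm]
  refine mul_le_mul_of_nonneg_right (hV _ ?_ (h1.lt z (by rw [mem_ball_zero_iff, hz]; exact r1 n))).2
    (norm_nonneg _)
  rw [norm_mul, hz]
  exact mul_pos (Real.exp_pos _) (norm_pos_iff.2 (exp_ne_zero _))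

end Pool.Agent.MP_757d88_an
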