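import Pool.Agent.MP_757d88_an.Defs2

set_option autoImplicit false

namespace Pool.Agent.MP_757d88_an

open Finset

theorem key_Wg {θ r : ℝ} (h0 : 0 ≤ θ) (h1 : θ ≤ 1) (hr : 0 < r) (hr1 : r ≤ 1) :
    θ * (θ - 1) / 2 + (1 - θ ^ 2) * r + θ * (θ + 1) / 2 * r ^ 2 ≤ r ^ (1 + θ) := by
  rcases hr1.eq_or_lt with rfl | hlt
  · rw [Real.one_rpow]; apply le_of_eq; ring
  have hd : ∀ x : ℝ, 0 < x → HasDerivAt
      (fun x : ℝ => x ^ (1 + θ) - (1 - θ ^ 2) * x - θ * (θ + 1) / 2 * x ^ 2)
      ((1 + θ) * x ^ θ - (1 - θ ^ 2) - θ * (θ + 1) * x) x := by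
    intro x hx
    have a1 := Real.hasDerivAt_rpow_const (x := x) (p := 1 + θ) (Or.inl hx.ne')
    rw [add_sub_cancel_left] at a1
    have a2 := (a1.sub ((hasDerivAt_id x).const_mul (1 - θ ^ 2))).sub
      ((hasDerivAt_pow 2 x).const_mul (θ * (θ + 1) / 2))
    refine HasDerivAt.congr_deriv a2 ?_
    simp only [Nat.cast_ofNat, Nat.add_one_sub_one, pow_one, mul_one]
    ring
  obtain ⟨x, hx, e⟩ := exists_hasDerivAt_eq_slope _ _ hlt
    (fun x hx => (hd x (lt_of_lt_of_le hr hx.1)).continuousAt.continuousWithinAt)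
    (fun x hx => hd x (hr.trans hx.1))
  have hx0 : 0 < x := hr.trans hx.1
  have a1 := Real.geom_mean_le_arith_mean2_weighted h0 (sub_nonneg.2 h1) hx0.le zero_le_one
    (by ring : θ + (1 - θ) = 1)
  rw [Real.one_rpow, mul_one, mul_one] at a1
  have a2 : (1 + θ) * x ^ θ - (1 - θ ^ 2) - θ * (θ + 1) * x ≤ 0 := by nlinarith
  rw [e, div_le_iff₀ (by linarith), Real.one_rpow] at a2
  nlinarith

theorem three_Wg {D ρ : ℕ} (hD : 0 < D) (hρ : ρ ≤ D) {τ : ℝ} (h0 : 0 < τ) (h1 : τ ≤ 1) :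
    (ρ : ℝ) * (ρ - D) + 2 * ((D + ρ) * (D - ρ)) * τ ^ D + (D + ρ) * ρ * τ ^ (2 * D) ≤
      2 * (D * D) * τ ^ (D + ρ) := by
  have hD' : (0 : ℝ) < D := by exact_mod_cast hD
  have hρ' : (ρ : ℝ) ≤ D := by exact_mod_cast hρ
  have h := key_Wg (θ := ρ / D) (r := τ ^ D) (by positivity) ((div_le_one hD').2 hρ')
    (by positivity) (pow_le_one₀ h0.le h1)
  have e : (τ ^ D) ^ (1 + (ρ : ℝ) / D) = τ ^ (D + ρ) := by
    rw [← Real.rpow_natCast, ← Real.rpow_mul h0.le, ← Real.rpow_natCast]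
    congr 1
    push_cast
    field_simp
  rw [e, ← pow_mul, mul_comm D 2] at h
  refine le_trans (le_of_eq ?_) (mul_le_mul_of_nonneg_left h (by positivity))
  field_simp
  ring

theorem div_Wg (x : ℤ) {m : ℕ} (hm : 0 < m) : ((x / (m : ℤ) : ℤ) : ℝ) ≤ (x : ℝ) / m := by
  rw [le_div_iff₀ (by exact_mod_cast hm)]
  exact_mod_cast Int.ediv_mul_le x (by exact_mod_cast hm.ne' : (m : ℤ) ≠ 0)

theorem wg_ok : WgStmt := by
  intro k S J X a b c P τ h0 h1
  have hS : (0 : ℝ) ≤ S * τ ^ P := by positivity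
  by_cases hac : a = c
  · subst hac
    by_cases hP : P ≤ k * X a
    · have a1 : ∀ t, (wg k S J X a b a P t : ℝ) * τ ^ (k * X t) =
          if t = a then S * τ ^ (k * X a) else 0 := by
        intro t
        simp only [wg, Bool.cond_eq_ite, Nat.beq_eq, if_true, Bool.and_eq_true, Nat.ble_eq, hP,
          and_true]
        by_cases ht : t = a
        · simp [ht]
        · simp [ht]
      simp only [a1, sum_ite_eq']
      split_ifs
      · exact mul_le_mul_of_nonneg_left (pow_le_pow_of_le_one h0.le h1 hP) (Nat.cast_nonneg _)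
      · exact hS
    · have a1 : ∀ t, wg k S J X a b a P t = 0 := by
        intro t
        simp only [wg, Bool.cond_eq_ite, Nat.beq_eq, if_true, Bool.and_eq_true, Nat.ble_eq, hP,
          and_false, if_false]
      simpa [a1] using hS
  by_cases hc : a < J ∧ X a < X b ∧ X a + X c = 2 * X b ∧ k * X b ≤ P ∧ P ≤ k * X c ∧ 0 < k
  swap
  · have a1 : ∀ t, wg k S J X a b c P t = 0 := by
      intro t
      simp only [wg, Bool.cond_eq_ite, Nat.beq_eq, hac, if_false, Bool.and_eq_true, Nat.blt_eq,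
        Nat.ble_eq]
      rw [if_neg]
      rintro ⟨⟨⟨⟨⟨⟨-, c1⟩, c2⟩, c3⟩, c4⟩, c5⟩, c6⟩
      exact hc ⟨c1, c2, c3, c4, c5, c6⟩
    simpa [a1] using hS
  obtain ⟨c1, c2, c3, c4, c5, c6⟩ := hc
  have hab : a ≠ b := by rintro rfl; omega
  have hbc : b ≠ c := by rintro rfl; omega
  obtain ⟨D, hD⟩ : ∃ D, k * X b = k * X a + D :=
    Nat.exists_eq_add_of_le (Nat.mul_le_mul_left k c2.le)
  have hD0 : 0 < D := by
    have := Nat.mul_lt_mul_of_pos_left c2 c6
    omega
  have hC : k * X c = k * X a + 2 * D := by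
    have : k * X a + k * X c = 2 * (k * X b) := by rw [← mul_add, c3]; ring
    omega
  obtain ⟨ρ, hρ⟩ := Nat.exists_eq_add_of_le c4
  have hρD : ρ ≤ D := by omega
  have hρD' : (ρ : ℝ) ≤ D := by exact_mod_cast hρD
  have hD' : (0 : ℝ) < D := by exact_mod_cast hD0
  have hm : 0 < 2 * (D * D) := by positivity
  have e1 : P - k * X b = ρ := by omega
  have e2 : P - k * X a = D + ρ := by omega
  have e3 : k * X c - P = D - ρ := by omega
  have e4 : k * X b - k * X a = D := by omega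
  have e5 : (P : ℤ) - (k * X c : ℕ) = ρ - D := by omega
  set wa : ℝ := S * ((ρ : ℝ) * (ρ - D)) / (2 * (D * D)) with hwa
  set wb : ℝ := S * (2 * (((D : ℝ) + ρ) * (D - ρ))) / (2 * (D * D)) with hwb
  set wc : ℝ := S * (((D : ℝ) + ρ) * ρ) / (2 * (D * D)) with hwc
  have hb0 : 0 ≤ wb := by
    have : (0 : ℝ) ≤ D - ρ := by linarith
    positivity
  have hc0 : 0 ≤ wc := by positivity
  have a1 : ∀ t, (wg k S J X a b c P t : ℝ) * τ ^ (k * X t) ≤
      (if t = a then wa * τ ^ (k * X a) else 0) + (if t = b then wb * τ ^ (k * X b) else 0) +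
        (if t = c then wc * τ ^ (k * X c) else 0) := by
    intro t
    simp only [wg, Bool.cond_eq_ite, Nat.beq_eq, hac, if_false, Bool.and_eq_true, Nat.blt_eq,
      Nat.ble_eq, Bool.or_eq_true, c1, c2, c3, c4, c5, c6, and_true, e1, e2, e3, e4, e5]
    by_cases ta : t = a
    · subst ta
      simp only [true_or, if_true, hab, hac, if_false, add_zero]
      refine mul_le_mul_of_nonneg_right ((div_Wg _ hm).trans (le_of_eq ?_)) (by positivity)
      rw [hwa]; push_cast; ring
    by_cases tb : t = b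
    · subst tb
      simp only [ta, true_or, or_true, if_true, hbc, if_false, add_zero, zero_add]
      refine mul_le_mul_of_nonneg_right ((div_Wg _ hm).trans (le_of_eq ?_)) (by positivity)
      rw [hwb]; push_cast [Nat.cast_sub hρD]; ring
    by_cases tc : t = c
    · subst tc
      simp only [ta, tb, or_true, if_true, if_false, add_zero, zero_add]
      refine mul_le_mul_of_nonneg_right ((div_Wg _ hm).trans (le_of_eq ?_)) (by positivity)
      rw [hwc]; push_cast; ring
    · simp [ta, tb, tc]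
  refine (sum_le_sum fun t _ => a1 t).trans ?_
  simp only [sum_add_distrib, sum_ite_eq', mem_range, c1, if_true]
  have b1 : (if b < J then wb * τ ^ (k * X b) else 0) ≤ wb * τ ^ (k * X b) := by
    split_ifs
    · exact le_rfl
    · positivity
  have b2 : (if c < J then wc * τ ^ (k * X c) else 0) ≤ wc * τ ^ (k * X c) := by
    split_ifs
    · exact le_rfl
    · positivity
  have b3 := mul_le_mul_of_nonneg_left (three_Wg hD0 hρD h0 h1)
    (show 0 ≤ S * τ ^ (k * X a) / (2 * (D * D)) by positivity)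
  have b4 : wa * τ ^ (k * X a) + wb * τ ^ (k * X b) + wc * τ ^ (k * X c) ≤ S * τ ^ P := by
    refine le_trans (le_of_eq ?_) (b3.trans (le_of_eq ?_))
    · rw [hC, hD, hwa, hwb, hwc, pow_add, pow_add]; ring
    · rw [hρ, hD, add_assoc, pow_add τ (k * X a)]; field_simp
  linarith

end Pool.Agent.MP_757d88_an
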