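import Pool.Agent.MP_757d88_an.Tay
import Pool.Agent.MP_757d88_an.Defs2

/-! Bessel inequality in the rotation. -/

set_option autoImplicit false

noncomputable section

namespace Pool.Agent.MP_757d88_an

open Complex Metric ComplexConjugate Finset

theorem an_scale_Win {g : ℂ → ℂ} (hg : DifferentiableOn ℂ g (ball 0 1)) (z : ℂ) :
    AnalyticAt ℂ (fun u => g (u * z)) 0 :=
  (anal one_pos hg).comp_of_eq (f := fun u => u * z) (analyticAt_id.mul analyticAt_const)
    (zero_mul z)

theorem cf_cmul_Win {f : ℂ → ℂ} (hf : AnalyticAt ℂ f 0) (c : ℂ) (n : ℕ) :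
    cf (fun u => c * f u) n = c * cf f n := by
  rw [← coeff_Tay, Tay_mul (f := fun _ => c) analyticAt_const hf, Tay_const,
    PowerSeries.coeff_C_mul, coeff_Tay]

theorem cf_add_Win {f g : ℂ → ℂ} (hf : AnalyticAt ℂ f 0) (hg : AnalyticAt ℂ g 0) (n : ℕ) :
    cf (fun u => f u + g u) n = cf f n + cf g n := by
  rw [← coeff_Tay, Tay_add hf hg, map_add, coeff_Tay, coeff_Tay]

theorem cf_scale_Win (z : ℂ) (p : ℕ) : ∀ G : ℂ → ℂ, DifferentiableOn ℂ G (ball 0 1) →
    cf (fun u => G (u * z)) p = cf G p * z ^ p := by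
  induction p with
  | zero => intro G _; simp [cf_zero]
  | succ p ih =>
    intro G hG
    obtain ⟨g, hg, e, hc⟩ := exists_peel one_pos hG
    have ha : AnalyticAt ℂ (fun u => z * g (u * z)) 0 := analyticAt_const.mul (an_scale_Win hg z)
    have e1 : (fun u => G (u * z)) = fun u => G 0 + u * (z * g (u * z)) := by
      funext u
      rw [e (u * z)]
      ring
    have e2 : cf (fun _ : ℂ => G 0) (p + 1) = 0 := by
      rw [← coeff_Tay, Tay_const, PowerSeries.coeff_C, if_neg p.succ_ne_zero]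
    rw [e1, cf_add_Win (g := fun u => u * (z * g (u * z))) analyticAt_const (analyticAt_id.mul ha),
      cf_shift ha, cf_cmul_Win (an_scale_Win hg z), ih g hg, hc, e2]
    ring

theorem Tay_pow_Win (m : ℕ) : Tay (fun u => u ^ m) = PowerSeries.X ^ m := by
  induction m with
  | zero => simpa using Tay_const 1
  | succ m ih =>
    simp only [pow_succ]
    rw [Tay_mul (f := fun u => u ^ m) (g := fun u => u) (analyticAt_id.pow m) analyticAt_id, ih,
      Tay_id]

theorem cf_win_Win {H : ℂ → ℂ} (hH : AnalyticAt ℂ H 0) (al : ℕ → ℤ) (k N t : ℕ) :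
    cf (fun u => (∑ i ∈ range N, (al i : ℂ) * u ^ (k * i)) * H u) t =
      ∑ i ∈ range N, (al i : ℂ) * if k * i ≤ t then cf H (t - k * i) else 0 := by
  induction N with
  | zero =>
    simp only [range_zero, sum_empty, zero_mul]
    rw [← coeff_Tay, Tay_const]
    simp
  | succ N ih =>
    have h1 : AnalyticAt ℂ (fun u : ℂ => u ^ (k * N) * H u) 0 := (analyticAt_id.pow _).mul hH
    have h2 : AnalyticAt ℂ (fun u : ℂ => (∑ i ∈ range N, (al i : ℂ) * u ^ (k * i)) * H u) 0 :=
      (Finset.analyticAt_fun_sum _ fun i _ => analyticAt_const.mul (analyticAt_id.pow _)).mul hH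
    simp only [sum_range_succ, add_mul, mul_assoc]
    rw [cf_add_Win (g := fun u => (al N : ℂ) * (u ^ (k * N) * H u)) h2 (analyticAt_const.mul h1),
      ih, cf_cmul_Win h1, ← coeff_Tay,
      Tay_mul (f := fun u => u ^ (k * N)) (analyticAt_id.pow _) hH, Tay_pow_Win,
      PowerSeries.coeff_X_pow_mul', coeff_Tay]

theorem reidx_Win (φ : ℕ → ℝ) (k N : ℕ) :
    ∑ t ∈ range (k * N), φ t = ∑ s ∈ range N, ∑ j ∈ range k, φ (j + k * s) := by
  induction N with
  | zero => simp
  | succ N ih =>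
    rw [Nat.mul_succ, sum_range_add, ih, sum_range_succ]
    simp only [add_comm (k * N)]

theorem cut_Win (φ : ℕ → ℂ) {s N : ℕ} (h : s < N) :
    ∑ i ∈ range N, (if i ≤ s then φ i else 0) = ∑ i ∈ range (s + 1), φ i := by
  rw [← sum_filter]
  congr 1
  ext i
  simp only [mem_filter, mem_range]
  omega

theorem win (h : FmStmt) : WinStmt := by
  intro G g al k N z _ hG hg hz
  have z0 := norm_nonneg z
  have hR : 1 < 2 / (1 + ‖z‖) := by rw [lt_div_iff₀ (by positivity)]; linarith
  have hd : DifferentiableOn ℂ (fun u => (∑ i ∈ range N, (al i : ℂ) * u ^ (k * i)) * G (u * z))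
      (ball 0 (2 / (1 + ‖z‖))) := by
    refine DifferentiableOn.mul (by fun_prop) (hG.comp (by fun_prop) fun u hu => ?_)
    rw [mem_ball_zero_iff, lt_div_iff₀ (by positivity)] at hu
    rw [mem_ball_zero_iff, norm_mul]
    have u0 := norm_nonneg u
    by_contra hc
    nlinarith
  have hb := bessel one_pos hR hd (k * N)
  simp only [norm_mul, mul_pow, one_pow, mul_one] at hb
  refine le_trans (le_of_eq ?_) hb
  rw [reidx_Win, sum_comm]
  refine sum_congr rfl fun j hj => ?_
  rw [mem_range] at hj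
  have key : ∀ s ∈ range N,
      ‖cf (fun u => (∑ i ∈ range N, (al i : ℂ) * u ^ (k * i)) * G (u * z)) (j + k * s)‖ ^ 2 =
      (‖z‖ ^ 2) ^ j * fm N (fun n m => (((if n ≤ s then al (s - n) else 0 : ℤ) : ℝ) * g (j + k * n)) *
        (((if m ≤ s then al (s - m) else 0 : ℤ) : ℝ) * g (j + k * m))) (z ^ k) := by
    intro s hs
    rw [mem_range] at hs
    rw [← h.1 N (fun n => ((if n ≤ s then al (s - n) else 0 : ℤ) : ℝ) * g (j + k * n)),
      cf_win_Win (an_scale_Win hG z), ← pow_mul, mul_comm 2 j, pow_mul, ← mul_pow, ← norm_pow z,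
      ← norm_mul]
    congr 2
    have e1 : ∀ i, k * i ≤ j + k * s ↔ i ≤ s := fun i =>
      ⟨fun hi => by by_contra hc; nlinarith [not_le.1 hc], fun hi => by nlinarith⟩
    have e0 : ∀ n, ((((if n ≤ s then al (s - n) else 0 : ℤ) : ℝ) * g (j + k * n) : ℝ) : ℂ) *
        (z ^ k) ^ n = if n ≤ s then (al (s - n) : ℂ) * g (j + k * n) * (z ^ k) ^ n else 0 := by
      intro n
      split_ifs <;> simp
    simp only [e0, e1, mul_ite, mul_zero]
    rw [cut_Win _ hs, cut_Win _ hs, mul_sum, ← sum_flip]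
    refine sum_congr rfl fun n hn => ?_
    have hn' : n ≤ s := Nat.lt_succ_iff.1 (mem_range.1 hn)
    have e2 : j + k * s - k * (s - n) = j + k * n := by
      obtain ⟨d, rfl⟩ := Nat.exists_eq_add_of_le hn'
      rw [Nat.add_sub_cancel_left, mul_add, ← add_assoc, Nat.add_sub_cancel]
    rw [e2, cf_scale_Win z _ G hG, hg _ (by nlinarith), pow_add, pow_mul]
    ring
  rw [sum_congr rfl key, ← mul_sum]
  congr 1
  simp only [fm, kr, sz_eq]
  rw [sum_comm (s := range N) (t := range N) (f := fun s n => ∑ m ∈ range N, _)]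
  refine sum_congr rfl fun n _ => ?_
  rw [sum_comm (s := range N) (t := range N)]
  refine sum_congr rfl fun m _ => ?_
  rw [Int.cast_sum, sum_mul, sum_mul]
  refine sum_congr rfl fun s _ => ?_
  rw [Int.cast_mul]
  ring

end Pool.Agent.MP_757d88_an
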