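import Pool.Agent.MP_757d88_an.Eig2Of
import Pool.Agent.MP_757d88_an.Snow2
import Pool.Agent.MP_757d88_an.Fm
import Pool.Agent.MP_757d88_an.Win
import Pool.Agent.MP_757d88_an.Psd
import Pool.Agent.MP_757d88_an.Wg
import Pool.Agent.MP_757d88_an.Dig
import Pool.Agent.MP_757d88_an.Eta
import Pool.Agent.MP_757d88_an.Pert
import Pool.Agent.MP_757d88_an.Fin
import Pool.Agent.MP_757d88_an.Blk

/-! Assembly for aligned snowflakes. -/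

set_option autoImplicit false

namespace Pool.Agent.MP_757d88_an

theorem main2 (p : Par) {n B M c u w : ℕ} {d P E : List ℤ} {g : ℝ}
    (hL : Last p.L (p.k * p.N) (1 / p.d) d P) (h : p.ck = true)
    (h0 : (0 < p.Sd ∧ 0 < p.L ∧ 0 < p.N ∧ 0 < p.Tt ∧ 0 < p.Sw ∧ 0 < p.bb ∧ 0 < p.kd) ∧
      (p.q ≠ 0 ∧ p.c ≠ 0 ∧ 0 < p.d ∧ 1 ≤ p.k ∧ 0 < p.J ∧ 0 < p.a2 ∧ p.C 0 0 0 ≠ 0 ∧
      (∀ m < p.N, p.C 0 0 (m + 1) = 0) ∧ p.kd ^ p.q * p.d ^ 2 ≤ 1 ^ 2 * p.kn ^ p.q ∧ p.S 0 = [1]) ∧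
      2 ≤ p.k ∧ p.k ^ u * p.bb ^ w ≤ c ^ w ∧ w ≠ 0 ∧ 0 < c ∧ c < p.a)
    (hE : eCk n B (p.k * p.N) M d E = true)
    (hS : ∀ j, j + 1 < p.N → mCk n B (p.k * p.N) M p.L E (p.S j) (p.S (j + 1)) = true)
    (hY : ∀ t < p.J, odeCk n B (p.k * p.N) M p.q p.c d P (p.X t) (p.Y t) = true)
    (hg : 0 < g) (hg' : g < u / w) :
    ∃ N : ℕ, ∀ n, N ≤ n → ∃ f b, IsSig f b ∧ (n : ℝ) ^ (g - 1) ≤ ‖b n‖ := by
  obtain ⟨a0, a1, hk, h1, hw, hc, ha⟩ := h0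
  have hb' : (0 : ℝ) < p.bb := by exact_mod_cast a0.2.2.2.2.2.1
  refine fin eta pert p.k (c / p.bb) g (u / w) hk hg hg' ?_ (snow2 p.k (p.a / p.bb) _ hk
    (by positivity) (div_lt_div_of_pos_right (by exact_mod_cast ha) hb')
    (eig2_of dig psd_ok fmf wg_ok (win fmf) p hL h a0 a1 hE hS hY))
  refine le_of_pow_le_pow_left₀ hw (by positivity) ?_
  rw [← Real.rpow_natCast, ← Real.rpow_mul (Nat.cast_nonneg _),
    div_mul_cancel₀ _ (by exact_mod_cast hw), Real.rpow_natCast, div_pow,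
    le_div_iff₀ (by positivity)]
  exact_mod_cast h1

end Pool.Agent.MP_757d88_an
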