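import Pool.Agent.MP_757d88_an.Defs2

/-! The integer check for aligned snowflakes. -/

set_option autoImplicit false

namespace Pool.Agent.MP_757d88_an

/-- the data of a certificate -/
structure Par where
  W : ℕ
  k : ℕ
  N : ℕ
  n : ℕ
  J : ℕ
  L : ℕ
  q : ℕ
  c : ℕ
  M : ℕ
  Sd : ℕ
  off : ℕ
  b : ℕ
  ob : ℕ
  Mg : ℕ
  Sw : ℕ
  Tt : ℕ
  d : ℕ
  a : ℕ
  bb : ℕ
  kn : ℕ
  kd : ℕ
  al : List ℤ
  ps : List (List ℤ)
  Xs : List ℕ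
  Ys : List (List ℤ)
  Cs : List (List (List ℤ))
  pl : List (ℕ × ℕ × ℕ × ℕ)
  Hs : List (List ℤ)

def plan : List (ℕ × ℕ × ℕ × ℕ) → ℕ → ℕ × ℕ × ℕ
  | [], _ => (0, 0, 0)
  | e :: l, P => bif Nat.ble P e.1 then e.2 else plan l P

namespace Par

variable (p : Par)

def X (t : ℕ) : ℕ := p.Xs.getD t 0
def Y (t : ℕ) : List ℤ := p.Ys.getD t []
def S (m : ℕ) : List ℤ := p.ps.getD m []
def C (t r m : ℕ) : ℤ := ((p.Cs.getD t []).getD r []).getD m 0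
def A (i : ℕ) : ℤ := p.al.getD i 0
def B : ℕ := 2 ^ p.W
def xs (m : ℕ) : ℤ := pk p.n p.B (p.S m)
def xy (t : ℕ) : ℤ := pk p.n p.B (p.Y t)
def sh : ℕ := p.off * geo p.B (p.k * p.N) + p.B ^ (p.k * p.N) * p.B ^ (p.k * p.N + 2)
def gx (i r : ℕ) : ℤ := p.xy i * sz (fun m => p.C i r m * p.xs m) p.N + p.sh
def gn (i r : ℕ) : ℕ := (p.gx i r).toNat
def dv (j n : ℕ) : ℕ := p.Sd * p.L ^ (j + p.k * n)
def rd (i r j n : ℕ) : ℕ := dg p.W p.k (p.gn i r) j n / p.dv j n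
def ro (j n : ℕ) : ℕ := p.off / p.dv j n
def uo (s j : ℕ) : ℕ := sn (fun n => p.ro j n * p.b ^ (s * n)) p.N
def uu (s i r j : ℕ) : ℤ := (sn (fun n => p.rd i r j n * p.b ^ (s * n)) p.N : ℕ) - (p.uo s j : ℕ)
def hh (i j : ℕ) : ℤ := sz (fun r => p.uu p.N i r j * p.uu 1 i r j) p.N
def okg (i r : ℕ) : Bool :=
  decide (0 ≤ p.gx i r) &&
    Nat.ble (p.k * p.N * (p.M * sn (fun m => (p.C i r m).natAbs * p.M) p.N)) p.off &&
    al2 (fun j => al2 (fun n => Nat.ble (p.rd i r j n) (p.ro j n + p.Mg) &&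
      Nat.ble (p.ro j n) (p.rd i r j n + p.Mg)) p.N) p.k
def ps' (i j : ℕ) : ℕ := p.X i + p.q * j
def w (i j t : ℕ) : ℤ :=
  wg p.k p.Sw p.J p.X (plan p.pl (p.ps' i j)).1 (plan p.pl (p.ps' i j)).2.1
    (plan p.pl (p.ps' i j)).2.2 (p.ps' i j) t
def hd (i j : ℕ) : ℤ := (p.Hs.getD i []).getD j 0
def AA (t : ℕ) : ℤ := sz (fun i => sz (fun j => p.w i j t * p.hd i j) p.k) p.J
def sw (t : ℕ) : ℕ := sn (fun i => sn (fun j => (p.w i j t).natAbs) p.k) p.J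
def K (n m : ℕ) : ℤ := kr p.A p.N n m
def Ks : ℕ := sn (fun n => sn (fun m => (p.K n m).natAbs) p.N) p.N
def a2 : ℕ := sn (fun i => (p.A i).natAbs * (p.A i).natAbs) p.N
def Er (t : ℕ) : ℕ := p.sw t * (p.N * (p.Ks * (2 * p.Mg + 1)))
def u (t : ℕ) : ℕ :=
  p.Tt * p.a2 * (p.c * p.c) * p.Sw * p.a * p.kn ^ p.X t /
    (p.bb * (p.Sd * p.Sd) * p.kd ^ p.X t) + 1
def Q (t n m : ℕ) : ℤ := sz (fun r => p.C t r n * p.C t r m) p.N
def F (t n m : ℕ) : ℤ :=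
  (p.Tt : ℤ) * (p.K n m * um p.b p.N p.ob (p.AA t) n m -
    (bif Nat.beq (n + m) 0 then (p.Er t : ℤ) else 0)) -
    ((p.u t * p.d ^ (n + m) : ℕ) : ℤ) * p.Q t n m
def C' (r n : ℕ) : ℤ := bif Nat.beq n 0 then 0 else p.C p.J r (n - 1)
def Up (n m : ℕ) : ℤ := sz (fun r => p.C' r n * p.C' r m) p.N
def G (t n m : ℕ) : ℤ :=
  sz (fun s => p.F s n m) (t + 1) + p.Up n m - (bif Nat.beq (t + 1) p.J then p.Q p.J n m else 0)
def okt (t : ℕ) : Bool :=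
  Nat.ble (p.sw t * (p.N * (p.Mg * p.Mg))) p.ob && psd (p.G t) p.N &&
    (Nat.ble (p.X t) (p.X (t + 1)) || Nat.ble p.J (t + 1))
def ck1 (i : ℕ) : Bool :=
  okL p.M (p.Y i) && al2 (fun r => p.okg i r) p.N && al2 (fun j => decide (p.hd i j = p.hh i j)) p.k
def ck2 : Bool :=
  al2 (fun m => okL p.M (p.S m)) p.N && Nat.blt (p.off + p.off) p.B &&
    Nat.blt (p.ob + p.ob) p.b && al2 (fun t => p.okt t) p.J &&
    (Nat.ble (p.X (p.J - 1)) (p.X 0 + p.q) && al2 (fun r => decide (p.C p.J r (p.N - 1) = 0)) p.N)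
def ck : Bool := al2 p.ck1 p.J && p.ck2

end Par

end Pool.Agent.MP_757d88_an
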