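import Pool.Agent.MP_757d88_an.Defs

/-! Circle averages and Taylor coefficients. -/

set_option autoImplicit false

noncomputable section

namespace Pool.Agent.MP_757d88_an

open Complex Metric Set ComplexConjugate Function Filter Topology

section
variable {E : Type} [NormedAddCommGroup E] [NormedSpace ℝ E]

theorem cm_mem {r : ℝ} (hr : 0 ≤ r) (t : ℝ) : circleMap 0 r t ∈ sphere (0 : ℂ) r :=
  circleMap_mem_sphere 0 hr t

omit [NormedSpace ℝ E] in
theorem cont_two {F : ℂ → ℂ → E} {r s : ℝ} (hr : 0 ≤ r) (hs : 0 ≤ s)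
    (h : ContinuousOn (uncurry F) (sphere 0 r ×ˢ sphere 0 s)) :
    Continuous (uncurry fun t u : ℝ => F (circleMap 0 r t) (circleMap 0 s u)) :=
  h.comp_continuous (f := fun p : ℝ × ℝ => (circleMap 0 r p.1, circleMap 0 s p.2))
    (by fun_prop) fun p => ⟨cm_mem hr _, cm_mem hs _⟩

theorem av_swap {F : ℂ → ℂ → E} {r s : ℝ} (hr : 0 ≤ r) (hs : 0 ≤ s)
    (h : ContinuousOn (uncurry F) (sphere 0 r ×ˢ sphere 0 s)) :
    av (fun z => av (F z) s) r = av (fun u => av (fun z => F z u) r) s := by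
  have hc := cont_two hr hs h
  simp only [Real.circleAverage, intervalIntegral.integral_smul]
  congr 2
  have hp : (0 : ℝ) ≤ 2 * Real.pi := by positivity
  simp only [intervalIntegral.integral_of_le hp]
  apply MeasureTheory.integral_integral_swap
  rw [MeasureTheory.Measure.prod_restrict]
  exact (hc.continuousOn.integrableOn_compact (isCompact_Icc.prod isCompact_Icc)).mono_set
    (prod_mono Ioc_subset_Icc_self Ioc_subset_Icc_self)

theorem av_contOn {F : ℂ → ℂ → E} {A : Set ℂ} {s : ℝ} (hs : 0 ≤ s)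
    (h : ContinuousOn (uncurry F) (A ×ˢ sphere 0 s)) : ContinuousOn (fun z => av (F z) s) A := by
  rw [continuousOn_iff_continuous_domRestrict]
  apply (intervalIntegral.continuous_parametric_intervalIntegral_of_continuous' _ _ _).const_smul
  exact h.comp_continuous (f := fun p : A × ℝ => ((p.1 : ℂ), circleMap 0 s p.2))
    (by fun_prop) fun p => ⟨p.1.2, cm_mem hs _⟩

theorem av_rot (F : ℂ → E) (z : ℂ) : av (fun u => F (u * z)) 1 = av F ‖z‖ := by
  rw [av, av, Real.circleAverage_eq_integral_add (f := F) (arg z), Real.circleAverage]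
  congr 2
  funext t
  congr 1
  conv_lhs => rw [← norm_mul_exp_arg_mul_I z]
  simp only [circleMap, zero_add, ofReal_one, one_mul, ofReal_add, add_mul, Complex.exp_add]
  ring

theorem av_pow {F : ℂ → E} {k : ℕ} (hk : 1 ≤ k) {r : ℝ} (hr : 0 ≤ r)
    (h : ContinuousOn F (sphere 0 (r ^ k))) : av (fun w => F (w ^ k)) r = av F (r ^ k) := by
  have hk' : (k : ℝ) ≠ 0 := by positivity
  have hc : Continuous fun t => F (circleMap 0 (r ^ k) t) :=
    h.comp_continuous (by fun_prop) fun t => cm_mem (by positivity) t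
  have hper : Periodic (fun t => F (circleMap 0 (r ^ k) t)) (2 * Real.pi) := fun t => by
    simp [periodic_circleMap 0 (r ^ k) t]
  have h1 := hper.intervalIntegral_add_zsmul_eq (k : ℤ) 0 fun a b => hc.intervalIntegrable a b
  have h2 := intervalIntegral.integral_comp_mul_left (a := 0) (b := 2 * Real.pi)
    (fun t => F (circleMap 0 (r ^ k) t)) hk'
  simp only [zero_add, zsmul_eq_mul, Int.cast_natCast, mul_zero, natCast_zsmul] at h1 h2
  rw [h1, ← Nat.cast_smul_eq_nsmul ℝ, smul_smul, inv_mul_cancel₀ hk', one_smul] at h2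
  simp only [Real.circleAverage, ← h2]
  congr 2
  funext t
  congr 1
  simp only [circleMap, zero_add, mul_pow, ← Complex.exp_nat_mul]
  push_cast
  ring_nf

theorem norm_av_le {F : ℂ → E} {r C : ℝ} (hr : 0 ≤ r) (h : ∀ z : ℂ, ‖z‖ = r → ‖F z‖ ≤ C) :
    ‖av F r‖ ≤ C := by
  have h1 := intervalIntegral.norm_integral_le_of_norm_le_const (a := 0) (b := 2 * Real.pi)
    (f := fun t => F (circleMap 0 r t)) (C := C) fun t _ => h _ (by simpa using cm_mem hr t)
  have hp : (0 : ℝ) < 2 * Real.pi := by positivity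
  rw [av, Real.circleAverage, norm_smul, norm_inv, Real.norm_of_nonneg hp.le]
  rw [sub_zero, abs_of_pos hp] at h1
  rw [inv_mul_le_iff₀ hp]
  linarith

theorem av_congr {F G : ℂ → E} {r : ℝ} (hr : 0 ≤ r) (h : ∀ z : ℂ, ‖z‖ = r → F z = G z) :
    av F r = av G r :=
  Real.circleAverage_congr_sphere fun z hz => h z (by simpa [abs_of_nonneg hr] using hz)

omit [NormedSpace ℝ E] in
theorem ci_of {F : ℂ → E} {r : ℝ} (hr : 0 ≤ r) (h : ContinuousOn F (sphere 0 r)) :
    CircleIntegrable F 0 r := h.circleIntegrable hr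

end

theorem av_mono {F G : ℂ → ℝ} {r : ℝ} (hr : 0 ≤ r) (hF : ContinuousOn F (sphere 0 r))
    (hG : ContinuousOn G (sphere 0 r)) (h : ∀ z : ℂ, ‖z‖ = r → F z ≤ G z) : av F r ≤ av G r :=
  Real.circleAverage_mono (ci_of hr hF) (ci_of hr hG) fun z hz =>
    h z (by simpa [abs_of_nonneg hr] using hz)

theorem av_const_mul (c : ℂ) (F : ℂ → ℂ) (r : ℝ) : av (fun z => c * F z) r = c * av F r :=
  Real.circleAverage_fun_smul (a := c) (f := F)

theorem av_const_mul' (c : ℝ) (F : ℂ → ℝ) (r : ℝ) : av (fun z => c * F z) r = c * av F r :=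
  Real.circleAverage_fun_smul (a := c) (f := F)

theorem av_re {F : ℂ → ℂ} {r : ℝ} (hr : 0 ≤ r) (hF : ContinuousOn F (sphere 0 r)) :
    av (fun z => (F z).re) r = (av F r).re :=
  reCLM.circleAverage_comp_comm (ci_of hr hF)

theorem av_conj {F : ℂ → ℂ} {r : ℝ} (hr : 0 ≤ r) (hF : ContinuousOn F (sphere 0 r)) :
    av (fun z => conj (F z)) r = conj (av F r) :=
  (conjCLE : ℂ →L[ℝ] ℂ).circleAverage_comp_comm (ci_of hr hF)

theorem av_hol {f : ℂ → ℂ} {r R : ℝ} (hr : 0 ≤ r) (hR : r < R)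
    (hf : DifferentiableOn ℂ f (ball 0 R)) : av f r = f 0 := by
  apply DiffContOnCl.circleAverage
  rw [abs_of_nonneg hr]
  exact (hf.mono (closure_ball_subset_closedBall.trans (closedBall_subset_ball hR))).diffContOnCl

theorem cf_zero (f : ℂ → ℂ) : cf f 0 = f 0 := by simp [cf]

theorem coeff_Tay (f : ℂ → ℂ) (n : ℕ) : PowerSeries.coeff n (Tay f) = cf f n :=
  PowerSeries.coeff_mk _ _

theorem Tay_congr {f g : ℂ → ℂ} (h : f =ᶠ[𝓝 0] g) : Tay f = Tay g := by
  ext n
  simp only [coeff_Tay, cf, h.iteratedDeriv_eq n]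

theorem cf_congr {f g : ℂ → ℂ} (h : f =ᶠ[𝓝 0] g) (n : ℕ) : cf f n = cf g n := by
  rw [← coeff_Tay, Tay_congr h, coeff_Tay]

theorem Tay_add {f g : ℂ → ℂ} (hf : AnalyticAt ℂ f 0) (hg : AnalyticAt ℂ g 0) :
    Tay (fun z => f z + g z) = Tay f + Tay g := by
  ext n
  simp only [map_add, coeff_Tay, cf, iteratedDeriv_fun_add hf.contDiffAt hg.contDiffAt, add_div]

theorem Tay_sub {f g : ℂ → ℂ} (hf : AnalyticAt ℂ f 0) (hg : AnalyticAt ℂ g 0) :
    Tay (fun z => f z - g z) = Tay f - Tay g := by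
  ext n
  simp only [map_sub, coeff_Tay, cf, iteratedDeriv_fun_sub hf.contDiffAt hg.contDiffAt, sub_div]

theorem Tay_mul {f g : ℂ → ℂ} (hf : AnalyticAt ℂ f 0) (hg : AnalyticAt ℂ g 0) :
    Tay (fun z => f z * g z) = Tay f * Tay g := by
  ext n
  rw [PowerSeries.coeff_mul, Finset.Nat.sum_antidiagonal_eq_sum_range_succ_mk]
  simp only [coeff_Tay, cf, iteratedDeriv_fun_mul hf.contDiffAt hg.contDiffAt, Finset.sum_div]
  refine Finset.sum_congr rfl fun i hi => ?_
  have hi' : i ≤ n := Nat.lt_succ_iff.1 (Finset.mem_range.1 hi)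
  rw [Nat.cast_choose ℂ hi']
  have h1 : (n.factorial : ℂ) ≠ 0 := by exact_mod_cast n.factorial_ne_zero
  have h2 : (i.factorial : ℂ) ≠ 0 := by exact_mod_cast i.factorial_ne_zero
  have h3 : ((n - i).factorial : ℂ) ≠ 0 := by exact_mod_cast (n - i).factorial_ne_zero
  field_simp

theorem Tay_const (c : ℂ) : Tay (fun _ => c) = PowerSeries.C c := by
  ext n
  rw [coeff_Tay, PowerSeries.coeff_C, cf, iteratedDeriv_const]
  split_ifs with h <;> simp [h]

theorem Tay_id : Tay (fun z => z) = PowerSeries.X := by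
  ext n
  rw [coeff_Tay, PowerSeries.coeff_X, cf, iteratedDeriv_fun_id_zero]
  split_ifs with h <;> simp [h]

theorem cf_shift {f : ℂ → ℂ} (hf : AnalyticAt ℂ f 0) (n : ℕ) :
    cf (fun z => z * f z) (n + 1) = cf f n := by
  rw [← coeff_Tay, Tay_mul (f := fun z => z) analyticAt_id hf, Tay_id, PowerSeries.coeff_succ_X_mul, coeff_Tay]

theorem cf_zderiv {f : ℂ → ℂ} (hf : AnalyticAt ℂ f 0) (n : ℕ) :
    cf (fun z => z * deriv f z) n = n * cf f n := by
  rcases n with _ | n
  · simp [cf_zero]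
  · rw [cf_shift hf.deriv, cf, cf, iteratedDeriv_succ', Nat.factorial_succ]
    have h1 : (n.factorial : ℂ) ≠ 0 := by exact_mod_cast n.factorial_ne_zero
    have h2 : ((n : ℂ) + 1) ≠ 0 := by exact_mod_cast n.succ_ne_zero
    push_cast
    field_simp

theorem hasSum_cf {f : ℂ → ℂ} {R : ℝ} (hf : DifferentiableOn ℂ f (ball 0 R)) {z : ℂ}
    (hz : z ∈ ball (0 : ℂ) R) : HasSum (fun n => cf f n * z ^ n) (f z) := by
  have := Complex.hasSum_taylorSeries_on_ball hf hz
  simp only [sub_zero, smul_eq_mul] at this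
  refine this.congr_fun ?_ |> fun h => h
  intro n
  rw [cf]; ring

theorem anal {f : ℂ → ℂ} {R : ℝ} (hR : 0 < R) (hf : DifferentiableOn ℂ f (ball 0 R)) :
    AnalyticAt ℂ f 0 := hf.analyticAt (ball_mem_nhds 0 hR)

theorem exists_peel {f : ℂ → ℂ} {R : ℝ} (hR : 0 < R) (hf : DifferentiableOn ℂ f (ball 0 R)) :
    ∃ g : ℂ → ℂ, DifferentiableOn ℂ g (ball 0 R) ∧ (∀ z, f z = f 0 + z * g z) ∧
      ∀ n, cf f (n + 1) = cf g n := by
  have hg : DifferentiableOn ℂ (dslope f 0) (ball 0 R) :=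
    (differentiableOn_dslope (ball_mem_nhds 0 hR)).2 hf
  have e : ∀ z, f z = f 0 + z * dslope f 0 z := fun z => by
    have := sub_smul_dslope f 0 z
    rw [sub_zero, smul_eq_mul] at this
    rw [this]; ring
  refine ⟨_, hg, e, fun n => ?_⟩
  have ha := anal hR hg
  have h1 : Tay f = PowerSeries.C (f 0) + Tay fun z => z * dslope f 0 z := by
    rw [← Tay_const, ← Tay_add (g := fun z => z * dslope f 0 z) analyticAt_const
      (analyticAt_id.mul ha)]
    exact congrArg Tay (funext e)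
  rw [← cf_shift ha, ← coeff_Tay f, h1]
  simp [coeff_Tay]

theorem sph {f : ℂ → ℂ} {r R : ℝ} (hR : r < R) (hf : DifferentiableOn ℂ f (ball 0 R)) :
    ContinuousOn f (sphere 0 r) :=
  hf.continuousOn.mono (sphere_subset_closedBall.trans (closedBall_subset_ball hR))

theorem av_cf {f : ℂ → ℂ} {r R : ℝ} (hr : 0 < r) (hR : r < R)
    (hf : DifferentiableOn ℂ f (ball 0 R)) (n : ℕ) :
    av (fun z => f z * conj z ^ n) r = cf f n * (r : ℂ) ^ (2 * n) := by
  induction n generalizing f with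
  | zero => simpa [cf_zero] using av_hol hr.le hR hf
  | succ n ih =>
    obtain ⟨g, hg, e, hc⟩ := exists_peel (hr.trans hR) hf
    have h0 : av (fun z : ℂ => conj (z ^ (n + 1))) r = 0 := by
      rw [av_conj hr.le (by fun_prop), av_hol hr.le hR (by fun_prop)]
      simp
    rw [av_congr hr.le (G := fun z => f 0 * conj (z ^ (n + 1)) + (r : ℂ) ^ 2 * (g z * conj z ^ n)),
      av, Real.circleAverage_fun_add, ← av, ← av, av_const_mul, av_const_mul, h0, ih hg, hc]
    · ring
    · exact ci_of hr.le (by fun_prop)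
    · exact ci_of hr.le (continuousOn_const.mul ((sph hR hg).mul (by fun_prop)))
    · intro z hz
      rw [e z, map_pow, ← hz, ← Complex.mul_conj']
      ring

theorem cf_le {f : ℂ → ℂ} {C : ℝ} (hf : DifferentiableOn ℂ f (ball 0 1))
    (h : ∀ z ∈ ball (0 : ℂ) 1, ‖f z‖ ≤ C) (n : ℕ) : ‖cf f n‖ ≤ C := by
  have h1 : ∀ r ∈ Ioo (0 : ℝ) 1, ‖cf f n‖ * r ^ n ≤ C := fun r hr => by
    have h2 := norm_av_le (F := fun z => f z * conj z ^ n) (C := C * r ^ n) hr.1.le fun z hz => by
      rw [norm_mul, norm_pow, RCLike.norm_conj, hz]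
      exact mul_le_mul_of_nonneg_right (h z (by simpa [hz] using hr.2)) (pow_pos hr.1 n).le
    rw [av_cf hr.1 hr.2 hf, norm_mul, norm_pow, Complex.norm_real, Real.norm_of_nonneg hr.1.le,
      two_mul, pow_add, ← mul_assoc] at h2
    exact le_of_mul_le_mul_right h2 (pow_pos hr.1 n)
  have h3 : Tendsto (fun r : ℝ => ‖cf f n‖ * r ^ n) (𝓝[<] 1) (𝓝 (‖cf f n‖ * 1 ^ n)) :=
    (Continuous.tendsto (by fun_prop) 1).mono_left nhdsWithin_le_nhds
  simpa using le_of_tendsto h3 (eventually_of_mem (Ioo_mem_nhdsLT zero_lt_one) h1)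

theorem bessel {f : ℂ → ℂ} {r R : ℝ} (hr : 0 < r) (hR : r < R)
    (hf : DifferentiableOn ℂ f (ball 0 R)) (K : ℕ) :
    ∑ m ∈ Finset.range K, ‖cf f m‖ ^ 2 * (r ^ 2) ^ m ≤ av (fun z => ‖f z‖ ^ 2) r := by
  induction K generalizing f with
  | zero => simpa using Real.circleAverage_nonneg_of_nonneg fun z _ => by positivity
  | succ K ih =>
    obtain ⟨g, hg, e, hc⟩ := exists_peel (hr.trans hR) hf
    have hd : DifferentiableOn ℂ (fun z => 2 * (z * g z * conj (f 0))) (ball 0 R) :=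
      ((differentiableOn_id.mul hg).mul_const _).const_mul _
    have h0 : av (fun z => (2 * (z * g z * conj (f 0))).re) r = 0 := by
      rw [av_re hr.le (sph hR hd), av_hol hr.le hR hd]
      simp
    have hg2 : ContinuousOn (fun z => r ^ 2 * ‖g z‖ ^ 2) (sphere 0 r) :=
      continuousOn_const.mul ((sph hR hg).norm.pow 2)
    rw [av_congr hr.le (G := fun z => (‖f 0‖ ^ 2 + r ^ 2 * ‖g z‖ ^ 2) +
        (2 * (z * g z * conj (f 0))).re),
      av, Real.circleAverage_fun_add, Real.circleAverage_fun_add, Real.circleAverage_const,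
      ← av, ← av, h0, av_const_mul', Finset.sum_range_succ', cf_zero]
    · have := mul_le_mul_of_nonneg_left (ih hg) (sq_nonneg r)
      rw [Finset.mul_sum] at this
      simp only [hc, pow_succ (r ^ 2), pow_zero, mul_one, add_zero]
      have h4 : ∀ m, ‖cf g m‖ ^ 2 * ((r ^ 2) ^ m * r ^ 2) = r ^ 2 * (‖cf g m‖ ^ 2 * (r ^ 2) ^ m) :=
        fun m => by ring
      simp only [h4]
      linarith
    · exact ci_of hr.le continuousOn_const
    · exact ci_of hr.le hg2
    · exact ci_of hr.le (continuousOn_const.add hg2)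
    · exact ci_of hr.le (continuous_re.comp_continuousOn (sph hR hd))
    · intro z hz
      rw [e z, ← hz, ← mul_pow, ← norm_mul, Complex.sq_norm, Complex.sq_norm, Complex.sq_norm]
      simp only [normSq_apply, add_re, add_im, mul_re, mul_im, conj_re, conj_im, re_ofNat, im_ofNat]
      ring

end Pool.Agent.MP_757d88_an
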