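import Pool.Agent.MP_757d88_an.WD

/-! Series of the block: data and checks. -/

set_option autoImplicit false

namespace Pool.Agent.MP_757d88_an

namespace W

theorem e1 : par.ck1 2 = true ∧ par.ck1 3 = true := by
  decide +kernel

end W

end Pool.Agent.MP_757d88_an
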