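import Pool.Agent.MP_757d88_an.Main2
import Pool.Agent.MP_757d88_an.WB
import Pool.Agent.MP_757d88_an.WF
import Pool.Agent.MP_757d88_an.WE0
import Pool.Agent.MP_757d88_an.WE1
import Pool.Agent.MP_757d88_an.WE2
import Pool.Agent.MP_757d88_an.WE3
import Pool.Agent.MP_757d88_an.WE4
import Pool.Agent.MP_757d88_an.WE5
import Pool.Agent.MP_757d88_an.WE6
import Pool.Agent.MP_757d88_an.WE7
import Pool.Agent.MP_757d88_an.WE8

/-! The certificate. -/

set_option autoImplicit false

namespace Pool.Agent.MP_757d88_an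

namespace W

theorem hlast : Last 702981 256 (1 / ((19 : ℕ) : ℝ)) dd pp := by
  have t0 := start (L := 702981) (K := 256) blk (54 / 171) (c := 443988) (by norm_num)
  have t1 := step blk t0 (13 / 171) (-191 / 171) (307275534677 / 171000000000) (16812065213 / 85500000000) (c' := -1570402) s1
    (by norm_num)
  have t2 := step blk t1 (20 / 171) (151 / 171) (77811981103 / 85500000000) (178029283093 / 171000000000) (c' := 1241522) s2
    (by norm_num)
  have t3 := step blk t2 (24 / 171) (11 / 171) (142762211107 / 171000000000) (187404154211 / 171000000000) (c' := 90442) s3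
    (by norm_num)
  have t4 := step blk t3 (91 / 171) (101 / 171) (4500111167 / 85500000000) (132413547403 / 85500000000) (c' := 830422) s4
    (by norm_num)
  exact last blk t4 _ s5 dv (by norm_num)

theorem hY : al2 (fun t => odeCk 8 bB 256 mM 4111 (2 ^ 0) dd pp (par.X t) (par.Y t)) 18 = true := by
  simp only [al2, Bool.and_eq_true]
  exact ⟨o5.2.2,
    o5.2.1,
    o5.1,
    o4.2.2,
    o4.2.1,
    o4.1,
    o3.2.2,
    o3.2.1,
    o3.1,
    o2.2.2,
    o2.2.1,
    o2.1,
    o1.2.2,
    o1.2.1,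
    o1.1,
    o0.2.2,
    o0.2.1,
    o0.1, trivial⟩

theorem hk1 : al2 par.ck1 18 = true := by
  simp only [al2, Bool.and_eq_true]
  exact ⟨e8.2,
    e8.1,
    e7.2,
    e7.1,
    e6.2,
    e6.1,
    e5.2,
    e5.1,
    e4.2,
    e4.1,
    e3.2,
    e3.1,
    e2.2,
    e2.1,
    e1.2,
    e1.1,
    e0.2,
    e0.1, trivial⟩

theorem hck : par.ck = true := Bool.and_eq_true_iff.2 ⟨hk1, hf⟩

theorem growth : ∃ N : ℕ, ∀ n, N ≤ n → ∃ f b, IsSig f b ∧
    (n : ℝ) ^ ((1227 : ℝ) / 5000 - 1) ≤ ‖b n‖ :=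
  main2 par (c := 1974895) (u := 12272) (w := 50000) hlast hck (by decide +kernel) ec
    (fun j hj => al2_iff.1 pc j (Nat.lt_sub_of_add_lt hj)) (al2_iff.1 hY) (by norm_num) (by norm_num)

end W

end Pool.Agent.MP_757d88_an
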